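import Pool.Graph.R_pool_sql_team_seeded_63374d34.Results.MP_294da1_gt.HigmanBound

/-!
# The positive Dehn twists about the separating curves: definition
-/

set_option autoImplicit false

namespace Pool.Agent.Helper23.MCG

open Pool.Agent.N513.PF Pool.Agent.Results.MP_294da1_gt.HigmanBound

/-- the product of the commutators `x_i y_i x_i⁻¹ y_i⁻¹` of the first `h` handles: the class of the
standard separating curve that cuts off `h` handles -/
def zetaH (g h : ℕ) : F g := (((List.finRange g).take h).map fun i =>
  FreeGroup.of (i, false) * FreeGroup.of (i, true) * (FreeGroup.of (i, false))⁻¹ *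
    (FreeGroup.of (i, true))⁻¹).prod

/-- the homomorphism that conjugates the generators of the first `h` handles by `v` and fixes the
other generators -/
def sepHom (g h : ℕ) (v : F g) : F g →* F g :=
  FreeGroup.lift fun a => if a.1.val < h then v * FreeGroup.of a * v⁻¹ else FreeGroup.of a

lemma sepHom_of (g h : ℕ) (v : F g) (a : Fin g × Bool) : sepHom g h v (FreeGroup.of a) =
    if a.1.val < h then v * FreeGroup.of a * v⁻¹ else FreeGroup.of a := by
  unfold sepHom
  rw [FreeGroup.lift_apply_of]

lemma sepHom_block (g h : ℕ) (v : F g) (l : List (Fin g)) (hl : ∀ i ∈ l, i.val < h) :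
    sepHom g h v (l.map fun i => FreeGroup.of (i, false) * FreeGroup.of (i, true) *
      (FreeGroup.of (i, false))⁻¹ * (FreeGroup.of (i, true))⁻¹).prod =
    v * (l.map fun i => FreeGroup.of (i, false) * FreeGroup.of (i, true) *
      (FreeGroup.of (i, false))⁻¹ * (FreeGroup.of (i, true))⁻¹).prod * v⁻¹ := by
  induction l with
  | nil => simp
  | cons i l ih =>
    rw [List.map_cons, List.prod_cons, map_mul, ih (fun j hj => hl j (List.mem_cons_of_mem _ hj))]
    have hi := hl i (List.mem_cons_self)
    simp only [map_mul, map_inv, sepHom_of, hi, if_true]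
    group

lemma take_lt (g h : ℕ) : ∀ i ∈ (List.finRange g).take h, i.val < h := by
  intro i hi
  obtain ⟨j, hj, rfl⟩ := List.mem_take_iff_getElem.1 hi
  simp
  omega

lemma sepHom_zetaH (g h : ℕ) (v : F g) : sepHom g h v (zetaH g h) = v * zetaH g h * v⁻¹ :=
  sepHom_block g h v _ (take_lt g h)

lemma sepHom_comp (g h : ℕ) (v w : F g) (hw : sepHom g h v w = w) (hvw : w * v = 1) :
    (sepHom g h v).comp (sepHom g h w) = MonoidHom.id _ := by
  refine FreeGroup.ext_hom _ _ fun a => ?_
  rw [MonoidHom.comp_apply, MonoidHom.id_apply, sepHom_of]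
  split_ifs with h1
  · rw [map_mul, map_mul, map_inv, hw, sepHom_of, if_pos h1]
    have : v = w⁻¹ := (eq_inv_of_mul_eq_one_right hvw)
    rw [this]
    group
  · rw [sepHom_of, if_neg h1]

/-- the positive Dehn twist about the standard separating curve that cuts off the first `h` handles:
conjugation by `zetaH⁻¹` on the generators of these handles (for `h = g`: the boundary twist) -/
def sepTwist (g h : ℕ) : MulAut (F g) :=
  MonoidHom.toMulEquiv (sepHom g h (zetaH g h)⁻¹) (sepHom g h (zetaH g h))
    (sepHom_comp g h _ _ (by rw [map_inv, sepHom_zetaH]; group) (by group))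
    (sepHom_comp g h _ _ (by rw [sepHom_zetaH]; group) (by group))

lemma sepTwist_apply (g h : ℕ) (u : F g) : sepTwist g h u = sepHom g h (zetaH g h)⁻¹ u := rfl

/-- the positive Dehn twists about the separating simple closed curves -/
def IsSepTwist {g : ℕ} (τ : MulAut (F g)) : Prop :=
  ∃ φ ∈ M g, ∃ h, 1 ≤ h ∧ h ≤ g ∧ τ = φ * sepTwist g h * φ⁻¹

/-- it fixes `zeta` -/
lemma sepTwist_mem (g h : ℕ) : sepTwist g h ∈ M g := by
  show sepHom g h (zetaH g h)⁻¹ (zeta g) = zeta g
  have h1 : zeta g = zetaH g h * (((List.finRange g).drop h).map fun i =>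
    FreeGroup.of (i, false) * FreeGroup.of (i, true) * (FreeGroup.of (i, false))⁻¹ *
      (FreeGroup.of (i, true))⁻¹).prod := by
    unfold zeta zetaH
    rw [← List.prod_append, ← List.map_append, List.take_append_drop]
  have h2 : ∀ l : List (Fin g), (∀ i ∈ l, ¬ i.val < h) → sepHom g h (zetaH g h)⁻¹ (l.map fun i =>
      FreeGroup.of (i, false) * FreeGroup.of (i, true) * (FreeGroup.of (i, false))⁻¹ *
      (FreeGroup.of (i, true))⁻¹).prod = (l.map fun i =>
      FreeGroup.of (i, false) * FreeGroup.of (i, true) * (FreeGroup.of (i, false))⁻¹ *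
      (FreeGroup.of (i, true))⁻¹).prod := by
    intro l hl
    induction l with
    | nil => simp
    | cons i l ih =>
      rw [List.map_cons, List.prod_cons, map_mul, ih (fun j hj => hl j (List.mem_cons_of_mem _ hj))]
      have hi := hl i (List.mem_cons_self)
      simp only [map_mul, map_inv, sepHom_of, hi, if_false]
  rw [h1, map_mul, sepHom_zetaH, h2]
  · group
  · intro i hi
    obtain ⟨j, hj, rfl⟩ := List.mem_drop_iff_getElem.1 hi
    simp

end Pool.Agent.Helper23.MCG
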