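import Pool.Agent.Helper23.MCG.Disj
import Pool.Agent.Helper23.MCG.SepDef

/-!
# Gauge transformations, the intersection labelling modulo two, and the number of curves
-/

set_option autoImplicit false
set_option linter.unusedSectionVars false
set_option linter.style.haveILetI false

namespace Pool.Agent.Helper23.MCG

open Equiv Equiv.Perm
open Pool.Agent.Results.MP_294da1_gt.HigmanBound

variable {D : Type} {Γ : SMap D} {H : Type} [Group H]

lemma vfun_sc [Finite D] {f : Perm D} {X : Type} {g : D → X} (hg : ∀ d, g (f d) = g d) {x y : D}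
    (h : SameCycle f x y) : g x = g y :=
  sc_of_rel (f := f) (R := fun x y => g x = g y) (fun _ => rfl) (fun _ _ _ h1 h2 => h1.trans h2)
    (fun x => (hg x).symm) h

/-- gauge transformations conjugate the loops -/
lemma loop_gauge [Finite D] (c : Γ.Curve) {m m' g : D → H} (hg : ∀ d, g (Γ.rot d) = g d)
    (hm : ∀ d, m' d = g d * m d * (g (Γ.inv d))⁻¹) (i : ZMod (c.n + 1)) :
    c.loop m' i = g (c.dart i) * c.loop m i * (g (c.dart i))⁻¹ := by
  have key : ∀ N : ℕ, ((List.range N).map fun t : ℕ => m' (c.dart (i + (t : ZMod (c.n + 1))))).prod =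
      g (c.dart i) * ((List.range N).map fun t : ℕ => m (c.dart (i + (t : ZMod (c.n + 1))))).prod *
      (g (c.dart (i + (N : ZMod (c.n + 1)))))⁻¹ := by
    intro N
    induction N with
    | zero => simp
    | succ N ih =>
      have h1 : g (Γ.inv (c.dart (i + (N : ZMod (c.n + 1))))) =
          g (c.dart (i + ((N + 1 : ℕ) : ZMod (c.n + 1)))) := by
        rw [vfun_sc hg (c.chain (i + (N : ZMod (c.n + 1))))]
        push_cast
        rw [add_assoc]
      rw [List.range_succ, List.map_append, List.prod_append, List.map_append, List.prod_append, ih]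
      simp only [List.map_cons, List.map_nil, List.prod_cons, List.prod_nil, mul_one]
      rw [hm, h1]
      group
  have := key (c.n + 1)
  unfold SMap.Curve.loop
  rw [this]
  have h2 : ((c.n + 1 : ℕ) : ZMod (c.n + 1)) = 0 := ZMod.natCast_self _
  rw [h2, add_zero]

lemma loop_map {H' : Type} [Group H'] (c : Γ.Curve) (m : D → H) (θ : H →* H') (i : ZMod (c.n + 1)) :
    c.loop (fun d => θ (m d)) i = θ (c.loop m i) := by
  unfold SMap.Curve.loop
  rw [map_list_prod, List.map_map]
  rfl

lemma GEq.refl (m : D → H) : Γ.GEq m m :=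
  ⟨fun _ => 1, fun _ => rfl, rfl, fun d => by group⟩

lemma GEq.symm {m m' : D → H} (h : Γ.GEq m m') : Γ.GEq m' m := by
  obtain ⟨g, h1, h2, h3⟩ := h
  refine ⟨fun d => (g d)⁻¹, fun d => by simp only [h1], by simp only [h2, inv_one], fun d => ?_⟩
  rw [h3]
  group

lemma GEq.trans {m m' m'' : D → H} (h : Γ.GEq m m') (h' : Γ.GEq m' m'') : Γ.GEq m m'' := by
  obtain ⟨g, h1, h2, h3⟩ := h
  obtain ⟨g', h1', h2', h3'⟩ := h'
  refine ⟨fun d => g' d * g d, fun d => by simp only [h1, h1'], by simp only [h2, h2', mul_one],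
    fun d => ?_⟩
  rw [h3', h3]
  group

lemma GEq.map {H' : Type} [Group H'] {m m' : D → H} (h : Γ.GEq m m') (θ : H →* H') :
    Γ.GEq (fun d => θ (m d)) (fun d => θ (m' d)) := by
  obtain ⟨g, h1, h2, h3⟩ := h
  refine ⟨fun d => θ (g d), fun d => by simp only [h1], by simp only [h2, map_one], fun d => ?_⟩
  show θ (m' d) = θ (g d) * θ (m d) * (θ (g (Γ.inv d)))⁻¹
  rw [h3, map_mul, map_mul, map_inv]

/-! ### products over the vertices of a curve -/

lemma prod_range_zmod {A : Type} [CommMonoid A] (n : ℕ) (f : ZMod (n + 1) → A) :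
    ((List.range (n + 1)).map fun t : ℕ => f (t : ZMod (n + 1))).prod = ∏ i, f i := by
  have h1 : ∀ (N : ℕ) (f : ℕ → A), ((List.range N).map f).prod = ∏ t ∈ Finset.range N, f t := by
    intro N f
    induction N with
    | zero => simp
    | succ N ih =>
      rw [List.range_succ, List.map_append, List.prod_append, ih, Finset.prod_range_succ]
      simp
  rw [h1, Finset.prod_range]
  refine Finset.prod_congr rfl fun i _ => ?_
  congr 1
  exact ZMod.natCast_zmod_val (n := n + 1) i

/-! ### the intersection labelling -/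

open Classical in
/-- indicator modulo two -/
noncomputable def ind (P : Prop) : ZMod 2 := if P then 1 else 0

lemma ind_true {P : Prop} (h : P) : ind P = 1 := by unfold ind; rw [if_pos h]
lemma ind_false {P : Prop} (h : ¬ P) : ind P = 0 := by unfold ind; rw [if_neg h]

lemma ind_or {P Q : Prop} (h : ¬ (P ∧ Q)) : ind (P ∨ Q) = ind P + ind Q := by
  by_cases hp : P
  · have hq : ¬ Q := fun hq => h ⟨hp, hq⟩
    rw [ind_true hp, ind_false hq, ind_true (Or.inl hp), add_zero]
  · by_cases hq : Q
    · rw [ind_true hq, ind_false hp, ind_true (Or.inr hq), zero_add]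
    · rw [ind_false hp, ind_false hq, ind_false (by tauto), add_zero]

lemma ind_congr {P Q : Prop} (h : P ↔ Q) : ind P = ind Q := by
  rw [propext h]

/-- the intersection number with `c`, modulo two -/
noncomputable def kap (c : Γ.Curve) (d : D) : Multiplicative (ZMod 2) :=
  Multiplicative.ofAdd (ind (c.Left d) - ind (c.Left (Γ.inv d)))

lemma kap_lab [Finite D] (c : Γ.Curve) : Γ.IsLab (kap c) (1 : Multiplicative (ZMod 2)) := by
  have hb : ¬ c.LO Γ.base := by
    intro h
    obtain ⟨i, hi⟩ := h.at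
    exact c.base i hi.symm
  have key : ∀ d, Multiplicative.ofAdd (- ind (c.LO (Γ.face d))) =
      Multiplicative.ofAdd (- ind (c.LO d)) * kap c d := by
    intro d
    unfold kap
    rw [← ofAdd_add]
    congr 1
    have h1 : ind (c.LO d) = ind (c.Left d) + ind (d ∈ Set.range c.dart) := by
      apply ind_or
      rintro ⟨h1, ⟨i, h2⟩⟩
      exact h1.not_dart _ _ h2.symm
    have h2 : ind (c.LO (Γ.face d)) = ind (c.Left (Γ.inv d)) + ind (d ∈ Set.range c.dart) := by
      rw [Γ.face_apply, ind_congr (c.lo_rot (Γ.inv d)), Γ.inv_inv]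
      apply ind_or
      rintro ⟨h1, ⟨i, h2⟩⟩
      exact h1.not_inv _ i (by rw [h2])
    rw [h1, h2]
    ring
  refine ⟨fun d => ?_, fun d => Multiplicative.ofAdd (- ind (c.LO d)), ?_, fun d _ => key d,
    fun d hd => ?_⟩
  · unfold kap
    rw [Γ.inv_inv, ← ofAdd_neg]
    congr 1
    ring
  · show Multiplicative.ofAdd (- ind (c.LO Γ.base)) = 1
    rw [ind_false hb]
    rfl
  · rw [← key d, hd, ind_false hb]
    rfl

lemma kap_self [Finite D] (c : Γ.Curve) (i : ZMod (c.n + 1)) : c.loop (kap c) i = 1 := by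
  unfold SMap.Curve.loop
  apply List.prod_eq_one
  intro x hx
  obtain ⟨t, -, rfl⟩ := List.mem_map.1 hx
  unfold kap
  rw [ind_false (fun h => h.not_dart _ _ rfl), ind_false (fun h => h.not_inv _ _ rfl)]
  rfl

/-- a curve that crosses `c` once has intersection number one with `c` -/
lemma kap_cross [Finite D] (c c' : Γ.Curve) (h : c.MeetOnce c') (i : ZMod (c.n + 1))
    (j : ZMod (c'.n + 1)) (hij : Γ.rot.SameCycle (c.dart i) (c'.dart j)) :
    c'.loop (kap c) 0 = Multiplicative.ofAdd 1 := by
  unfold SMap.Curve.loop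
  simp only [zero_add]
  rw [prod_range_zmod c'.n (fun t => kap c (c'.dart t))]
  unfold kap
  rw [← ofAdd_sum]
  congr 1
  rw [Finset.sum_sub_distrib]
  have h1 : ∑ x, ind (c.Left (Γ.inv (c'.dart x))) = ∑ x, ind (c.Left (Γ.inv (c'.dart (x - 1)))) :=
    (Equiv.sum_comp (Equiv.subRight (1 : ZMod (c'.n + 1)))
      (fun x => ind (c.Left (Γ.inv (c'.dart x))))).symm
  rw [h1, ← Finset.sum_sub_distrib]
  obtain ⟨h2, h3⟩ := h
  have h4 := (h3 i j hij).2.2
  rw [Finset.sum_eq_single j]
  · by_cases h5 : c.Left (c'.dart j)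
    · rw [ind_true h5, ind_false (h4.1 h5), sub_zero]
    · have h6 : c.Left (Γ.inv (c'.dart (j - 1))) := by
        by_contra h6
        exact h5 (h4.2 h6)
      rw [ind_false h5, ind_true h6]
      rfl
  · intro b _ hb
    have h5 : ¬ c.Left (c'.dart b) := by
      intro h5
      obtain ⟨i', hi'⟩ := h5.at
      exact hb (h2 i' b i j hi' hij).2
    have h6 : ¬ c.Left (Γ.inv (c'.dart (b - 1))) := by
      intro h6
      obtain ⟨i', hi'⟩ := h6.at
      have h7 := c'.chain (b - 1)
      rw [sub_add_cancel] at h7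
      exact hb (h2 i' b i j (hi'.trans h7) hij).2
    rw [ind_false h5, ind_false h6, sub_zero]
  · intro hj
    exact absurd (Finset.mem_univ j) hj

/-! ### markings -/

/-- `ℓ` identifies the free group `F g` with the fundamental group of the surface with one boundary
component, the boundary being `zeta`: it is a labelling, and every labelling in any group comes
from `ℓ` by a unique homomorphism, up to gauge -/
def SMap.IsMarking {g : ℕ} {D : Type} (Γ : SMap D) (ℓ : D → F g) : Prop :=
  Γ.IsLab ℓ (zeta g) ∧ ∀ (H : Type) [Group H] (m : D → H) (z : H), Γ.IsLab m z →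
    ∃! θ : F g →* H, Γ.GEq m (fun d => θ (ℓ d))

/-- the class of a curve modulo two -/
def cls {g : ℕ} (ℓ : D → F g) (c : Γ.Curve) (θ : F g →* Multiplicative (ZMod 2)) :
    Multiplicative (ZMod 2) := θ (c.loop ℓ 0)

lemma loop_comm {A : Type} [CommGroup A] [Finite D] (c : Γ.Curve) {m m' : D → A}
    (h : Γ.GEq m m') (i : ZMod (c.n + 1)) : c.loop m' i = c.loop m i := by
  obtain ⟨g, h1, -, h3⟩ := h
  rw [loop_gauge c h1 h3, mul_comm, ← mul_assoc, inv_mul_cancel, one_mul]

lemma cls_ne [Finite D] {g : ℕ} {ℓ : D → F g} (hℓ : Γ.IsMarking ℓ) {c c' : Γ.Curve}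
    (h : c.MeetOnce c') (i : ZMod (c.n + 1)) (j : ZMod (c'.n + 1))
    (hij : Γ.rot.SameCycle (c.dart i) (c'.dart j)) : cls ℓ c ≠ cls ℓ c' := by
  intro he
  obtain ⟨θ, hθ, -⟩ := hℓ.2 _ (kap c) 1 (kap_lab c)
  have h1 := congrFun he θ
  unfold cls at h1
  rw [← loop_map, ← loop_map, loop_comm c hθ, loop_comm c' hθ, kap_self, kap_cross c c' h i j hij] at h1
  have h2 : (0 : ZMod 2) = 1 := h1
  exact absurd h2 (by decide)

instance homFin (g : ℕ) : Finite (F g →* Multiplicative (ZMod 2)) :=
  Finite.of_equiv _ (FreeGroup.lift (α := Fin g × Bool) (β := Multiplicative (ZMod 2)))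

/-- the number of classes -/
noncomputable def nCls (g : ℕ) : ℕ :=
  Nat.card ((F g →* Multiplicative (ZMod 2)) → Multiplicative (ZMod 2))

/-- **the number of curves** -/
theorem card_bound [Finite D] (hc : Γ.Connected) {g : ℕ} (hg : Γ.HasGenus g) {ℓ : D → F g}
    (hℓ : Γ.IsMarking ℓ) {K : ℕ} (c : Fin K → Γ.Curve) (hmeet : ∀ i j, i ≠ j → (c i).MeetOnce (c j))
    (hne : ∀ j, (c j).loop ℓ 0 ≠ 1)
    (hnc : ∀ i j, i ≠ j → ¬ IsConj ((c i).loop ℓ 0) ((c j).loop ℓ 0) ∧
      ¬ IsConj ((c i).loop ℓ 0) ((c j).loop ℓ 0)⁻¹) : K ≤ 4 * g * nCls g := by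
  classical
  haveI : Finite ((F g →* Multiplicative (ZMod 2)) → Multiplicative (ZMod 2)) := inferInstance
  haveI := Fintype.ofFinite ((F g →* Multiplicative (ZMod 2)) → Multiplicative (ZMod 2))
  have h1 := Finset.card_le_mul_card_image (s := (Finset.univ : Finset (Fin K)))
    (f := fun j => cls ℓ (c j)) (4 * g) ?_
  · rw [Finset.card_univ, Fintype.card_fin] at h1
    refine h1.trans (Nat.mul_le_mul_left _ ?_)
    unfold nCls
    rw [Nat.card_eq_fintype_card]
    exact Finset.card_le_univ _
  · intro a _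
    set S := (Finset.univ : Finset (Fin K)).filter fun j => cls ℓ (c j) = a with hS
    let e := S.equivFin
    have hinj : ∀ i j : Fin S.card, i ≠ j → ((e.symm i : S) : Fin K) ≠ ((e.symm j : S) : Fin K) := by
      intro i j hij h2
      exact hij (e.symm.injective (Subtype.ext h2))
    have hcl : ∀ i : Fin S.card, cls ℓ (c (e.symm i : S)) = a := fun i =>
      (Finset.mem_filter.1 (e.symm i).2).2
    refine disj_bound (c := fun i : Fin S.card => c ((e.symm i : S) : Fin K)) hc hg ?_ hℓ.1
      (fun j => hne _) (fun i j hij => hnc _ _ (hinj i j hij))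
    intro i j hij x y hxy
    exact cls_ne hℓ (hmeet _ _ (hinj i j hij)) x y hxy ((hcl i).trans (hcl j).symm)

end Pool.Agent.Helper23.MCG
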