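import Pool.Agent.Helper23.MCG.Cls

/-!
# The size of a taut drawing
-/

set_option autoImplicit false
set_option linter.unusedSectionVars false
set_option linter.style.haveILetI false

namespace Pool.Agent.Helper23.MCG

open Equiv Equiv.Perm

variable {D : Type} {Γ : SMap D}

/-- A drawing of a system of curves on a map without superfluous vertices and edges: every vertex
other than the base vertex lies on a curve; a curve has either a single vertex, or all its vertices
are intersections with other curves; every edge that is not on a curve has the same face on both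
sides (the map divides every component of the complement of the curves into a single disc). -/
def Taut {K : ℕ} (c : Fin K → Γ.Curve) : Prop :=
  (∀ d, Γ.rot.SameCycle Γ.base d ∨ ∃ j i, Γ.rot.SameCycle ((c j).dart i) d) ∧
  (∀ j, (c j).n = 0 ∨ ∀ i, ∃ j', j' ≠ j ∧ ∃ i', Γ.rot.SameCycle ((c j).dart i) ((c j').dart i')) ∧
  ∀ d, (∀ j, ¬ (c j).On d) → Γ.face.SameCycle d (Γ.inv d)

theorem size_bound [Finite D] (hc : Γ.Connected) {g : ℕ} (hg : Γ.HasGenus g) {K : ℕ}
    (c : Fin K → Γ.Curve) (hmeet : ∀ i j, i ≠ j → (c i).MeetOnce (c j)) (ht : Taut c) :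
    Nat.card D ≤ 6 * (K * K) + 4 * g + 4 := by
  classical
  haveI : Finite (Quotient (SameCycle.setoid Γ.rot)) := Quotient.finite _
  haveI : Finite (Quotient (SameCycle.setoid Γ.face)) := Quotient.finite _
  obtain ⟨t1, t2, t3⟩ := ht
  -- the curves are short
  have h1 : ∀ j, (c j).n + 1 ≤ K := by
    intro j
    rcases t2 j with h | h
    · rw [h]
      exact Nat.succ_le_of_lt (Nat.lt_of_le_of_lt (Nat.zero_le _) j.2)
    · choose f hf i' hi' using h
      have hinj : Function.Injective f := by
        intro a b hab
        have h2 := hi' b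
        have h3 := hi' a
        revert h2 h3
        generalize i' a = ia
        generalize i' b = ib
        revert ia ib
        rw [← hab]
        intro ia ib h2 h3
        exact ((hmeet j (f a) (hf a).symm).1 a ia b ib h3 h2).1
      have := Fintype.card_le_of_injective f hinj
      rwa [ZMod.card, Fintype.card_fin] at this
  set X := Σ j, ZMod ((c j).n + 1) with hX
  have h2 : Nat.card X ≤ K * K := by
    rw [Nat.card_sigma]
    refine (Finset.sum_le_sum (fun j _ => (?_ : Nat.card (ZMod ((c j).n + 1)) ≤ K))).trans ?_
    · rw [Nat.card_zmod]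
      exact h1 j
    · rw [Finset.sum_const, Finset.card_univ, Fintype.card_fin, smul_eq_mul]
  -- the vertices
  have h3 : nc Γ.rot ≤ 1 + Nat.card X := by
    let f : Option X → Quotient (SameCycle.setoid Γ.rot) := fun a =>
      match a with
      | none => Quotient.mk _ Γ.base
      | some x => Quotient.mk _ ((c x.1).dart x.2)
    have hf : Function.Surjective f := by
      intro q
      induction q using Quotient.inductionOn with | _ d
      rcases t1 d with h | ⟨j, i, h⟩
      · exact ⟨none, Quotient.sound h⟩
      · exact ⟨some ⟨j, i⟩, Quotient.sound h⟩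
    have := Nat.card_le_card_of_surjective f hf
    rw [Finite.card_option] at this
    unfold nc
    omega
  -- the faces
  have h4 : nc Γ.face ≤ 1 + 2 * Nat.card X := by
    by_cases h : ∀ d, ∃ e, Γ.face.SameCycle d e ∧ ∃ j, (c j).On e
    · let f : X × Bool → Quotient (SameCycle.setoid Γ.face) := fun a =>
        if a.2 then Quotient.mk _ ((c a.1.1).dart a.1.2) else
          Quotient.mk _ (Γ.inv ((c a.1.1).dart a.1.2))
      have hf : Function.Surjective f := by
        intro q
        induction q using Quotient.inductionOn with | _ d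
        obtain ⟨e, he, j, i, rfl | rfl⟩ := h d
        · exact ⟨(⟨j, i⟩, true), Quotient.sound he.symm⟩
        · exact ⟨(⟨j, i⟩, false), Quotient.sound he.symm⟩
      have := Nat.card_le_card_of_surjective f hf
      rw [Nat.card_prod, Nat.card_eq_fintype_card (α := Bool), Fintype.card_bool] at this
      unfold nc
      omega
    · push Not at h
      obtain ⟨d, hd⟩ := h
      have hinv : ∀ x ∈ {x | Γ.face.SameCycle d x}, Γ.inv x ∈ {x | Γ.face.SameCycle d x} :=
        fun x hx => hx.trans (t3 x (hd x hx))
      have h5 := hc {x | Γ.face.SameCycle d x} ⟨d, SameCycle.refl _ _⟩ (by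
        intro x hx
        have h6 : Γ.face (Γ.inv x) = Γ.rot x := by rw [Γ.face_apply, Γ.inv_inv]
        show Γ.face.SameCycle d (Γ.rot x)
        rw [← h6]
        exact (hinv x hx).trans (sc_apply _)) hinv
      have h6 : nc Γ.face ≤ 1 := by
        refine nc_le_one d fun y => ?_
        have : y ∈ {x | Γ.face.SameCycle d x} := by
          rw [h5]
          trivial
        exact this
      omega
  have h5 : 2 * (nc Γ.rot + nc Γ.face + 2 * g) = Nat.card D + 4 := hg
  omega

/-! ### finiteness of the types -/

lemma curve_n_lt [Finite D] (c : Γ.Curve) : c.n < Nat.card D := by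
  have hinj : Function.Injective c.dart := fun i j h => c.dart_inj h
  have h1 := Nat.card_le_card_of_injective c.dart hinj
  rw [Nat.card_zmod] at h1
  omega

instance curve_finite [Finite D] : Finite Γ.Curve := by
  let f : Γ.Curve → Σ n : Fin (Nat.card D), (ZMod (n.val + 1) → D) := fun c =>
    ⟨⟨c.n, curve_n_lt c⟩, c.dart⟩
  refine Finite.of_injective f ?_
  intro c c' h
  obtain ⟨n, dart, _, _, _, _⟩ := c
  obtain ⟨n', dart', _, _, _, _⟩ := c'
  simp only [f, Sigma.mk.injEq, Fin.mk.injEq] at h
  obtain ⟨h1, h2⟩ := h
  subst h1
  have := eq_of_heq h2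
  subst this
  rfl

instance smap_finite [Finite D] : Finite (SMap D) := by
  let f : SMap D → Perm D × Perm D × D := fun Γ => (Γ.rot, Γ.inv, Γ.base)
  refine Finite.of_injective f ?_
  intro c c' h
  obtain ⟨a, b, _, _, e⟩ := c
  obtain ⟨a', b', _, _, e'⟩ := c'
  simp only [f, Prod.mk.injEq] at h
  obtain ⟨rfl, rfl, rfl⟩ := h
  rfl

end Pool.Agent.Helper23.MCG
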