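import Mathlib

/-!
# Cycles of a permutation multiplied by transpositions
-/

set_option autoImplicit false
set_option linter.unusedSectionVars false
set_option linter.style.haveILetI false

namespace Pool.Agent.Helper23.MCG

open Equiv Equiv.Perm

variable {D : Type} 

/-- number of cycles (fixed points count) -/
noncomputable def nc (f : Perm D) : ℕ := Nat.card (Quotient (SameCycle.setoid f))

lemma sc_apply {f : Perm D} (x : D) : f.SameCycle x (f x) := ⟨1, by simp⟩

lemma sc_of_rel [Finite D] {f : Perm D} {R : D → D → Prop} (hr : ∀ x, R x x)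
    (ht : ∀ x y z, R x y → R y z → R x z) (hf : ∀ x, R x (f x)) {x y : D}
    (h : f.SameCycle x y) : R x y := by
  obtain ⟨n, hn⟩ := h.exists_nat_pow_eq
  have : ∀ n : ℕ, R x ((f ^ n) x) := by
    intro n
    induction n with
    | zero => simpa using hr x
    | succ n ih =>
      rw [pow_succ', Perm.mul_apply]
      exact ht _ _ _ ih (hf _)
  rw [← hn]
  exact this n

section merge

variable [DecidableEq D] [Finite D] {f : Perm D} {a b : D}

lemma mul_swap_apply (f : Perm D) (a b x : D) :
    (f * swap a b) x = if x = a then f b else if x = b then f a else f x := by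
  rw [Perm.mul_apply]
  by_cases h1 : x = a
  · subst h1; simp
  · by_cases h2 : x = b
    · subst h2; simp [h1]
    · rw [swap_apply_of_ne_of_ne h1 h2]; simp [h1, h2]

/-- iterates of `f` from `f a` are connected to `b` -/
lemma merge_aux (h : ¬ f.SameCycle a b) {x : D} (hx : f.SameCycle a x) :
    (f * swap a b).SameCycle b x := by
  have hab : a ≠ b := fun h1 => h (h1 ▸ SameCycle.refl f a)
  have key : ∀ i : ℕ, (f * swap a b).SameCycle b ((f ^ (i + 1)) a) := by
    intro i
    induction i with
    | zero =>
      refine ⟨1, ?_⟩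
      simp
    | succ i ih =>
      rw [pow_succ', Perm.mul_apply]
      set y := (f ^ (i + 1)) a with hy
      have hya : f.SameCycle a y := ⟨((i + 1 : ℕ) : ℤ), by rw [zpow_natCast]⟩
      have hyb : y ≠ b := fun h1 => h (h1 ▸ hya)
      by_cases h2 : y = a
      · rw [h2]
        refine ⟨1, ?_⟩
        simp
      · refine ih.trans ⟨1, ?_⟩
        rw [zpow_one, mul_swap_apply, if_neg h2, if_neg hyb]
  obtain ⟨n, hn⟩ := hx.exists_nat_pow_eq
  cases n with
  | zero =>
    obtain ⟨m, hm⟩ : ∃ m : ℕ, (f ^ (m + 1)) a = a := by
      refine ⟨orderOf f - 1, ?_⟩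
      have := orderOf_pos f
      rw [Nat.sub_add_cancel this, pow_orderOf_eq_one]
      rfl
    have h3 := key m
    rw [hm] at h3
    simp only [pow_zero, Perm.coe_one, id_eq] at hn
    rwa [← hn]
  | succ n => rw [← hn]; exact key n

lemma merge_ab (h : ¬ f.SameCycle a b) : (f * swap a b).SameCycle a b :=
  (merge_aux h (SameCycle.refl f a)).symm

lemma merge_of {x y : D} (h : ¬ f.SameCycle a b) (hxy : f.SameCycle x y) :
    (f * swap a b).SameCycle x y := by
  have h' : ¬ f.SameCycle b a := fun h1 => h h1.symm
  have e : f * swap b a = f * swap a b := by rw [swap_comm]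
  by_cases h1 : f.SameCycle a x
  · exact (merge_aux h h1).symm.trans (merge_aux h (h1.trans hxy))
  · by_cases h2 : f.SameCycle b x
    · have := (merge_aux h' h2).symm.trans (merge_aux h' (h2.trans hxy))
      rwa [e] at this
    · obtain ⟨n, hn⟩ := hxy.exists_nat_pow_eq
      rw [← hn]
      clear hn
      induction n with
      | zero => simpa using SameCycle.refl _ _
      | succ n ih =>
        refine ih.trans ⟨1, ?_⟩
        have e2 : (f ^ (n + 1)) x = f ((f ^ n) x) := by rw [pow_succ' f, Perm.mul_apply]
        have hs : f.SameCycle x ((f ^ n) x) := ⟨n, by rw [zpow_natCast]⟩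
        rw [zpow_one, e2, mul_swap_apply, if_neg, if_neg]
        · intro h3
          rw [h3] at hs
          exact h2 hs.symm
        · intro h3
          rw [h3] at hs
          exact h1 hs.symm

lemma merge_iff {x y : D} (h : ¬ f.SameCycle a b) : (f * swap a b).SameCycle x y ↔
    f.SameCycle x y ∨ ((f.SameCycle a x ∨ f.SameCycle b x) ∧ (f.SameCycle a y ∨ f.SameCycle b y)) := by
  constructor
  · intro hxy
    refine sc_of_rel (f := f * swap a b) (R := fun x y => f.SameCycle x y ∨
      ((f.SameCycle a x ∨ f.SameCycle b x) ∧ (f.SameCycle a y ∨ f.SameCycle b y))) ?_ ?_ ?_ hxy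
    · intro x; exact Or.inl (SameCycle.refl _ _)
    · rintro x y z (h1 | ⟨h1, h2⟩) (h3 | ⟨h3, h4⟩)
      · exact Or.inl (h1.trans h3)
      · exact Or.inr ⟨h3.imp (·.trans h1.symm) (·.trans h1.symm), h4⟩
      · exact Or.inr ⟨h1, h2.imp (·.trans h3) (·.trans h3)⟩
      · exact Or.inr ⟨h1, h4⟩
    · intro x
      rw [mul_swap_apply]
      split_ifs with h1 h2
      · right
        rw [h1]
        exact ⟨Or.inl (SameCycle.refl _ _), Or.inr (sc_apply b)⟩
      · right
        rw [h2]
        exact ⟨Or.inr (SameCycle.refl _ _), Or.inl (sc_apply a)⟩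
      · exact Or.inl (sc_apply x)
  · rintro (h1 | ⟨h1, h2⟩)
    · exact merge_of h h1
    · have key : ∀ z, (f.SameCycle a z ∨ f.SameCycle b z) → (f * swap a b).SameCycle b z := by
        rintro z (h3 | h3)
        · exact merge_aux h h3
        · exact merge_of h h3
      exact (key x h1).symm.trans (key y h2)

/-- multiplication by a transposition of elements of different cycles -/
theorem nc_merge (h : ¬ f.SameCycle a b) : nc (f * swap a b) + 1 = nc f := by
  classical
  unfold nc
  set Q := Quotient (SameCycle.setoid f)
  set Q' := Quotient (SameCycle.setoid (f * swap a b))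
  haveI : Finite Q := Quotient.finite _
  haveI : Finite Q' := Quotient.finite _
  -- the classes other than that of `b`
  let S := {q : Q // q ≠ (Quotient.mk _ b : Q)}
  let F : S → Q' := fun q => Quotient.lift (fun x => (Quotient.mk _ x : Q'))
    (fun x y (hxy : f.SameCycle x y) => Quotient.sound (merge_of h hxy)) q.1
  have hF : Function.Bijective F := by
    constructor
    · rintro ⟨q, hq⟩ ⟨r, hr⟩ hqr
      induction q using Quotient.inductionOn with | _ x
      induction r using Quotient.inductionOn with | _ y
      have h1 : (f * swap a b).SameCycle x y := Quotient.exact hqr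
      have hbx : ¬ f.SameCycle b x := fun h2 => hq (Quotient.sound h2.symm)
      have hby : ¬ f.SameCycle b y := fun h2 => hr (Quotient.sound h2.symm)
      apply Subtype.ext
      apply Quotient.sound
      rcases (merge_iff h).1 h1 with h2 | ⟨h2, h3⟩
      · exact h2
      · exact (h2.resolve_right hbx).symm.trans (h3.resolve_right hby)
    · intro q
      induction q using Quotient.inductionOn with | _ x
      by_cases hbx : f.SameCycle b x
      · refine ⟨⟨Quotient.mk _ a, fun h1 => h (Quotient.exact h1)⟩, ?_⟩
        apply Quotient.sound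
        exact (merge_ab h).trans (merge_of h hbx)
      · refine ⟨⟨Quotient.mk _ x, fun h1 => hbx ?_⟩, rfl⟩
        exact (Quotient.exact h1 : f.SameCycle x b).symm
  have h1 : Nat.card S = Nat.card Q' := Nat.card_eq_of_bijective F hF
  haveI := Fintype.ofFinite Q
  have h2 : Nat.card S = Nat.card Q - 1 := by
    rw [Nat.card_eq_fintype_card, Nat.card_eq_fintype_card]
    exact Set.card_ne_eq _
  have h3 : 0 < Nat.card Q := by
    haveI : Nonempty Q := ⟨Quotient.mk _ a⟩
    exact Nat.card_pos
  rw [← h1, h2]
  omega

end merge

end Pool.Agent.Helper23.MCG
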