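import Pool.Agent.Helper23.MCG.Cyc

/-!
# Combinatorial maps, curves, labellings, Dehn twists
-/

set_option autoImplicit false
set_option linter.unusedSectionVars false

namespace Pool.Agent.Helper23.MCG

open Equiv Equiv.Perm

/-- A *combinatorial map*: a graph embedded in a closed oriented surface so that all complementary
regions are discs. `D` is the set of darts (edges with a direction, each starting at a vertex).
`rot d` is the next dart clockwise around the initial vertex of `d`, `inv d` is the same edge
with the opposite direction. The base vertex is the initial vertex of `base`, and the base corner is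
the corner between `rot⁻¹ base` and `base`. The surface with one boundary component is obtained by
removing a small open disc that touches the base vertex inside the base corner. -/
structure SMap (D : Type) where
  /-- rotation about the initial vertex -/
  rot : Perm D
  /-- the opposite dart -/
  inv : Perm D
  inv_inv : ∀ d, inv (inv d) = d
  inv_ne : ∀ d, inv d ≠ d
  /-- the base dart -/
  base : D

namespace SMap

variable {D : Type} (Γ : SMap D)

/-- the next dart on the boundary of the face to the left of `d` -/
def face : Perm D := Γ.rot * Γ.inv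

/-- the map is connected -/
def Connected : Prop := ∀ S : Set D, S.Nonempty → (∀ x ∈ S, Γ.rot x ∈ S) → (∀ x ∈ S, Γ.inv x ∈ S) →
  S = Set.univ

/-- `V - E + F = 2 - 2 g`, where `2 E` is the number of darts -/
def HasGenus (g : ℕ) : Prop := 2 * (nc Γ.rot + nc Γ.face + 2 * g) = Nat.card D + 4

/-- A labelling of the darts by elements of a group `H`, inverse to each other on opposite darts,
such that the labels multiply to `1` around every face that does not contain the base corner, and
to `z` around the face of the base corner, read from the base corner. (`u d` is the product of the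
labels along the face from a starting point to the initial vertex of `d`.) -/
def IsLab {H : Type} [Group H] (m : D → H) (z : H) : Prop :=
  (∀ d, m (Γ.inv d) = (m d)⁻¹) ∧ ∃ u : D → H, u Γ.base = 1 ∧
    (∀ d, Γ.face d ≠ Γ.base → u (Γ.face d) = u d * m d) ∧
    ∀ d, Γ.face d = Γ.base → u d * m d = z

/-- `m` and `m'` differ by a gauge transformation, that is, by a function `g` on the vertices which
is trivial at the base vertex: they define the same homomorphism on the classes of loops based at
the base vertex. -/
def GEq {H : Type} [Group H] (m m' : D → H) : Prop :=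
  ∃ g : D → H, (∀ d, g (Γ.rot d) = g d) ∧ g Γ.base = 1 ∧ ∀ d, m' d = g d * m d * (g (Γ.inv d))⁻¹

/-- A simple closed curve that runs along the edges of the map and does not pass through the base
vertex: a cyclic sequence of darts, each ending where the next one starts, whose initial vertices
are different, and which does not run through an edge in both directions. -/
structure Curve where
  /-- number of edges minus one -/
  n : ℕ
  /-- the darts -/
  dart : ZMod (n + 1) → D
  chain : ∀ i, Γ.rot.SameCycle (Γ.inv (dart i)) (dart (i + 1))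
  simple : ∀ i j, Γ.rot.SameCycle (dart i) (dart j) → i = j
  noback : ∀ i j, Γ.inv (dart i) ≠ dart j
  base : ∀ i, ¬ Γ.rot.SameCycle Γ.base (dart i)

end SMap

namespace SMap.Curve

variable {D : Type} {Γ : SMap D} (c : Γ.Curve)

/-- the dart `d` starts at a vertex of the curve, strictly to the left of the curve: clockwise it lies
between the edge on which the curve arrives and the edge on which it leaves -/
def Left (d : D) : Prop := ∃ (i : ZMod (c.n + 1)) (t : ℕ),
  d = (Γ.rot ^ (t + 1)) (Γ.inv (c.dart i)) ∧
    ∀ s ≤ t, (Γ.rot ^ (s + 1)) (Γ.inv (c.dart i)) ≠ c.dart (i + 1)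

/-- the edge of `d` belongs to the curve -/
def On (d : D) : Prop := ∃ i, d = c.dart i ∨ d = Γ.inv (c.dart i)

/-- the product of the labels along the curve, started at its `i`-th vertex -/
def loop {H : Type} [Group H] (m : D → H) (i : ZMod (c.n + 1)) : H :=
  ((List.range (c.n + 1)).map fun t : ℕ => m (c.dart (i + (t : ZMod (c.n + 1))))).prod

open Classical in
/-- `m'` arises from `m` by the positive (right-handed) Dehn twist about the curve `c`: a path that
leaves a vertex of the curve to the left first runs once around the curve. (`h` is any function on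
the vertices whose value at a vertex of `c` is the label of the curve started there.) -/
def Twists {H : Type} [Group H] (m m' : D → H) : Prop :=
  ∃ h : D → H, (∀ d, h (Γ.rot d) = h d) ∧ (∀ i, h (c.dart i) = c.loop m i) ∧
    ∀ d, m' d = (if c.Left d then h d else 1) * m d * (if c.Left (Γ.inv d) then h (Γ.inv d) else 1)⁻¹

/-- two curves meet in at most one vertex, and cross each other there -/
def MeetOnce (c c' : Γ.Curve) : Prop :=
  (∀ i j i' j', Γ.rot.SameCycle (c.dart i) (c'.dart j) → Γ.rot.SameCycle (c.dart i') (c'.dart j') →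
    i = i' ∧ j = j') ∧
  ∀ i j, Γ.rot.SameCycle (c.dart i) (c'.dart j) →
    ¬ c.On (c'.dart j) ∧ ¬ c.On (Γ.inv (c'.dart (j - 1))) ∧
    (c.Left (c'.dart j) ↔ ¬ c.Left (Γ.inv (c'.dart (j - 1))))

end SMap.Curve

/-! ### The side lemma -/

namespace SMap

variable {D : Type} (Γ : SMap D)

@[simp] lemma inv_inv' (d : D) : Γ.inv (Γ.inv d) = d := Γ.inv_inv d

lemma face_apply (d : D) : Γ.face d = Γ.rot (Γ.inv d) := rfl

lemma rot_sc (d : D) : Γ.rot.SameCycle d (Γ.rot d) := sc_apply d

lemma sc_pow (n : ℕ) (d : D) : Γ.rot.SameCycle d ((Γ.rot ^ n) d) := ⟨n, by rw [zpow_natCast]⟩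

end SMap

namespace SMap.Curve

variable {D : Type} {Γ : SMap D} (c : Γ.Curve)

/-- the dart leaves the curve to the left or follows the curve -/
def LO (d : D) : Prop := c.Left d ∨ d ∈ Set.range c.dart

lemma Left.at {d : D} (h : c.Left d) : ∃ i, Γ.rot.SameCycle (c.dart i) d := by
  obtain ⟨i, t, h1, h2⟩ := h
  exact ⟨i + 1, (c.chain i).symm.trans (h1 ▸ Γ.sc_pow _ _)⟩

lemma LO.at {d : D} (h : c.LO d) : ∃ i, Γ.rot.SameCycle (c.dart i) d := by
  rcases h with h | ⟨i, rfl⟩
  · exact h.at
  · exact ⟨i, SameCycle.refl _ _⟩

lemma dart_inj {i j : ZMod (c.n + 1)} (h : c.dart i = c.dart j) : i = j :=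
  c.simple i j (h ▸ SameCycle.refl _ _)

/-- a dart strictly to the left is not a dart of the curve -/
lemma Left.not_dart {d : D} (h : c.Left d) (j : ZMod (c.n + 1)) : d ≠ c.dart j := by
  obtain ⟨i, t, h1, h2⟩ := h
  intro h3
  have h4 : i + 1 = j := c.simple _ _ ((c.chain i).symm.trans (h3 ▸ h1 ▸ Γ.sc_pow _ _))
  exact h2 t le_rfl (by rw [← h1, h3, h4])

/-- ... nor an inverse dart -/
lemma Left.not_inv [Finite D] {d : D} (h : c.Left d) (j : ZMod (c.n + 1)) :
    d ≠ Γ.inv (c.dart j) := by
  obtain ⟨i, t, h1, h2⟩ := h
  intro h3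
  have h4 : i + 1 = j + 1 := c.simple _ _ ((c.chain i).symm.trans
    ((h1 ▸ Γ.sc_pow _ _ : Γ.rot.SameCycle (Γ.inv (c.dart i)) d).trans (h3 ▸ c.chain j)))
  have h5 : i = j := add_right_cancel h4
  rw [h5] at h1 h2
  -- the cycle returned without meeting the outgoing dart
  rw [h3] at h1
  obtain ⟨n, hn⟩ := (c.chain j).exists_nat_pow_eq
  -- reduce `n` modulo `t + 1`
  have h6 : ∀ k : ℕ, (Γ.rot ^ (k * (t + 1))) (Γ.inv (c.dart j)) = Γ.inv (c.dart j) := by
    intro k
    induction k with
    | zero => simp
    | succ k ih => rw [Nat.succ_mul, pow_add, Perm.mul_apply, ← h1, ih]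
  have h7 : (Γ.rot ^ (n % (t + 1))) (Γ.inv (c.dart j)) = c.dart (j + 1) := by
    rw [← hn]
    conv_rhs => rw [← Nat.mod_add_div n (t + 1), pow_add, Perm.mul_apply, mul_comm, h6]
  have h8 : n % (t + 1) < t + 1 := Nat.mod_lt _ (Nat.succ_pos _)
  rcases Nat.eq_zero_or_pos (n % (t + 1)) with h9 | h9
  · rw [h9, pow_zero] at h7
    exact c.noback j (j + 1) h7
  · refine h2 (n % (t + 1) - 1) (by omega) ?_
    rw [Nat.sub_add_cancel h9]
    exact h7

/-- **the side lemma** -/
lemma lo_rot [Finite D] (d : D) : c.LO (Γ.rot d) ↔ (c.Left d ∨ Γ.inv d ∈ Set.range c.dart) := by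
  constructor
  · rintro (⟨i, t, h1, h2⟩ | ⟨i, hi⟩)
    · cases t with
      | zero =>
        right
        rw [zero_add, pow_one] at h1
        have := Γ.rot.injective h1
        exact ⟨i, by rw [this, Γ.inv_inv]⟩
      | succ t =>
        left
        refine ⟨i, t, ?_, fun s hs => h2 s (by omega)⟩
        apply Γ.rot.injective
        rw [h1, pow_succ', Perm.mul_apply]
    · -- `rot d = dart i`; go back along the cycle to `inv (dart (i-1))`
      have h0 : Γ.rot.SameCycle (Γ.inv (c.dart (i - 1))) (c.dart i) := by
        have := c.chain (i - 1)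
        rwa [sub_add_cancel] at this
      obtain ⟨n, hn⟩ := h0.exists_nat_pow_eq
      -- smallest such `n`
      classical
      have hex : ∃ n : ℕ, (Γ.rot ^ n) (Γ.inv (c.dart (i - 1))) = c.dart i := ⟨n, hn⟩
      obtain ⟨k, hk, hmin⟩ : ∃ k : ℕ, (Γ.rot ^ k) (Γ.inv (c.dart (i - 1))) = c.dart i ∧
          ∀ l < k, (Γ.rot ^ l) (Γ.inv (c.dart (i - 1))) ≠ c.dart i :=
        ⟨Nat.find hex, Nat.find_spec hex, fun l hl => Nat.find_min hex hl⟩
      cases k with
      | zero => exact absurd hk (c.noback _ _)
      | succ k =>
        have hd : d = (Γ.rot ^ k) (Γ.inv (c.dart (i - 1))) := by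
          apply Γ.rot.injective
          rw [← Perm.mul_apply, ← pow_succ', hk]
          exact hi.symm
        cases k with
        | zero =>
          right
          rw [pow_zero] at hd
          exact ⟨i - 1, by rw [hd]; simp⟩
        | succ k =>
          left
          refine ⟨i - 1, k, hd, fun s hs => ?_⟩
          rw [sub_add_cancel]
          exact hmin (s + 1) (by omega)
  · rintro (⟨i, t, h1, h2⟩ | ⟨i, hi⟩)
    · by_cases h3 : Γ.rot d = c.dart (i + 1)
      · exact Or.inr ⟨_, h3.symm⟩
      · left
        refine ⟨i, t + 1, by rw [pow_succ', Perm.mul_apply, ← h1], fun s hs => ?_⟩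
        rcases Nat.lt_or_ge s (t + 1) with h4 | h4
        · exact h2 s (by omega)
        · have : s = t + 1 := by omega
          rw [this, pow_succ', Perm.mul_apply, ← h1]
          exact h3
    · have h4 : d = Γ.inv (c.dart i) := by rw [hi, Γ.inv_inv]
      by_cases h3 : Γ.rot d = c.dart (i + 1)
      · exact Or.inr ⟨_, h3.symm⟩
      · left
        refine ⟨i, 0, by rw [zero_add, pow_one, h4], fun s hs => ?_⟩
        have : s = 0 := by omega
        rw [this, zero_add, pow_one, ← h4]
        exact h3

end SMap.Curve

end Pool.Agent.Helper23.MCG
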