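import Pool.Agent.Helper23.MCG.Kap

/-!
# Disjoint, pairwise non-homotopic curves: there are at most `4 g`
-/

set_option autoImplicit false
set_option linter.unusedSectionVars false
set_option linter.style.haveILetI false

namespace Pool.Agent.Helper23.MCG

open Equiv Equiv.Perm

variable {D : Type} [Finite D] {Γ : SMap D} {k : ℕ} {c : Fin k → Γ.Curve} {H : Type} [Group H]

/-- the product of the labels from the 0-th to the `i`-th vertex -/
def part (c : Γ.Curve) (m : D → H) (i : ZMod (c.n + 1)) : H :=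
  ((List.range i.val).map fun t : ℕ => m (c.dart (t : ZMod (c.n + 1)))).prod

lemma part_zero (c : Γ.Curve) (m : D → H) : part c m 0 = 1 := by
  unfold part
  rw [ZMod.val_zero]
  rfl

lemma part_succ (c : Γ.Curve) (m : D → H) (i : ZMod (c.n + 1)) (hi : i ≠ -1) :
    part c m (i + 1) = part c m i * m (c.dart i) := by
  unfold part
  have h1 : (i + 1).val = i.val + 1 := by
    have h2 : i.val < c.n + 1 := ZMod.val_lt i
    have h3 : i.val ≠ c.n := by
      intro h4
      apply hi
      have h5 : ((i.val : ℕ) : ZMod (c.n + 1)) = i := ZMod.natCast_zmod_val i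
      rw [← h5, h4, eq_neg_iff_add_eq_zero]
      have := ZMod.natCast_self (c.n + 1)
      push_cast at this
      exact this
    have h5 : i.val + 1 < c.n + 1 := by omega
    have h6 : i + 1 = ((i.val + 1 : ℕ) : ZMod (c.n + 1)) := by
      push_cast
      rw [ZMod.natCast_zmod_val]
    rw [h6, ZMod.val_natCast_of_lt h5]
  rw [h1, List.range_succ, List.map_append, List.prod_append]
  simp

lemma neg_one_val (n : ℕ) : (-1 : ZMod (n + 1)).val = n := by
  have h6 : (-1 : ZMod (n + 1)) = ((n : ℕ) : ZMod (n + 1)) := by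
    rw [eq_comm, eq_neg_iff_add_eq_zero]
    have := ZMod.natCast_self (n + 1)
    push_cast at this
    exact this
  rw [h6, ZMod.val_natCast_of_lt (Nat.lt_succ_self n)]

lemma part_last (c : Γ.Curve) (m : D → H) :
    part c m (-1) * m (c.dart (-1)) = c.loop m 0 := by
  unfold part SMap.Curve.loop
  have h6 : (-1 : ZMod (c.n + 1)) = ((c.n : ℕ) : ZMod (c.n + 1)) := by
    rw [eq_comm, eq_neg_iff_add_eq_zero]
    have := ZMod.natCast_self (c.n + 1)
    push_cast at this
    exact this
  rw [neg_one_val, List.range_succ, List.map_append, List.prod_append]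
  simp only [zero_add, List.map_cons, List.map_nil, List.prod_cons, List.prod_nil, mul_one]
  rw [← h6]

/-- the darts `dart (i)`, at different vertices -/
lemma DisjFam.inj (h : DisjFam c) (a b : Σ j, ZMod ((c j).n + 1))
    (hs : Γ.rot.SameCycle ((c a.1).dart a.2) ((c b.1).dart b.2)) : a = b := by
  obtain ⟨j, i⟩ := a
  obtain ⟨j', i'⟩ := b
  have : j = j' := by
    by_contra hne
    exact h _ _ hne i i' hs
  subst this
  exact congrArg _ ((c j).simple _ _ hs)

/-- the weights of the sides -/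
lemma exists_v0 (h : DisjFam c) (m : D → H) (hm : ∀ d, m (Γ.inv d) = (m d)⁻¹) :
    ∃ v p : D → H, (∀ d, d ∈ CS c → v d * m d = p d * v (k0 c d)) ∧
      (∀ d, d ∉ CS c → v d = v (k0 c d)) ∧ (∀ d, d ∉ SP c → p d = 1) ∧
      (∀ j, p ((c j).dart (-1)) = (c j).loop m 0) ∧
      ∀ j, p (Γ.inv ((c j).dart (-1))) = ((c j).loop m 0)⁻¹ := by
  classical
  obtain ⟨v, hv1, hv2, -⟩ := exists_vfun (H := H) Γ.rot
    (fun a : Σ j, ZMod ((c j).n + 1) => (c a.1).dart a.2) (h.inj) (fun a => part (c a.1) m a.2)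
  have hd : ∀ j i, v ((c j).dart i) = part (c j) m i := fun j i => hv2 ⟨j, i⟩
  have hi : ∀ j i, v (Γ.inv ((c j).dart i)) = part (c j) m (i + 1) := fun j i => by
    rw [hv1 _ _ ((c j).chain i), hd]
  have hk : ∀ j i, v (k0 c ((c j).dart i)) = part (c j) m (i + 1) := fun j i => by
    rw [k0_on (CS_dart j i), ← hv1 _ _ (sc_apply _), hi]
  have hk' : ∀ j i, v (k0 c (Γ.inv ((c j).dart i))) = part (c j) m i := fun j i => by
    rw [k0_on (CS_inv_dart j i), Γ.inv_inv, ← hv1 _ _ (sc_apply _), hd]
  have hl : ∀ j, part (c j) m (-1) * m ((c j).dart (-1)) = (c j).loop m 0 := fun j => part_last _ _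
  have h0 : ∀ j : Fin k, part (c j) m (-1 + 1) = 1 := fun j => by
    rw [neg_add_cancel, part_zero]
  refine ⟨v, fun d => if d ∈ CS c then v d * m d * (v (k0 c d))⁻¹ else 1, ?_, ?_, ?_, ?_, ?_⟩
  · intro d h1
    simp only [if_pos h1]
    group
  · intro d h1
    rw [k0_off h1]
    exact hv1 _ _ (sc_apply _)
  · intro d h1
    by_cases h2 : d ∈ CS c
    · simp only [if_pos h2]
      obtain ⟨j, i, rfl | rfl⟩ := h2
      · have h3 : i ≠ -1 := by
          rintro rfl
          exact h1 ⟨j, Or.inl rfl⟩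
        rw [hk, hd, part_succ _ _ _ h3, mul_inv_cancel]
      · have h3 : i ≠ -1 := by
          rintro rfl
          exact h1 ⟨j, Or.inr rfl⟩
        rw [hk', hi, part_succ _ _ _ h3, hm]
        group
    · simp only [if_neg h2]
  · intro j
    simp only [if_pos (CS_dart j (-1))]
    rw [hk, hd, hl, h0, inv_one, mul_one]
  · intro j
    simp only [if_pos (CS_inv_dart j (-1))]
    rw [hk', hi, h0, hm, one_mul, ← mul_inv_rev, hl]

/-- **first forest**: joining the sides of the curves inside the complementary regions -/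
lemma forest1 (h : DisjFam c) (m : D → H) (hm : ∀ d, m (Γ.inv d) = (m d)⁻¹) :
    ∃ (Y : Set D) (f : Perm D) (v p : D → H), Y ⊆ (CS c)ᶜ ∧ (∀ x ∈ Y, Γ.inv x ∈ Y) ∧
      (∀ x, f x = k0 c (sw Γ.inv Y x)) ∧ 2 * nc f + Y.ncard = 2 * nc (k0 c) ∧
      (∀ x y, SameCycle (k0 c) x y → SameCycle f x y) ∧
      (∀ x, x ∉ CS c → SameCycle f x (Γ.inv x)) ∧
      (∀ d, d ∈ CS c ∪ Y → v d * m d = p d * v (f d)) ∧
      (∀ d, d ∉ CS c ∪ Y → v d = v (f d)) ∧
      (∀ d, d ∉ SP c → p d = 1) ∧ (∀ j, IsConj ((c j).loop m 0) (p ((c j).dart (-1)))) ∧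
      ∀ j, IsConj ((c j).loop m 0)⁻¹ (p (Γ.inv ((c j).dart (-1)))) := by
  classical
  obtain ⟨v0, p0, g1, g2, g3, g4, g5⟩ := exists_v0 h m hm
  have F := forest Γ.inv Γ.inv_inv Γ.inv_ne
    (k0 c) (CS c)ᶜ (fun d hd hd' => hd (CS_inv_iff.1 hd'))
    (fun f' Y => ∃ v p : D → H, (∀ d, d ∈ CS c ∪ Y → v d * m d = p d * v (f' d)) ∧
      (∀ d, d ∉ CS c ∪ Y → v d = p d * v (f' d)) ∧ ∀ d, IsConj (p0 d) (p d))
    ⟨v0, p0, by simpa using g1, fun d hd => by
      have hd' : d ∉ CS c := fun h4 => hd (Or.inl h4)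
      rw [g3 d (fun h4 => hd' (SP_sub h4)), one_mul]
      exact g2 d hd', fun d => IsConj.refl _⟩ ?_
  · obtain ⟨Y, f, ⟨v, p, h1, h2, h3⟩, hY, hYi, hf, hnc, hsc, hall⟩ := F
    refine ⟨Y, f, v, p, hY, hYi, hf, hnc, hsc, hall, h1, ?_, ?_, ?_, ?_⟩
    · intro d hd
      have h4 := h2 d hd
      have h5 : p0 d = 1 := g3 d (fun h6 => hd (Or.inl (SP_sub h6)))
      have h6 := h3 d
      rw [h5, isConj_one_right] at h6
      rw [h4, h6, one_mul]
    · intro d hd
      have h6 := h3 d
      rwa [g3 d hd, isConj_one_right] at h6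
    · intro j
      have h6 := h3 ((c j).dart (-1))
      rwa [g4] at h6
    · intro j
      have h6 := h3 (Γ.inv ((c j).dart (-1)))
      rwa [g5] at h6
  · rintro f' Y d ⟨v, p, h1, h2, h3⟩ hY hYi hsc hd hdY hidY hf hndc f'' e1 e2 e3 e4 e5
    have hdC : d ∉ CS c := hd
    have hidC : Γ.inv d ∉ CS c := fun h4 => hdC (CS_inv_iff.1 h4)
    have hu1 : d ∉ CS c ∪ Y := fun h4 => h4.elim hdC hdY
    have hu2 : Γ.inv d ∉ CS c ∪ Y := fun h4 => h4.elim hidC hidY
    have hp : ∀ x, x ∉ SP c → p x = 1 := fun x hx => by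
      have h6 := h3 x
      rwa [g3 x hx, isConj_one_right] at h6
    have hp1 : p d = 1 := hp _ (fun h4 => hdC (SP_sub h4))
    have hp2 : p (Γ.inv d) = 1 := hp _ (fun h4 => hidC (SP_sub h4))
    have hv1 : v (f' d) = v d := by rw [h2 d hu1, hp1, one_mul]
    have hv2 : v (f' (Γ.inv d)) = v (Γ.inv d) := by rw [h2 _ hu2, hp2, one_mul]
    set γ : H := v d * m d * (v (Γ.inv d))⁻¹ with hγ
    have hb : ¬ SameCycle f' (Γ.inv d) d := fun h4 => hndc h4.symm
    have hba : ¬ SameCycle f' (Γ.inv d) (f' d) := fun h4 => hb (h4.trans (sc_apply _).symm)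
    refine ⟨fun x => if SameCycle f' (Γ.inv d) x then γ * v x else v x,
      fun x => if SameCycle f' (Γ.inv d) x then γ * p x * γ⁻¹ else p x, ?_, ?_, ?_⟩
    · rintro x hx
      by_cases hxd : x = d
      · subst hxd
        simp only [e1, if_neg hb, if_pos (sc_apply (f := f') (Γ.inv x)), hp1, hv2, one_mul, hγ]
        group
      · by_cases hxi : x = Γ.inv d
        · subst hxi
          simp only [e2, if_neg hba, if_pos (SameCycle.refl f' (Γ.inv d)), hp2, hv1, hm, hγ]
          group
        · have hx' : x ∈ CS c ∪ Y := by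
            rcases hx with hx | hx | hx | hx
            · exact Or.inl hx
            · exact Or.inr hx
            · exact absurd hx hxd
            · exact absurd hx hxi
          rw [e3 x hxd hxi]
          by_cases hxb : SameCycle f' (Γ.inv d) x
          · simp only [if_pos hxb, if_pos (hxb.trans (sc_apply x))]
            rw [mul_assoc, h1 x hx']
            group
          · have hxb' : ¬ SameCycle f' (Γ.inv d) (f' x) := fun h4 => hxb (h4.trans (sc_apply x).symm)
            simp only [if_neg hxb, if_neg hxb']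
            exact h1 x hx'
    · intro x hx
      have hxd : x ≠ d := fun h4 => hx (Or.inr (Or.inr (Or.inl h4)))
      have hxi : x ≠ Γ.inv d := fun h4 => hx (Or.inr (Or.inr (Or.inr h4)))
      have hx' : x ∉ CS c ∪ Y := by
        rintro (h4 | h4)
        · exact hx (Or.inl h4)
        · exact hx (Or.inr (Or.inl h4))
      rw [e3 x hxd hxi]
      by_cases hxb : SameCycle f' (Γ.inv d) x
      · simp only [if_pos hxb, if_pos (hxb.trans (sc_apply x))]
        rw [h2 x hx']
        group
      · have hxb' : ¬ SameCycle f' (Γ.inv d) (f' x) := fun h4 => hxb (h4.trans (sc_apply x).symm)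
        simp only [if_neg hxb, if_neg hxb']
        exact h2 x hx'
    · intro x
      by_cases hxb : SameCycle f' (Γ.inv d) x
      · simp only [if_pos hxb]
        refine (h3 x).trans ?_
        rw [isConj_iff]
        exact ⟨γ, rfl⟩
      · simp only [if_neg hxb]
        exact h3 x

/-- **second forest**: joining the faces inside the complementary regions -/
lemma forest2 {m : D → H} {z : H} (hm : Γ.IsLab m z) (N : Set D) (hN : ∀ d ∈ N, Γ.inv d ∈ N) :
    ∃ (T : Set D) (f : Perm D) (u : D → H), T ⊆ N ∧ (∀ x ∈ T, Γ.inv x ∈ T) ∧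
      (∀ x, f x = Γ.face (sw Γ.inv T x)) ∧ 2 * nc f + T.ncard = 2 * nc Γ.face ∧
      (∀ x ∈ N, SameCycle f x (Γ.inv x)) ∧
      (∀ d, ¬ SameCycle f Γ.base d → d ∈ T → u (f d) = u d) ∧
      (∀ d, ¬ SameCycle f Γ.base d → d ∉ T → u (f d) = u d * m d) := by
  classical
  obtain ⟨hmi, u0, -, hu0, -⟩ := hm
  have F := forest Γ.inv Γ.inv_inv Γ.inv_ne Γ.face N hN
    (fun f' T => ∃ u : D → H, (∀ d, ¬ SameCycle f' Γ.base d → d ∈ T → u (f' d) = u d) ∧
      (∀ d, ¬ SameCycle f' Γ.base d → d ∉ T → u (f' d) = u d * m d))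
    ⟨u0, fun d _ hd => absurd hd (by simp), fun d hd _ => hu0 d (fun h1 => hd (h1 ▸ (sc_apply d).symm))⟩
    ?_
  · obtain ⟨T, f, ⟨u, h1, h2⟩, hT, hTi, hf, hnc, -, hall⟩ := F
    exact ⟨T, f, u, hT, hTi, hf, hnc, hall, h1, h2⟩
  · rintro f' T d ⟨u, h1, h2⟩ hT hTi hsc hd hdT hidT hf hndc f'' e1 e2 e3 e4 e5
    have hb : ¬ SameCycle f' (Γ.inv d) d := fun h4 => hndc h4.symm
    have hba : ¬ SameCycle f' (Γ.inv d) (f' d) := fun h4 => hb (h4.trans (sc_apply _).symm)
    set γ : H := u d * m d * (u (Γ.inv d))⁻¹ with hγ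
    have hnb : ∀ x, ¬ SameCycle f'' Γ.base x → ¬ SameCycle f' Γ.base x := fun x hx hx' => hx (e4 _ _ hx')
    refine ⟨fun x => if SameCycle f' (Γ.inv d) x then γ * u x else u x, ?_, ?_⟩
    · intro x hx hxT
      by_cases hxd : x = d
      · subst hxd
        have hx' : ¬ SameCycle f'' Γ.base (Γ.inv x) := fun h4 => hx (h4.trans e5.symm)
        have h5 := h2 _ (hnb _ hx') hidT
        simp only [e1, if_neg hb, if_pos (sc_apply (f := f') (Γ.inv x)), h5, hmi, hγ]
        group
      · by_cases hxi : x = Γ.inv d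
        · subst hxi
          have hx' : ¬ SameCycle f'' Γ.base d := fun h4 => hx (h4.trans e5)
          have h5 := h2 _ (hnb _ hx') hdT
          simp only [e2, if_neg hba, if_pos (SameCycle.refl f' (Γ.inv d)), h5, hγ]
          group
        · have hx' : x ∈ T := by
            rcases hxT with hx | hx | hx
            · exact hx
            · exact absurd hx hxd
            · exact absurd hx hxi
          rw [e3 x hxd hxi]
          by_cases hxb : SameCycle f' (Γ.inv d) x
          · simp only [if_pos hxb, if_pos (hxb.trans (sc_apply x))]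
            rw [h1 x (hnb x hx) hx']
          · have hxb' : ¬ SameCycle f' (Γ.inv d) (f' x) := fun h4 => hxb (h4.trans (sc_apply x).symm)
            simp only [if_neg hxb, if_neg hxb']
            exact h1 x (hnb x hx) hx'
    · intro x hx hxT
      have hxd : x ≠ d := fun h4 => hxT (Or.inr (Or.inl h4))
      have hxi : x ≠ Γ.inv d := fun h4 => hxT (Or.inr (Or.inr h4))
      have hx' : x ∉ T := fun h4 => hxT (Or.inl h4)
      rw [e3 x hxd hxi]
      by_cases hxb : SameCycle f' (Γ.inv d) x
      · simp only [if_pos hxb, if_pos (hxb.trans (sc_apply x))]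
        rw [h2 x (hnb x hx) hx', ← mul_assoc]
      · have hxb' : ¬ SameCycle f' (Γ.inv d) (f' x) := fun h4 => hxb (h4.trans (sc_apply x).symm)
        simp only [if_neg hxb, if_neg hxb']
        exact h2 x (hnb x hx) hx'

/-- connectedness -/
lemma full (hc : Γ.Connected) (h : DisjFam c) {f f' : Perm D} {Y : Set D}
    (hf : ∀ x, f x = k0 c (sw Γ.inv Y x)) (hY : Y ⊆ (CS c)ᶜ) (hYi : ∀ x ∈ Y, Γ.inv x ∈ Y)
    (hsc : ∀ x y, SameCycle (k0 c) x y → SameCycle f x y)
    (hall : ∀ x, x ∉ CS c → SameCycle f x (Γ.inv x))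
    (hff : ∀ x y, SameCycle f x y → SameCycle f' x y) (x : D)
    (hj : ∀ j, SameCycle f' x ((c j).dart (-1)) ↔ SameCycle f' x (Γ.inv ((c j).dart (-1)))) :
    ∀ y, SameCycle f' x y := by
  have hinv : ∀ y, SameCycle f' x y → SameCycle f' x (Γ.inv y) := by
    intro y hy
    by_cases hyC : y ∈ CS c
    · obtain ⟨j, i, rfl | rfl⟩ := hyC
      · have h1 := k0_all h j i (-1)
        exact ((hj j).1 (hy.trans (hff _ _ (hsc _ _ h1.1)))).trans (hff _ _ (hsc _ _ h1.2)).symm
      · rw [Γ.inv_inv]
        have h1 := k0_all h j i (-1)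
        exact ((hj j).2 (hy.trans (hff _ _ (hsc _ _ h1.2)))).trans (hff _ _ (hsc _ _ h1.1)).symm
    · exact hy.trans (hff _ _ (hall y hyC))
  have hrot : ∀ y, SameCycle f' x y → SameCycle f' x (Γ.rot y) := by
    intro y hy
    by_cases hyC : y ∈ CS c
    · have h1 : f (Γ.inv y) = Γ.rot y := by
        rw [hf, sw_not (fun h2 => hY h2 (CS_inv y hyC)), k0_on (CS_inv y hyC), Γ.inv_inv]
      rw [← h1]
      exact (hinv y hy).trans (hff _ _ (sc_apply _))
    · by_cases hyY : y ∈ Y
      · have h1 : f (Γ.inv y) = Γ.rot y := by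
          rw [hf, sw_mem (hYi y hyY), Γ.inv_inv, k0_off hyC]
        rw [← h1]
        exact (hinv y hy).trans (hff _ _ (sc_apply _))
      · have h1 : f y = Γ.rot y := by
          rw [hf, sw_not hyY, k0_off hyC]
        rw [← h1]
        exact hy.trans (hff _ _ (sc_apply _))
  have := hc {y | SameCycle f' x y} ⟨x, SameCycle.refl _ _⟩ hrot hinv
  intro y
  have hy : y ∈ (Set.univ : Set D) := trivial
  rw [← this] at hy
  exact hy

/-- counting elements of sets along the cycles -/
lemma sum_classes (f : Perm D) (S1 S2 S3 : Set D)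
    (h : ∀ x, 3 ≤ {d | d ∈ S1 ∧ SameCycle f x d}.ncard + {d | d ∈ S2 ∧ SameCycle f x d}.ncard +
      2 * {d | d ∈ S3 ∧ SameCycle f x d}.ncard) :
    3 * nc f ≤ S1.ncard + S2.ncard + 2 * S3.ncard := by
  classical
  haveI := Fintype.ofFinite D
  haveI : Finite (Quotient (SameCycle.setoid f)) := Quotient.finite _
  haveI := Fintype.ofFinite (Quotient (SameCycle.setoid f))
  have key : ∀ S : Set D, S.ncard = ∑ q : Quotient (SameCycle.setoid f),
      (S.toFinset.filter fun d => (Quotient.mk (SameCycle.setoid f) d) = q).card := by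
    intro S
    rw [Set.ncard_eq_toFinset_card']
    exact Finset.card_eq_sum_card_fiberwise (fun _ _ => Finset.mem_univ _)
  have key2 : ∀ (S : Set D) (x : D), (S.toFinset.filter fun d =>
      (Quotient.mk (SameCycle.setoid f) d) = Quotient.mk _ x).card =
      {d | d ∈ S ∧ SameCycle f x d}.ncard := by
    intro S x
    rw [Set.ncard_eq_toFinset_card']
    congr 1
    ext d
    simp only [Finset.mem_filter, Set.mem_toFinset, Set.mem_ofPred_eq]
    refine and_congr_right fun _ => ?_
    exact ⟨fun h1 => (Quotient.exact h1 : SameCycle f d x).symm, fun h1 => Quotient.sound h1.symm⟩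
  rw [key S1, key S2, key S3, Finset.mul_sum, ← Finset.sum_add_distrib, ← Finset.sum_add_distrib]
  have h2 : nc f = Fintype.card (Quotient (SameCycle.setoid f)) := by
    unfold nc
    rw [Nat.card_eq_fintype_card]
  rw [h2, mul_comm, ← smul_eq_mul, ← Finset.card_univ, ← Finset.sum_const]
  refine Finset.sum_le_sum fun q _ => ?_
  induction q using Quotient.inductionOn with | _ x
  rw [key2, key2, key2]
  exact h x

lemma nc_le_one {f : Perm D} (x : D) (h : ∀ y, SameCycle f x y) : nc f ≤ 1 := by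
  unfold nc
  haveI : Subsingleton (Quotient (SameCycle.setoid f)) := by
    constructor
    intro a b
    induction a using Quotient.inductionOn with | _ a
    induction b using Quotient.inductionOn with | _ b
    exact Quotient.sound ((h a).symm.trans (h b))
  exact Finite.card_le_one_iff_subsingleton.2 inferInstance

lemma isConj_inv' {a b : H} (h : IsConj a b) : IsConj a⁻¹ b⁻¹ := by
  obtain ⟨x, hx⟩ := isConj_iff.1 h
  exact isConj_iff.2 ⟨x, by rw [← hx]; group⟩

/-- **there are at most `4 g` disjoint, essential, pairwise non-homotopic curves** -/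
theorem disj_bound (hc : Γ.Connected) {g : ℕ} (hg : Γ.HasGenus g) (h : DisjFam c) {m : D → H} {z : H}
    (hm : Γ.IsLab m z) (hne : ∀ j, (c j).loop m 0 ≠ 1)
    (hnc : ∀ i j, i ≠ j → ¬ IsConj ((c i).loop m 0) ((c j).loop m 0) ∧
      ¬ IsConj ((c i).loop m 0) ((c j).loop m 0)⁻¹) : k ≤ 4 * g := by
  classical
  rcases Nat.eq_zero_or_pos k with rfl | hk
  · exact Nat.zero_le _
  obtain ⟨Y, f, v, p, hY, hYi, hf, hncf, hsc, hall, hv1, hv2, hp1, hp2, hp3⟩ := forest1 h m hm.1
  obtain ⟨T, ψ, u, hT, hTi, hψ, hncψ, hallψ, hu1, hu2⟩ := forest2 hm (CS c ∪ Y)ᶜ (fun d hd hd' => hd (by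
    rcases hd' with h1 | h1
    · exact Or.inl (CS_inv_iff.1 h1)
    · exact Or.inr (by simpa using hYi _ h1)))
  -- the remaining edges
  set A : Set D := (CS c ∪ Y ∪ T)ᶜ with hA
  have hUi : ∀ d, Γ.inv d ∈ CS c ∪ Y ∪ T → d ∈ CS c ∪ Y ∪ T := by
    rintro d ((h1 | h1) | h1)
    · exact Or.inl (Or.inl (CS_inv_iff.1 h1))
    · exact Or.inl (Or.inr (by simpa using hYi _ h1))
    · exact Or.inr (by simpa using hTi _ h1)
  have hAi : ∀ d ∈ A, Γ.inv d ∈ A := fun d hd hd' => hd (hUi d hd')
  -- `f` and `ψ` on the different kinds of darts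
  have ff1 : ∀ d, d ∈ CS c → f d = Γ.rot (Γ.inv d) := fun d hd => by
    rw [hf, sw_not (fun h1 => hY h1 hd), k0_on hd]
  have ff2 : ∀ d, d ∈ Y → f d = Γ.rot (Γ.inv d) := fun d hd => by
    rw [hf, sw_mem hd, k0_off (hY (hYi d hd))]
  have ff3 : ∀ d, d ∉ CS c ∪ Y → f d = Γ.rot d := fun d hd => by
    rw [hf, sw_not (fun h1 => hd (Or.inr h1)), k0_off (fun h1 => hd (Or.inl h1))]
  have ψ1 : ∀ d, d ∉ T → ψ d = Γ.rot (Γ.inv d) := fun d hd => by
    rw [hψ, sw_not hd]
    rfl
  have ψ2 : ∀ d, d ∈ T → ψ d = Γ.rot d := fun d hd => by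
    rw [hψ, sw_mem hd, Γ.face_apply, Γ.inv_inv]
  have e1 : ∀ d, d ∉ A → ψ d = f d := by
    intro d hd
    have hd' : d ∈ CS c ∪ Y ∪ T := by
      by_contra h1
      exact hd h1
    rcases hd' with (h1 | h1) | h1
    · rw [ff1 d h1, ψ1 d (fun h2 => hT h2 (Or.inl h1))]
    · rw [ff2 d h1, ψ1 d (fun h2 => hT h2 (Or.inr h1))]
    · rw [ff3 d (fun h2 => hT h1 h2), ψ2 d h1]
  have e2 : ∀ d, d ∈ A → ψ d = f (Γ.inv d) := by
    intro d hd
    rw [ψ1 d (fun h1 => hd (Or.inr h1)), ff3 _ (fun h1 => hAi d hd (Or.inl h1))]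
  have hA1 : ∀ d, d ∈ A → SameCycle f d (Γ.inv d) := fun d hd => hall d (fun h1 => hd (Or.inl (Or.inl h1)))
  have hA2 : ∀ d, d ∈ A → SameCycle ψ d (Γ.inv d) := fun d hd => hallψ d (fun h1 => hd (Or.inl h1))
  have s1 : ∀ x y, SameCycle f x y → SameCycle ψ x y := by
    intro x y hxy
    refine sc_of_rel (f := f) (fun _ => SameCycle.refl _ _) (fun _ _ _ h1 h2 => h1.trans h2)
      (fun x => ?_) hxy
    by_cases hx : x ∈ A
    · have h1 := e2 _ (hAi x hx)
      rw [Γ.inv_inv] at h1
      rw [← h1]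
      exact (hA2 x hx).trans (sc_apply _)
    · rw [← e1 x hx]
      exact sc_apply _
  have s2 : ∀ x y, SameCycle ψ x y → SameCycle f x y := by
    intro x y hxy
    refine sc_of_rel (f := ψ) (fun _ => SameCycle.refl _ _) (fun _ _ _ h1 h2 => h1.trans h2)
      (fun x => ?_) hxy
    by_cases hx : x ∈ A
    · rw [e2 x hx]
      exact (hA1 x hx).trans (sc_apply _)
    · rw [e1 x hx]
      exact sc_apply _
  have e3 : nc ψ = nc f := by
    unfold nc
    have : SameCycle.setoid ψ = SameCycle.setoid f := by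
      ext x y
      exact ⟨s2 x y, s1 x y⟩
    rw [this]
  -- cardinalities
  have c1 : (CS c).ncard + Y.ncard + T.ncard + A.ncard = Nat.card D := by
    have h1 : (CS c ∪ Y ∪ T).ncard + A.ncard = Nat.card D := Set.ncard_add_ncard_compl _
    have h2 : (CS c ∪ Y ∪ T).ncard = (CS c ∪ Y).ncard + T.ncard := by
      refine Set.ncard_union_eq ?_ (Set.toFinite _) (Set.toFinite _)
      rw [Set.disjoint_left]
      intro x hx hx'
      exact hT hx' hx
    have h3 : (CS c ∪ Y).ncard = (CS c).ncard + Y.ncard := by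
      refine Set.ncard_union_eq ?_ (Set.toFinite _) (Set.toFinite _)
      rw [Set.disjoint_left]
      intro x hx hx'
      exact hY hx' hx
    omega
  have c2 := card_CS h
  have c3 := count_k0 h
  have c4 : 2 * (nc Γ.rot + nc Γ.face + 2 * g) = Nat.card D + 4 := hg
  have hcA : A.ncard + 4 + 4 * k ≤ 4 * g + 4 * nc f := by omega
  -- claim A
  have clA : ∀ x, ∃ d ∈ SP c, SameCycle f x d := by
    intro x
    by_contra hno
    push Not at hno
    have h1 := full hc h hf hY hYi hsc hall (fun _ _ h1 => h1) x (fun j =>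
      ⟨fun h2 => absurd h2 (hno _ ⟨j, Or.inl rfl⟩), fun h2 => absurd h2 (hno _ ⟨j, Or.inr rfl⟩)⟩)
    exact hno _ ⟨⟨0, hk⟩, Or.inl rfl⟩ (h1 _)
  -- `r ≤ k + 1`
  have c5 : nc f ≤ k + 1 := by
    have F := forest Γ.inv Γ.inv_inv Γ.inv_ne f (SP c) SP_inv (fun _ _ => True) trivial
      (fun _ _ _ _ _ _ _ _ _ _ _ _ _ _ _ _ _ _ => trivial)
    obtain ⟨Y', f', -, hY', -, -, hnc', hsc', hall'⟩ := F
    have h1 : nc f' ≤ 1 := by
      refine nc_le_one Γ.base (full hc h hf hY hYi hsc hall hsc' Γ.base (fun j => ?_))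
      have h2 := hall' _ (⟨j, Or.inl rfl⟩ : (c j).dart (-1) ∈ SP c)
      exact ⟨fun h3 => h3.trans h2, fun h3 => h3.trans h2.symm⟩
    have h2 : Y'.ncard ≤ 2 * k := (Set.ncard_le_ncard hY' (Set.toFinite _)).trans card_SP
    omega
  -- claim B
  have clB : ∀ x, ¬ SameCycle f x Γ.base → (∀ d, SameCycle f x d → d ∉ A) → ∀ s1 s2,
      ∃ d ∈ SP c, SameCycle f x d ∧ d ≠ s1 ∧ d ≠ s2 := by
    intro x hxb hxA t1 t2
    by_contra hno
    push Not at hno
    -- the potential
    have hw : ∀ d, SameCycle f x d → v d * (u d)⁻¹ = p d * (v (f d) * (u (f d))⁻¹) := by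
      intro d hd
      have hdA := hxA d hd
      have hdb : ¬ SameCycle ψ Γ.base d := fun h1 => hxb (hd.trans (s2 _ _ h1).symm)
      rw [← e1 d hdA]
      by_cases hdT : d ∈ T
      · have h1 : d ∉ CS c ∪ Y := hT hdT
        rw [hu1 d hdb hdT, e1 d hdA, ← hv2 d h1, hp1 d (fun h2 => h1 (Or.inl (SP_sub h2))), one_mul]
      · have h1 : d ∈ CS c ∪ Y := by
          by_contra h2
          exact hdA (fun h3 => h3.elim h2 hdT)
        rw [hu2 d hdb hdT, e1 d hdA]
        have h2 := hv1 d h1
        have h3 : v d = p d * v (f d) * (m d)⁻¹ := by rw [← h2]; group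
        rw [h3]
        group
    have hw' : ∀ d, SameCycle f x d → d ∉ SP c → v (f d) * (u (f d))⁻¹ = v d * (u d)⁻¹ := by
      intro d hd hd'
      rw [hw d hd, hp1 d hd', one_mul]
    obtain ⟨a, ha, hxa⟩ := clA x
    -- the values of `p`
    have hpv : ∀ s ∈ SP c, ∃ j, (s = (c j).dart (-1) ∨ s = Γ.inv ((c j).dart (-1))) ∧
        (IsConj ((c j).loop m 0) (p s) ∨ IsConj ((c j).loop m 0)⁻¹ (p s)) := by
      rintro s ⟨j, rfl | rfl⟩
      · exact ⟨j, Or.inl rfl, Or.inl (hp2 j)⟩
      · exact ⟨j, Or.inr rfl, Or.inr (hp3 j)⟩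
    by_cases hb : ∃ b ∈ SP c, SameCycle f x b ∧ b ≠ a
    · obtain ⟨b, hb, hxb', hba⟩ := hb
      have honly : ∀ d, SameCycle f x d → d ≠ a → d ≠ b → d ∉ SP c := by
        intro d hd hda hdb hdS
        have h1 := hno d hdS hd
        have h2 := hno a ha hxa
        have h3 := hno b hb hxb'
        by_cases q1 : d = t1
        · have q2 : a = t2 := h2 (fun h4 => hda (q1.trans h4.symm))
          have q3 : b = t2 := h3 (fun h4 => hdb (q1.trans h4.symm))
          exact hba (q3.trans q2.symm)
        · have q2 := h1 q1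
          have q3 : a = t1 := by
            by_contra h4
            exact hda (q2.trans (h2 h4).symm)
          have q4 : b = t1 := by
            by_contra h4
            exact hdb (q2.trans (h3 h4).symm)
          exact hba (q4.trans q3.symm)
      have k1 := cyc_two (f := f) (x := a) (y := b) (w := fun d => v d * (u d)⁻¹)
        (hxa.symm.trans hxb') hba.symm (fun d hd h1 h2 => hw' d (hxa.trans hd)
          (honly d (hxa.trans hd) h1 h2))
      have k2 := cyc_two (f := f) (x := b) (y := a) (w := fun d => v d * (u d)⁻¹)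
        (hxb'.symm.trans hxa) hba (fun d hd h1 h2 => hw' d (hxb'.trans hd)
          (honly d (hxb'.trans hd) h2 h1))
      have k3 := hw a hxa
      have k4 := hw b hxb'
      rw [k1] at k3
      rw [k2] at k4
      rw [k4] at k3
      have k5 : p a * p b = 1 := by
        have : (1 : H) * (v a * (u a)⁻¹) = (p a * p b) * (v a * (u a)⁻¹) := by
          rw [one_mul, mul_assoc]
          exact k3
        exact (mul_right_cancel this).symm
      have k6 : p a = (p b)⁻¹ := eq_inv_of_mul_eq_one_left k5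
      obtain ⟨j, hj, hja⟩ := hpv a ha
      obtain ⟨j', hj', hjb⟩ := hpv b hb
      by_cases hjj : j = j'
      · subst hjj
        apply hxb
        refine full hc h hf hY hYi hsc hall (fun _ _ h1 => h1) x (fun i => ?_) Γ.base
        have hpair : SameCycle f x ((c j).dart (-1)) ∧ SameCycle f x (Γ.inv ((c j).dart (-1))) := by
          rcases hj with rfl | rfl
          · rcases hj' with rfl | rfl
            · exact absurd rfl hba
            · exact ⟨hxa, hxb'⟩
          · rcases hj' with rfl | rfl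
            · exact ⟨hxb', hxa⟩
            · exact absurd rfl hba
        by_cases hij : i = j
        · subst hij
          exact ⟨fun _ => hpair.2, fun _ => hpair.1⟩
        · have hdiff : ∀ s, (s = (c i).dart (-1) ∨ s = Γ.inv ((c i).dart (-1))) →
              ∀ s', (s' = (c j).dart (-1) ∨ s' = Γ.inv ((c j).dart (-1))) → s ≠ s' := by
            rintro s hs s' hs' rfl
            have h5 : ∃ e, Γ.rot.SameCycle s ((c i).dart e) := by
              rcases hs with rfl | rfl
              · exact ⟨_, SameCycle.refl _ _⟩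
              · exact ⟨_, (c i).chain _⟩
            have h6 : ∃ e, Γ.rot.SameCycle s ((c j).dart e) := by
              rcases hs' with rfl | rfl
              · exact ⟨_, SameCycle.refl _ _⟩
              · exact ⟨_, (c j).chain _⟩
            obtain ⟨e, he⟩ := h5
            obtain ⟨e', he'⟩ := h6
            exact h i j hij e e' (he.symm.trans he')
          have hnot : ∀ s, (s = (c i).dart (-1) ∨ s = Γ.inv ((c i).dart (-1))) →
              ¬ SameCycle f x s := by
            intro s hs hxs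
            refine honly s hxs (hdiff s hs a hj) (hdiff s hs b hj') ⟨i, hs⟩
          exact ⟨fun h5 => absurd h5 (hnot _ (Or.inl rfl)), fun h5 => absurd h5 (hnot _ (Or.inr rfl))⟩
      · obtain ⟨n1, n2⟩ := hnc j j' hjj
        rcases hja with hja | hja <;> rcases hjb with hjb | hjb
        · apply n2
          rw [k6] at hja
          exact hja.trans (isConj_inv' hjb).symm
        · apply n1
          rw [k6] at hja
          have := isConj_inv' hjb
          rw [inv_inv] at this
          exact hja.trans this.symm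
        · apply n1
          rw [k6] at hja
          have := isConj_inv' hja
          rw [inv_inv, inv_inv] at this
          exact this.trans hjb.symm
        · apply n2
          rw [k6] at hja
          have := isConj_inv' hja
          rw [inv_inv, inv_inv] at this
          exact this.trans hjb.symm
    · push Not at hb
      have k1 := cyc_one (f := f) (x := a) (w := fun d => v d * (u d)⁻¹)
        (fun d hd h1 => hw' d (hxa.trans hd) (fun h2 => h1 (hb d h2 (hxa.trans hd))))
      have k3 := hw a hxa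
      rw [k1] at k3
      have k5 : p a = 1 := by
        have : (1 : H) * (v a * (u a)⁻¹) = (p a) * (v a * (u a)⁻¹) := by
          rw [one_mul]
          exact k3
        exact (mul_right_cancel this).symm
      obtain ⟨j, hj, hja⟩ := hpv a ha
      rw [k5] at hja
      apply hne j
      rcases hja with hja | hja
      · exact isConj_one_left.1 hja
      · rw [isConj_one_left, inv_eq_one] at hja
        exact hja
  -- counting
  have c6 := sum_classes f (SP c) A {Γ.base} ?_
  · have := card_SP (c := c)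
    rw [Set.ncard_singleton] at c6
    omega
  · intro x
    obtain ⟨a, ha, hxa⟩ := clA x
    have n1 : 1 ≤ {d | d ∈ SP c ∧ SameCycle f x d}.ncard := by
      rw [Nat.one_le_iff_ne_zero, Nat.ne_zero_iff_zero_lt, Set.ncard_pos (Set.toFinite _)]
      exact ⟨a, ha, hxa⟩
    by_cases hb : SameCycle f x Γ.base
    · have n2 : 1 ≤ {d | d ∈ ({Γ.base} : Set D) ∧ SameCycle f x d}.ncard := by
        rw [Nat.one_le_iff_ne_zero, Nat.ne_zero_iff_zero_lt, Set.ncard_pos (Set.toFinite _)]
        exact ⟨Γ.base, rfl, hb⟩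
      omega
    · by_cases hxA : ∀ d, SameCycle f x d → d ∉ A
      · have n3 : 3 ≤ {d | d ∈ SP c ∧ SameCycle f x d}.ncard := by
          by_contra hlt
          push Not at hlt
          obtain ⟨b, hb1, hb2, hb3, -⟩ := clB x hb hxA a a
          obtain ⟨b', hb1', hb2', hb3', hb4'⟩ := clB x hb hxA a b
          have h3 : ({a, b, b'} : Set D) ⊆ {d | d ∈ SP c ∧ SameCycle f x d} := by
            rintro d (rfl | rfl | rfl)
            · exact ⟨ha, hxa⟩
            · exact ⟨hb1, hb2⟩
            · exact ⟨hb1', hb2'⟩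
          have h4 : ({a, b, b'} : Set D).ncard = 3 := by
            rw [Set.ncard_eq_three]
            exact ⟨a, b, b', hb3.symm, hb3'.symm, hb4'.symm, rfl⟩
          have h5 := Set.ncard_le_ncard h3 (Set.toFinite _)
          omega
        omega
      · push Not at hxA
        obtain ⟨d, hd1, hd2⟩ := hxA
        have h3 : ({d, Γ.inv d} : Set D) ⊆ {d | d ∈ A ∧ SameCycle f x d} := by
          rintro e (rfl | rfl)
          · exact ⟨hd2, hd1⟩
          · exact ⟨hAi _ hd2, hd1.trans (hA1 _ hd2)⟩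
        have h4 : ({d, Γ.inv d} : Set D).ncard = 2 := Set.ncard_pair (Γ.inv_ne d).symm
        have h5 := Set.ncard_le_ncard h3 (Set.toFinite _)
        omega

end Pool.Agent.Helper23.MCG
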