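import Pool.Agent.Helper23.MCG.Nat

/-!
# All the types together
-/

set_option autoImplicit false
set_option linter.unusedSectionVars false
set_option linter.style.haveILetI false

namespace Pool.Agent.Helper23.MCG

open Equiv Equiv.Perm Pool.Agent.N513.PF
open Pool.Agent.Results.MP_294da1_gt.HigmanBound

/-- all types on `m` darts with `K` curves -/
theorem fixed_bound (g : ℕ) (k : ℤ) (P : MulAut (F g) → Prop)
    (hP : ∀ τ, P τ → PosEl (lt (4 * g + 1) (pos0 g)) τ ∧ τ ≠ 1) (m K : ℕ) :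
    ∃ N : ℕ, ∀ (Γ : SMap (Fin m)) (c : Fin K → Γ.Curve) (ℓ : Fin m → F g)
      (τ : Fin K → MulAut (F g)), Γ.IsMarking ℓ → (∀ j, P (τ j)) →
      (∀ j, IsTwistOf ℓ (c j) (τ j)) → ∀ w : List (MulAut (F g)), (∀ t ∈ w, ∃ j, t = τ j) →
      w.prod = boundaryTwist g ^ k → w.length ≤ N := by
  choose N hN using fun (a : Σ Γ : SMap (Fin m), (Fin K → Γ.Curve)) => type_bound g k P hP a.2
  obtain ⟨B, hB⟩ := (Set.finite_range N).bddAbove
  exact ⟨B, fun Γ c ℓ τ h1 h2 h3 w hw hp =>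
    (hN ⟨Γ, c⟩ ℓ τ h1 h2 h3 w hw hp).trans (hB ⟨_, rfl⟩)⟩

theorem all_bound (g : ℕ) (k : ℤ) (P : MulAut (F g) → Prop)
    (hP : ∀ τ, P τ → PosEl (lt (4 * g + 1) (pos0 g)) τ ∧ τ ≠ 1) (M' K' : ℕ) :
    ∃ N : ℕ, ∀ (m K : ℕ), m ≤ M' → K ≤ K' → ∀ (Γ : SMap (Fin m)) (c : Fin K → Γ.Curve)
      (ℓ : Fin m → F g)
      (τ : Fin K → MulAut (F g)), Γ.IsMarking ℓ → (∀ j, P (τ j)) →
      (∀ j, IsTwistOf ℓ (c j) (τ j)) → ∀ w : List (MulAut (F g)), (∀ t ∈ w, ∃ j, t = τ j) →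
      w.prod = boundaryTwist g ^ k → w.length ≤ N := by
  choose N hN using fun (a : Fin (M' + 1) × Fin (K' + 1)) => fixed_bound g k P hP a.1.val a.2.val
  obtain ⟨B, hB⟩ := (Set.finite_range N).bddAbove
  exact ⟨B, fun m K hm hK Γ c ℓ τ h1 h2 h3 w hw hp =>
    (hN (⟨m, Nat.lt_succ_of_le hm⟩, ⟨K, Nat.lt_succ_of_le hK⟩) Γ c ℓ τ h1 h2 h3 w hw hp).trans
      (hB ⟨_, rfl⟩)⟩

/-- **Restricted factorizations.** `w` is a list of positive Dehn twists about essential simple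
closed curves in `S`, any two of which are isotopic or meet at most once. There is a cell
decomposition `Γ` of the closed surface of genus `g`, with a base vertex (on the boundary of `S`),
and a marking `ℓ` of the fundamental group; simple closed curves `c j` on the 1-skeleton of `Γ` that
do not bound discs, are pairwise not isotopic and meet pairwise at most once, crossing each other, and
for which `Γ` has no superfluous vertices and edges; `τ j ∈ M(S)` is the positive Dehn twist about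
`c j`; and the elements of `w` are among the `τ j`. -/
def RestrictedP (g : ℕ) (P : MulAut (F g) → Prop) (w : List (MulAut (F g))) : Prop :=
  ∃ (m : ℕ) (Γ : SMap (Fin m)) (ℓ : Fin m → F g) (K : ℕ) (c : Fin K → Γ.Curve)
    (τ : Fin K → MulAut (F g)),
    Γ.Connected ∧ Γ.HasGenus g ∧ Γ.IsMarking ℓ ∧ Taut c ∧
    (∀ j, (c j).loop ℓ 0 ≠ 1) ∧
    (∀ i j, i ≠ j → (c i).MeetOnce (c j) ∧ ¬ IsConj ((c i).loop ℓ 0) ((c j).loop ℓ 0) ∧
      ¬ IsConj ((c i).loop ℓ 0) ((c j).loop ℓ 0)⁻¹) ∧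
    (∀ j, P (τ j) ∧ IsTwistOf ℓ (c j) (τ j)) ∧
    ∀ t ∈ w, ∃ j, t = τ j

theorem final_bound (g : ℕ) (k : ℤ) (P : MulAut (F g) → Prop)
    (hP : ∀ τ, P τ → PosEl (lt (4 * g + 1) (pos0 g)) τ ∧ τ ≠ 1) :
    ∃ N : ℕ, ∀ w : List (MulAut (F g)), RestrictedP g P w → w.prod = boundaryTwist g ^ k →
      w.length ≤ N := by
  obtain ⟨N, hN⟩ := all_bound g k P hP (6 * (4 * g * nCls g * (4 * g * nCls g)) + 4 * g + 4)
    (4 * g * nCls g)
  refine ⟨N, ?_⟩
  rintro w ⟨m, Γ, ℓ, K, c, τ, h1, h2, h3, h4, h5, h6, h7, h8⟩ hw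
  have hK : K ≤ 4 * g * nCls g := card_bound h1 h2 h3 c (fun i j hij => (h6 i j hij).1) h5
    (fun i j hij => (h6 i j hij).2)
  have hm := size_bound h1 h2 c (fun i j hij => (h6 i j hij).1) h4
  rw [Nat.card_eq_fintype_card, Fintype.card_fin] at hm
  have hm' : m ≤ 6 * (4 * g * nCls g * (4 * g * nCls g)) + 4 * g + 4 := by
    have := Nat.mul_le_mul hK hK
    omega
  exact hN m K hm' hK Γ c ℓ τ h3 (fun j => (h7 j).1) (fun j => (h7 j).2) w h8 hw

end Pool.Agent.Helper23.MCG
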