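import Pool.Agent.Helper23.MCG.Defs

/-!
# Maximal forests; functions constant along cycles
-/

set_option autoImplicit false
set_option linter.unusedSectionVars false

namespace Pool.Agent.Helper23.MCG

open Equiv Equiv.Perm

variable {D : Type} [Finite D]

open Classical in
/-- the involution `i` on `Y`, the identity elsewhere -/
noncomputable def sw (i : D → D) (Y : Set D) (d : D) : D := if d ∈ Y then i d else d

lemma sw_mem {i : D → D} {Y : Set D} {d : D} (h : d ∈ Y) : sw i Y d = i d := by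
  unfold sw; rw [if_pos h]

lemma sw_not {i : D → D} {Y : Set D} {d : D} (h : d ∉ Y) : sw i Y d = d := by
  unfold sw; rw [if_neg h]

theorem forest (i : Perm D) (hi : ∀ d, i (i d) = d) (hne : ∀ d, i d ≠ d) (f : Perm D) (N : Set D)
    (hN : ∀ d ∈ N, i d ∈ N) (Q : Perm D → Set D → Prop) (h0 : Q f ∅)
    (hs : ∀ f' Y d, Q f' Y → Y ⊆ N → (∀ x ∈ Y, i x ∈ Y) →
      (∀ x y, SameCycle f x y → SameCycle f' x y) → d ∈ N → d ∉ Y → i d ∉ Y →
      (∀ x, f' x = f (sw i Y x)) → ¬ SameCycle f' d (i d) →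
      ∀ f'' : Perm D, (f'' d = f' (i d)) → (f'' (i d) = f' d) → (∀ x, x ≠ d → x ≠ i d → f'' x = f' x) →
      (∀ x y, SameCycle f' x y → SameCycle f'' x y) → SameCycle f'' d (i d) →
      Q f'' (Y ∪ {d, i d})) :
    ∃ (Y : Set D) (f' : Perm D), Q f' Y ∧ Y ⊆ N ∧ (∀ x ∈ Y, i x ∈ Y) ∧
      (∀ x, f' x = f (sw i Y x)) ∧ 2 * nc f' + Y.ncard = 2 * nc f ∧
      (∀ x y, SameCycle f x y → SameCycle f' x y) ∧ ∀ x ∈ N, SameCycle f' x (i x) := by
  classical
  suffices key : ∀ (m : ℕ) (Y : Set D) (f' : Perm D), Nat.card D ≤ Y.ncard + m → Q f' Y → Y ⊆ N →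
      (∀ x ∈ Y, i x ∈ Y) → (∀ x, f' x = f (sw i Y x)) → 2 * nc f' + Y.ncard = 2 * nc f →
      (∀ x y, SameCycle f x y → SameCycle f' x y) → (∀ x ∈ Y, SameCycle f' x (i x)) →
      ∃ (Y : Set D) (f' : Perm D), Q f' Y ∧ Y ⊆ N ∧ (∀ x ∈ Y, i x ∈ Y) ∧
      (∀ x, f' x = f (sw i Y x)) ∧ 2 * nc f' + Y.ncard = 2 * nc f ∧
      (∀ x y, SameCycle f x y → SameCycle f' x y) ∧ ∀ x ∈ N, SameCycle f' x (i x) by
    exact key (Nat.card D) ∅ f (by omega) h0 (Set.empty_subset _) (fun x hx => absurd hx (by simp))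
      (fun x => by rw [sw_not (by simp)]) (by simp) (fun _ _ h => h)
      (fun x hx => absurd hx (by simp))
  intro m
  induction m with
  | zero =>
    intro Y f' hm hQ hY hYi hf hnc hsc hsy
    refine ⟨Y, f', hQ, hY, hYi, hf, hnc, hsc, fun x _ => hsy x ?_⟩
    have h1 : Y = Set.univ := by
      apply Set.eq_of_subset_of_ncard_le (Set.subset_univ _)
      rw [Set.ncard_univ]
      omega
    rw [h1]
    trivial
  | succ m ih =>
    intro Y f' hm hQ hY hYi hf hnc hsc hsy
    by_cases hall : ∀ x ∈ N, SameCycle f' x (i x)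
    · exact ⟨Y, f', hQ, hY, hYi, hf, hnc, hsc, hall⟩
    push Not at hall
    obtain ⟨d, hd, hdc⟩ := hall
    have hdY : d ∉ Y := fun h => hdc (hsy d h)
    have hidY : i d ∉ Y := fun h => hdY (by simpa [hi] using hYi _ h)
    have hcard : (Y ∪ {d, i d}).ncard = Y.ncard + 2 := by
      rw [Set.ncard_union_eq]
      · rw [Set.ncard_pair (hne d).symm]
      · rw [Set.disjoint_right]
        intro x hx
        rcases hx with rfl | rfl
        · exact hdY
        · exact hidY
    refine ih (Y ∪ {d, i d}) (f' * swap d (i d)) (by omega) ?_ ?_ ?_ ?_ ?_ ?_ ?_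
    · refine hs f' Y d hQ hY hYi hsc hd hdY hidY hf hdc _ ?_ ?_ ?_ (fun x y h => merge_of hdc h)
        (merge_ab hdc)
      · rw [mul_swap_apply, if_pos rfl]
      · rw [mul_swap_apply, if_neg (hne d), if_pos rfl]
      · intro x h1 h2
        rw [mul_swap_apply, if_neg h1, if_neg h2]
    · rintro x (hx | rfl | rfl)
      · exact hY hx
      · exact hd
      · exact hN _ hd
    · rintro x (hx | rfl | rfl)
      · exact Or.inl (hYi x hx)
      · exact Or.inr (Or.inr rfl)
      · exact Or.inr (Or.inl (hi d))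
    · intro x
      rw [mul_swap_apply]
      split_ifs with h1 h2
      · subst h1
        rw [hf, sw_not hidY, sw_mem (show x ∈ Y ∪ {x, i x} from Or.inr (Or.inl rfl))]
      · subst h2
        rw [hf, sw_not hdY, sw_mem (show i d ∈ Y ∪ {d, i d} from Or.inr (Or.inr rfl)), hi]
      · rw [hf]
        by_cases h3 : x ∈ Y
        · rw [sw_mem h3, sw_mem (show x ∈ Y ∪ {d, i d} from Or.inl h3)]
        · rw [sw_not h3, sw_not]
          rintro (h4 | h4 | h4)
          · exact h3 h4
          · exact h1 h4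
          · exact h2 h4
    · have := nc_merge hdc
      rw [hcard]
      omega
    · exact fun x y h => merge_of hdc (hsc x y h)
    · rintro x (hx | rfl | rfl)
      · exact merge_of hdc (hsy x hx)
      · exact merge_ab hdc
      · rw [hi]
        exact (merge_ab hdc).symm

/-- a function constant along a cycle except after `x` -/
lemma cyc_one {α : Type} {f : Perm D} {x : D} {w : D → α}
    (hw : ∀ d, SameCycle f x d → d ≠ x → w (f d) = w d) : w (f x) = w x := by
  classical
  have hex : ∃ n : ℕ, 0 < n ∧ (f ^ n) x = x := ⟨orderOf f, orderOf_pos f, by rw [pow_orderOf_eq_one]; rfl⟩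
  obtain ⟨n, ⟨h1, h2⟩, h3⟩ : ∃ n : ℕ, (0 < n ∧ (f ^ n) x = x) ∧ ∀ m < n, ¬ (0 < m ∧ (f ^ m) x = x) :=
    ⟨Nat.find hex, Nat.find_spec hex, fun m hm => Nat.find_min hex hm⟩
  have key : ∀ m, m < n → w ((f ^ (m + 1)) x) = w (f x) := by
    intro m
    induction m with
    | zero => intro _; simp
    | succ m ih =>
      intro hm
      rw [pow_succ', Perm.mul_apply, hw _ ⟨((m + 1 : ℕ) : ℤ), by rw [zpow_natCast]⟩
        (fun h4 => h3 (m + 1) hm ⟨by omega, h4⟩)]
      exact ih (by omega)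
  have := key (n - 1) (by omega)
  rw [Nat.sub_add_cancel h1, h2] at this
  exact this.symm

/-- a function constant along a cycle except after `x` and `y` -/
lemma cyc_two {α : Type} {f : Perm D} {x y : D} {w : D → α} (hxy : SameCycle f x y) (hne : x ≠ y)
    (hw : ∀ d, SameCycle f x d → d ≠ x → d ≠ y → w (f d) = w d) : w (f x) = w y := by
  classical
  obtain ⟨n0, hn0⟩ := hxy.exists_nat_pow_eq
  have hex : ∃ n : ℕ, (f ^ n) x = y := ⟨n0, hn0⟩
  obtain ⟨n, h2, h3⟩ : ∃ n : ℕ, ((f ^ n) x = y) ∧ ∀ m < n, ¬ ((f ^ m) x = y) :=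
    ⟨Nat.find hex, Nat.find_spec hex, fun m hm => Nat.find_min hex hm⟩
  have h1 : 0 < n := by
    rcases Nat.eq_zero_or_pos n with h | h
    · subst h
      exact absurd h2 hne
    · exact h
  have h4 : ∀ m, 0 < m → m < n → (f ^ m) x ≠ x := by
    intro m hm hmn h5
    apply h3 (n - m) (by omega)
    have : (f ^ (n - m)) ((f ^ m) x) = y := by
      rw [← Perm.mul_apply, ← pow_add, Nat.sub_add_cancel hmn.le, h2]
    rwa [h5] at this
  have key : ∀ m, m < n → w ((f ^ (m + 1)) x) = w (f x) := by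
    intro m
    induction m with
    | zero => intro _; simp
    | succ m ih =>
      intro hm
      rw [pow_succ', Perm.mul_apply, hw _ ⟨((m + 1 : ℕ) : ℤ), by rw [zpow_natCast]⟩
        (h4 _ (by omega) hm) (h3 _ hm)]
      exact ih (by omega)
  have := key (n - 1) (by omega)
  rw [Nat.sub_add_cancel h1, h2] at this
  exact this.symm

/-- functions on the cycles with prescribed values -/
lemma exists_vfun {ι H : Type} [One H] (f : Perm D) (V : ι → D)
    (hV : ∀ a b, SameCycle f (V a) (V b) → a = b) (val : ι → H) :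
    ∃ v : D → H, (∀ x y, SameCycle f x y → v x = v y) ∧ (∀ a, v (V a) = val a) ∧
      ∀ d, (∀ a, ¬ SameCycle f (V a) d) → v d = 1 := by
  classical
  refine ⟨fun d => if h : ∃ a, SameCycle f (V a) d then val h.choose else 1, ?_, ?_, ?_⟩
  · intro x y hxy
    by_cases h : ∃ a, SameCycle f (V a) x
    · have h' : ∃ a, SameCycle f (V a) y := ⟨h.choose, h.choose_spec.trans hxy⟩
      simp only [dif_pos h, dif_pos h']
      congr 1
      exact hV _ _ ((h.choose_spec.trans hxy).trans h'.choose_spec.symm)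
    · have h' : ¬ ∃ a, SameCycle f (V a) y := fun ⟨a, ha⟩ => h ⟨a, ha.trans hxy.symm⟩
      simp only [dif_neg h, dif_neg h']
  · intro a
    have h : ∃ b, SameCycle f (V b) (V a) := ⟨a, SameCycle.refl _ _⟩
    simp only [dif_pos h]
    congr 1
    exact hV _ _ h.choose_spec
  · intro d hd
    have h : ¬ ∃ a, SameCycle f (V a) d := fun ⟨a, ha⟩ => hd a ha
    simp only [dif_neg h]

end Pool.Agent.Helper23.MCG
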