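import Pool.Agent.Helper23.MCG.Forest

/-!
# Cutting a map along disjoint curves
-/

set_option autoImplicit false
set_option linter.unusedSectionVars false
set_option linter.style.haveILetI false

namespace Pool.Agent.Helper23.MCG

open Equiv Equiv.Perm

variable {D : Type} [Finite D] {Γ : SMap D} {k : ℕ} {c : Fin k → Γ.Curve}

/-- pairwise disjoint curves -/
def DisjFam (c : Fin k → Γ.Curve) : Prop :=
  ∀ i j, i ≠ j → ∀ a b, ¬ Γ.rot.SameCycle ((c i).dart a) ((c j).dart b)

/-- the darts of the curves, in both directions -/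
def CS (c : Fin k → Γ.Curve) : Set D := {d | ∃ j, (c j).On d}

/-- the last darts -/
def SP (c : Fin k → Γ.Curve) : Set D :=
  {d | ∃ j, d = (c j).dart (-1) ∨ d = Γ.inv ((c j).dart (-1))}

lemma CS_dart (j : Fin k) (i : ZMod ((c j).n + 1)) : (c j).dart i ∈ CS c := ⟨j, i, Or.inl rfl⟩

lemma CS_inv_dart (j : Fin k) (i : ZMod ((c j).n + 1)) : Γ.inv ((c j).dart i) ∈ CS c :=
  ⟨j, i, Or.inr rfl⟩

lemma CS_inv : ∀ d ∈ CS c, Γ.inv d ∈ CS c := by
  rintro d ⟨j, i, rfl | rfl⟩
  · exact CS_inv_dart j i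
  · rw [Γ.inv_inv]
    exact CS_dart j i

lemma CS_inv_iff {d : D} : Γ.inv d ∈ CS c ↔ d ∈ CS c :=
  ⟨fun h => by simpa using CS_inv _ h, CS_inv d⟩

lemma SP_sub : SP c ⊆ CS c := by
  rintro d ⟨j, rfl | rfl⟩
  · exact CS_dart _ _
  · exact CS_inv_dart _ _

lemma SP_inv : ∀ d ∈ SP c, Γ.inv d ∈ SP c := by
  rintro d ⟨j, rfl | rfl⟩
  · exact ⟨j, Or.inr rfl⟩
  · exact ⟨j, Or.inl (Γ.inv_inv _)⟩

lemma CS_at (h : DisjFam c) {j : Fin k} {i : ZMod ((c j).n + 1)} {d : D} (hd : d ∈ CS c)
    (hs : Γ.rot.SameCycle ((c j).dart i) d) : d = (c j).dart i ∨ d = Γ.inv ((c j).dart (i - 1)) := by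
  obtain ⟨j', i', rfl | rfl⟩ := hd
  · have : j = j' := by
      by_contra hne
      exact h _ _ hne _ _ hs
    subst this
    rw [(c j).simple _ _ hs]
    exact Or.inl rfl
  · have hs' := hs.trans ((c j').chain i')
    have : j = j' := by
      by_contra hne
      exact h _ _ hne _ _ hs'
    subst this
    rw [(c j).simple _ _ hs', add_sub_cancel_right]
    exact Or.inr rfl

/-- the involution on a set as a permutation -/
noncomputable def swP (i : Perm D) (hi : ∀ d, i (i d) = d) (Y : Set D) (hY : ∀ x ∈ Y, i x ∈ Y) :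
    Perm D where
  toFun := sw i Y
  invFun := sw i Y
  left_inv := by
    intro x
    by_cases h : x ∈ Y
    · rw [sw_mem h, sw_mem (hY x h), hi]
    · rw [sw_not h, sw_not h]
  right_inv := by
    intro x
    by_cases h : x ∈ Y
    · rw [sw_mem h, sw_mem (hY x h), hi]
    · rw [sw_not h, sw_not h]

variable (c) in
/-- the sides of the curves and the vertices off the curves -/
noncomputable def k0 : Perm D := Γ.rot * swP Γ.inv Γ.inv_inv (CS c) CS_inv

lemma k0_apply (d : D) : k0 c d = Γ.rot (sw Γ.inv (CS c) d) := rfl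

lemma k0_on {d : D} (h : d ∈ CS c) : k0 c d = Γ.rot (Γ.inv d) := by rw [k0_apply, sw_mem h]

lemma k0_off {d : D} (h : d ∉ CS c) : k0 c d = Γ.rot d := by rw [k0_apply, sw_not h]

lemma k0_step (h : DisjFam c) (j : Fin k) (i : ZMod ((c j).n + 1)) :
    (k0 c).SameCycle ((c j).dart i) ((c j).dart (i + 1)) := by
  have h1 := cyc_two (f := Γ.rot) (x := Γ.inv ((c j).dart i)) (y := (c j).dart (i + 1))
    (w := fun d => (Quotient.mk (SameCycle.setoid (k0 c)) d)) ((c j).chain i) ((c j).noback _ _) ?_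
  · have h2 : (k0 c).SameCycle (Γ.rot (Γ.inv ((c j).dart i))) ((c j).dart (i + 1)) := Quotient.exact h1
    rw [← k0_on (CS_dart j i)] at h2
    exact (sc_apply _).trans h2
  · intro d hd h3 h4
    apply Quotient.sound
    have h5 : d ∉ CS c := by
      intro h5
      rcases CS_at h h5 (((c j).chain i).symm.trans hd) with h6 | h6
      · exact h4 h6
      · rw [add_sub_cancel_right] at h6
        exact h3 h6
    rw [← k0_off h5]
    exact (sc_apply _).symm

lemma k0_step' (h : DisjFam c) (j : Fin k) (i : ZMod ((c j).n + 1)) :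
    (k0 c).SameCycle (Γ.inv ((c j).dart (i + 1))) (Γ.inv ((c j).dart i)) := by
  have h1 := cyc_two (f := Γ.rot) (x := (c j).dart (i + 1)) (y := Γ.inv ((c j).dart i))
    (w := fun d => (Quotient.mk (SameCycle.setoid (k0 c)) d)) ((c j).chain i).symm
    ((c j).noback _ _).symm ?_
  · have h2 : (k0 c).SameCycle (Γ.rot ((c j).dart (i + 1))) (Γ.inv ((c j).dart i)) := Quotient.exact h1
    have h3 : k0 c (Γ.inv ((c j).dart (i + 1))) = Γ.rot ((c j).dart (i + 1)) := by
      rw [k0_on (CS_inv_dart j _), Γ.inv_inv]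
    rw [← h3] at h2
    exact (sc_apply _).trans h2
  · intro d hd h3 h4
    apply Quotient.sound
    have h5 : d ∉ CS c := by
      intro h5
      rcases CS_at h h5 hd with h6 | h6
      · exact h3 h6
      · rw [add_sub_cancel_right] at h6
        exact h4 h6
    rw [← k0_off h5]
    exact (sc_apply _).symm

lemma k0_all (h : DisjFam c) (j : Fin k) (i i' : ZMod ((c j).n + 1)) :
    (k0 c).SameCycle ((c j).dart i) ((c j).dart i') ∧
      (k0 c).SameCycle (Γ.inv ((c j).dart i)) (Γ.inv ((c j).dart i')) := by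
  have key : ∀ t : ℕ, (k0 c).SameCycle ((c j).dart 0) ((c j).dart (t : ZMod ((c j).n + 1))) ∧
      (k0 c).SameCycle (Γ.inv ((c j).dart 0)) (Γ.inv ((c j).dart (t : ZMod ((c j).n + 1)))) := by
    intro t
    induction t with
    | zero => rw [Nat.cast_zero]; exact ⟨SameCycle.refl _ _, SameCycle.refl _ _⟩
    | succ t ih =>
      rw [Nat.cast_succ]
      exact ⟨ih.1.trans (k0_step h j _), ih.2.trans (k0_step' h j _).symm⟩
  have e : ∀ i : ZMod ((c j).n + 1), ((i.val : ℕ) : ZMod ((c j).n + 1)) = i := fun i =>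
    ZMod.natCast_zmod_val i
  have h1 := key i.val
  have h2 := key i'.val
  rw [e] at h1 h2
  exact ⟨h1.1.symm.trans h2.1, h1.2.symm.trans h2.2⟩

/-! ### the number of cycles -/

open Classical in
variable (c) in
/-- the type of a dart: its vertex, or the curve and the side -/
noncomputable def ty (d : D) : Quotient (SameCycle.setoid Γ.rot) ⊕ (Fin k × Bool) :=
  if h : ∃ j, ∃ i, Γ.rot.SameCycle ((c j).dart i) d then
    Sum.inr (h.choose, decide ((c h.choose).LO d))
  else Sum.inl (Quotient.mk _ d)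

open Classical in
lemma ty_on (h : DisjFam c) {j : Fin k} {i : ZMod ((c j).n + 1)} {d : D}
    (hs : Γ.rot.SameCycle ((c j).dart i) d) : ty c d = Sum.inr (j, decide ((c j).LO d)) := by
  have h1 : ∃ j, ∃ i, Γ.rot.SameCycle ((c j).dart i) d := ⟨j, i, hs⟩
  unfold ty
  rw [dif_pos h1]
  have h2 : h1.choose = j := by
    by_contra hne
    obtain ⟨i', hi'⟩ := h1.choose_spec
    exact h _ _ hne _ _ (hi'.trans hs.symm)
  rw [h2]

lemma ty_off {d : D} (hs : ¬ ∃ j, ∃ i, Γ.rot.SameCycle ((c j).dart i) d) :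
    ty c d = Sum.inl (Quotient.mk _ d) := by
  unfold ty
  rw [dif_neg hs]

lemma ty_k0 (h : DisjFam c) (d : D) : ty c (k0 c d) = ty c d := by
  classical
  by_cases hs : ∃ j, ∃ i, Γ.rot.SameCycle ((c j).dart i) d
  · obtain ⟨j, i, hs⟩ := hs
    by_cases hd : d ∈ CS c
    · rcases CS_at h hd hs with rfl | rfl
      · rw [k0_on hd]
        have h1 : Γ.rot.SameCycle ((c j).dart (i + 1)) (Γ.rot (Γ.inv ((c j).dart i))) :=
          ((c j).chain i).symm.trans (sc_apply _)
        rw [ty_on h h1, ty_on h hs]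
        have h2 : (c j).LO (Γ.rot (Γ.inv ((c j).dart i))) :=
          ((c j).lo_rot _).2 (Or.inr ⟨i, by rw [Γ.inv_inv]⟩)
        have h3 : (c j).LO ((c j).dart i) := Or.inr ⟨i, rfl⟩
        simp [h2, h3]
      · rw [k0_on hd, Γ.inv_inv]
        have h1 : Γ.rot.SameCycle ((c j).dart (i - 1)) (Γ.rot ((c j).dart (i - 1))) := sc_apply _
        rw [ty_on h h1, ty_on h hs]
        have h2 : ¬ (c j).LO (Γ.rot ((c j).dart (i - 1))) := by
          rw [(c j).lo_rot]
          rintro (h2 | ⟨i', h2⟩)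
          · exact h2.not_dart _ _ rfl
          · exact (c j).noback _ _ h2.symm
        have h3 : ¬ (c j).LO (Γ.inv ((c j).dart (i - 1))) := by
          rintro (h2 | ⟨i', h2⟩)
          · exact h2.not_inv _ _ rfl
          · exact (c j).noback _ _ h2.symm
        simp [h2, h3]
    · rw [k0_off hd, ty_on h hs, ty_on h (hs.trans (sc_apply _))]
      have h2 : (c j).LO (Γ.rot d) ↔ (c j).LO d := by
        rw [(c j).lo_rot]
        constructor
        · rintro (h2 | ⟨i', h2⟩)
          · exact Or.inl h2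
          · exact absurd (CS_inv_iff.1 (h2 ▸ CS_dart j i')) hd
        · rintro (h2 | ⟨i', h2⟩)
          · exact Or.inl h2
          · exact absurd (h2 ▸ CS_dart j i') hd
      simp [h2]
  · have hd : d ∉ CS c := by
      rintro ⟨j, i, rfl | rfl⟩
      · exact hs ⟨j, i, SameCycle.refl _ _⟩
      · exact hs ⟨j, i + 1, ((c j).chain i).symm⟩
    have hs' : ¬ ∃ j, ∃ i, Γ.rot.SameCycle ((c j).dart i) (Γ.rot d) := by
      rintro ⟨j, i, h1⟩
      exact hs ⟨j, i, h1.trans (sc_apply _).symm⟩
    rw [k0_off hd, ty_off hs, ty_off hs']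
    congr 1
    exact Quotient.sound (sc_apply d).symm

lemma count_k0 (h : DisjFam c) :
    nc Γ.rot + 2 * k ≤ nc (k0 c) + Nat.card (Σ j, ZMod ((c j).n + 1)) := by
  classical
  haveI : Finite (Quotient (SameCycle.setoid Γ.rot)) := Quotient.finite _
  haveI : Finite (Quotient (SameCycle.setoid (k0 c))) := Quotient.finite _
  set X := Quotient (SameCycle.setoid Γ.rot) ⊕ (Fin k × Bool) with hX
  have e1 : nc Γ.rot + 2 * k = Nat.card X := by
    rw [hX, Nat.card_sum, Nat.card_prod, Nat.card_eq_fintype_card (α := Fin k),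
      Nat.card_eq_fintype_card (α := Bool), Fintype.card_fin, Fintype.card_bool, mul_comm k]
    rfl
  have hty : ∀ x y, (k0 c).SameCycle x y → ty c x = ty c y := by
    intro x y hxy
    refine sc_of_rel (f := k0 c) (R := fun x y => ty c x = ty c y) (fun _ => rfl)
      (fun _ _ _ h1 h2 => h1.trans h2) (fun x => (ty_k0 h x).symm) hxy
  let F : Quotient (SameCycle.setoid (k0 c)) → X := Quotient.lift (ty c) hty
  let G : (Σ j, ZMod ((c j).n + 1)) → X := fun a => Sum.inl (Quotient.mk _ ((c a.1).dart a.2))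
  have hcov : (Set.univ : Set X) ⊆ Set.range F ∪ Set.range G := by
    rintro (q | ⟨j, b⟩) -
    · induction q using Quotient.inductionOn with | _ d
      by_cases hs : ∃ j, ∃ i, Γ.rot.SameCycle ((c j).dart i) d
      · right
        obtain ⟨j, i, hs⟩ := hs
        exact ⟨⟨j, i⟩, congrArg Sum.inl (Quotient.sound hs)⟩
      · left
        exact ⟨Quotient.mk _ d, ty_off hs⟩
    · left
      cases b with
      | true =>
        refine ⟨Quotient.mk _ ((c j).dart 0), ?_⟩
        show ty c _ = _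
        rw [ty_on h (SameCycle.refl _ _)]
        have h3 : (c j).LO ((c j).dart 0) := Or.inr ⟨0, rfl⟩
        simp [h3]
      | false =>
        refine ⟨Quotient.mk _ (Γ.inv ((c j).dart 0)), ?_⟩
        show ty c _ = _
        rw [ty_on h ((c j).chain 0).symm]
        have h3 : ¬ (c j).LO (Γ.inv ((c j).dart 0)) := by
          rintro (h2 | ⟨i', h2⟩)
          · exact h2.not_inv _ _ rfl
          · exact (c j).noback _ _ h2.symm
        simp [h3]
  have e2 : Nat.card X ≤ (Set.range F).ncard + (Set.range G).ncard := by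
    rw [← Set.ncard_univ]
    exact (Set.ncard_le_ncard hcov (Set.toFinite _)).trans (Set.ncard_union_le _ _)
  have e3 : (Set.range F).ncard ≤ nc (k0 c) := by
    rw [← Set.image_univ]
    refine (Set.ncard_image_le (Set.toFinite _)).trans ?_
    rw [Set.ncard_univ]
    rfl
  have e4 : (Set.range G).ncard ≤ Nat.card (Σ j, ZMod ((c j).n + 1)) := by
    rw [← Set.image_univ]
    refine (Set.ncard_image_le (Set.toFinite _)).trans ?_
    rw [Set.ncard_univ]
  omega

lemma card_CS (h : DisjFam c) : 2 * Nat.card (Σ j, ZMod ((c j).n + 1)) ≤ (CS c).ncard := by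
  classical
  let G : (Σ j, ZMod ((c j).n + 1)) × Bool → D := fun a =>
    if a.2 then (c a.1.1).dart a.1.2 else Γ.inv ((c a.1.1).dart a.1.2)
  have hG : Function.Injective G := by
    have aux : ∀ j i j' i', (c j).dart i = (c j').dart i' →
        (⟨j, i⟩ : Σ j, ZMod ((c j).n + 1)) = ⟨j', i'⟩ := by
      intro j i j' i' h1
      have : j = j' := by
        by_contra hne
        exact h _ _ hne i i' (h1 ▸ SameCycle.refl _ _)
      subst this
      rw [(c j).dart_inj h1]
    have aux2 : ∀ j i j' i', Γ.inv ((c j).dart i) ≠ (c j').dart i' := by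
      intro j i j' i' h1
      have h2 : Γ.rot.SameCycle ((c j).dart (i + 1)) ((c j').dart i') := h1 ▸ ((c j).chain i).symm
      have : j = j' := by
        by_contra hne
        exact h _ _ hne _ _ h2
      subst this
      exact (c j).noback _ _ h1
    rintro ⟨⟨j, i⟩, b⟩ ⟨⟨j', i'⟩, b'⟩ h1
    cases b <;> cases b' <;> simp only [G, if_true, Bool.false_eq_true, if_false] at h1
    · rw [aux _ _ _ _ (Γ.inv.injective h1)]
    · exact absurd h1 (aux2 _ _ _ _)
    · exact absurd h1.symm (aux2 _ _ _ _)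
    · rw [aux _ _ _ _ h1]
  have h1 : Set.range G ⊆ CS c := by
    rintro _ ⟨⟨⟨j, i⟩, b⟩, rfl⟩
    cases b
    · exact CS_inv_dart j i
    · exact CS_dart j i
  have h2 := Set.ncard_le_ncard h1 (Set.toFinite _)
  have h3 : (Set.range G).ncard = Nat.card ((Σ j, ZMod ((c j).n + 1)) × Bool) := by
    rw [← Set.image_univ, Set.ncard_image_of_injective _ hG, Set.ncard_univ]
  rw [h3, Nat.card_prod, Nat.card_eq_fintype_card (α := Bool), Fintype.card_bool] at h2
  omega

lemma card_SP : (SP c).ncard ≤ 2 * k := by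
  classical
  have h1 : SP c ⊆ Set.range (fun a : Fin k × Bool => if a.2 then (c a.1).dart (-1) else
      Γ.inv ((c a.1).dart (-1))) := by
    rintro d ⟨j, rfl | rfl⟩
    · exact ⟨(j, true), rfl⟩
    · exact ⟨(j, false), rfl⟩
  refine (Set.ncard_le_ncard h1 (Set.toFinite _)).trans ?_
  rw [← Set.image_univ]
  refine (Set.ncard_image_le (Set.toFinite _)).trans ?_
  rw [Set.ncard_univ, Nat.card_prod, Nat.card_eq_fintype_card (α := Fin k),
      Nat.card_eq_fintype_card (α := Bool), Fintype.card_fin, Fintype.card_bool, mul_comm k]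

end Pool.Agent.Helper23.MCG
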