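import Pool.Agent.Helper23.MCG.Count

/-!
# Markings and twists: naturality, and the bound for one combinatorial type
-/

set_option autoImplicit false
set_option linter.unusedSectionVars false
set_option linter.style.haveILetI false

namespace Pool.Agent.Helper23.MCG

open Equiv Equiv.Perm Pool.Agent.N513.PF
open Pool.Agent.Results.MP_294da1_gt.HigmanBound

variable {D : Type} {Γ : SMap D} {H : Type} [Group H]

lemma lab_gauge {m m' : D → H} {z : H} (h : Γ.IsLab m z) (hg : Γ.GEq m m') : Γ.IsLab m' z := by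
  obtain ⟨h1, u, h2, h3, h4⟩ := h
  obtain ⟨g, g1, g2, g3⟩ := hg
  have g4 : ∀ d, g (Γ.face d) = g (Γ.inv d) := fun d => by rw [Γ.face_apply, g1]
  refine ⟨fun d => ?_, fun d => u d * (g d)⁻¹, ?_, fun d hd => ?_, fun d hd => ?_⟩
  · rw [g3, g3, h1, Γ.inv_inv]
    group
  · show u Γ.base * (g Γ.base)⁻¹ = 1
    rw [h2, g2]
    group
  · show u (Γ.face d) * (g (Γ.face d))⁻¹ = u d * (g d)⁻¹ * m' d
    rw [h3 d hd, g4, g3]
    group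
  · show u d * (g d)⁻¹ * m' d = z
    rw [g3, ← g4, hd, g2, ← h4 d hd]
    group

lemma lab_map {H' : Type} [Group H'] {m : D → H} {z : H} (h : Γ.IsLab m z) (θ : H →* H') :
    Γ.IsLab (fun d => θ (m d)) (θ z) := by
  obtain ⟨h1, u, h2, h3, h4⟩ := h
  refine ⟨fun d => ?_, fun d => θ (u d), ?_, fun d hd => ?_, fun d hd => ?_⟩
  · show θ (m (Γ.inv d)) = (θ (m d))⁻¹
    rw [h1, map_inv]
  · show θ (u Γ.base) = 1
    rw [h2, map_one]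
  · show θ (u (Γ.face d)) = θ (u d) * θ (m d)
    rw [h3 d hd, map_mul]
  · show θ (u d) * θ (m d) = θ z
    rw [← h4 d hd, map_mul]

lemma lab_unique [Finite D] {m : D → H} {z z' : H} (h : Γ.IsLab m z) (h' : Γ.IsLab m z') : z = z' := by
  obtain ⟨-, u, h2, h3, h4⟩ := h
  obtain ⟨-, u', h2', h3', h4'⟩ := h'
  obtain ⟨d, hd⟩ := Γ.face.surjective Γ.base
  have h5 := cyc_one (f := Γ.face) (x := d) (w := fun d => u' d * (u d)⁻¹) (fun e _ he => by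
    have h6 : Γ.face e ≠ Γ.base := fun h6 => he (Γ.face.injective (h6.trans hd.symm))
    show u' (Γ.face e) * (u (Γ.face e))⁻¹ = u' e * (u e)⁻¹
    rw [h3 e h6, h3' e h6]
    group)
  have h6 : u' (Γ.face d) * (u (Γ.face d))⁻¹ = u' d * (u d)⁻¹ := h5
  rw [hd, h2, h2', inv_one, mul_one] at h6
  have h7 : u' d = u d := (eq_of_mul_inv_eq_one h6.symm)
  rw [← h4 d hd, ← h4' d hd, h7]

/-- two markings differ by a mapping class -/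
lemma marking_iso [Finite D] {g : ℕ} {ℓ₀ ℓ : D → F g} (h0 : Γ.IsMarking ℓ₀) (h : Γ.IsMarking ℓ) :
    ∃ φ ∈ M g, Γ.GEq ℓ (fun d => φ (ℓ₀ d)) := by
  obtain ⟨θ, hθ, -⟩ := h0.2 (F g) ℓ (zeta g) h.1
  obtain ⟨θ', hθ', -⟩ := h.2 (F g) ℓ₀ (zeta g) h0.1
  have e1 : θ'.comp θ = MonoidHom.id _ := by
    obtain ⟨ρ, -, hρ⟩ := h0.2 (F g) ℓ₀ (zeta g) h0.1
    have h1 := hρ (θ'.comp θ) (GEq.trans hθ' (GEq.map hθ θ'))
    have h2 := hρ (MonoidHom.id _) (GEq.refl _)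
    rw [h1, h2]
  have e2 : θ.comp θ' = MonoidHom.id _ := by
    obtain ⟨ρ, -, hρ⟩ := h.2 (F g) ℓ (zeta g) h.1
    have h1 := hρ (θ.comp θ') (GEq.trans hθ (GEq.map hθ' θ))
    have h2 := hρ (MonoidHom.id _) (GEq.refl _)
    rw [h1, h2]
  refine ⟨MonoidHom.toMulEquiv θ θ' e1 e2, ?_, hθ⟩
  show θ (zeta g) = zeta g
  exact lab_unique (lab_map h0.1 θ) (lab_gauge h.1 hθ)

lemma twists_map {H' : Type} [Group H'] {c : Γ.Curve} {m m' : D → H} (h : c.Twists m m')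
    (θ : H →* H') : c.Twists (fun d => θ (m d)) (fun d => θ (m' d)) := by
  obtain ⟨f, h1, h2, h3⟩ := h
  refine ⟨fun d => θ (f d), fun d => by simp only [h1], fun i => ?_, fun d => ?_⟩
  · show θ (f (c.dart i)) = _
    rw [loop_map, h2]
  · show θ (m' d) = _
    rw [h3, map_mul, map_mul, map_inv]
    split_ifs <;> simp

lemma twists_gauge [Finite D] {c : Γ.Curve} {m₁ m₁' m₂ m₂' : D → H} (h₁ : c.Twists m₁ m₁')
    (h₂ : c.Twists m₂ m₂') (h : Γ.GEq m₁ m₂) : Γ.GEq m₁' m₂' := by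
  classical
  obtain ⟨f₁, a1, a2, a3⟩ := h₁
  obtain ⟨f₂, b1, b2, b3⟩ := h₂
  obtain ⟨g, g1, g2, g3⟩ := h
  have key : ∀ d, c.Left d → f₂ d = g d * f₁ d * (g d)⁻¹ := by
    intro d hd
    obtain ⟨i, hi⟩ := hd.at
    rw [← vfun_sc b1 hi, ← vfun_sc a1 hi, ← vfun_sc g1 hi, a2, b2]
    exact loop_gauge c g1 g3 i
  refine ⟨g, g1, g2, fun d => ?_⟩
  rw [a3, b3, g3]
  by_cases hl : c.Left d
  · by_cases hr : c.Left (Γ.inv d)
    · rw [if_pos hl, if_pos hr, if_pos hl, if_pos hr, key d hl, key _ hr]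
      group
    · rw [if_pos hl, if_neg hr, if_pos hl, if_neg hr, key d hl]
      group
  · by_cases hr : c.Left (Γ.inv d)
    · rw [if_neg hl, if_pos hr, if_neg hl, if_pos hr, key _ hr]
      group
    · rw [if_neg hl, if_neg hr, if_neg hl, if_neg hr]
      group

/-- `τ` is the Dehn twist about `c` -/
def IsTwistOf {g : ℕ} {D : Type} {Γ : SMap D} (ℓ : D → F g) (c : Γ.Curve) (τ : MulAut (F g)) : Prop :=
  ∃ m' : D → F g, c.Twists ℓ m' ∧ Γ.GEq m' (fun d => τ (ℓ d))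

lemma twist_conj [Finite D] {g : ℕ} {ℓ₀ ℓ : D → F g} (h : Γ.IsMarking ℓ)
    {c : Γ.Curve} {τ₀ τ : MulAut (F g)} (ht0 : IsTwistOf ℓ₀ c τ₀) (ht : IsTwistOf ℓ c τ)
    {φ : MulAut (F g)} (hφ : Γ.GEq ℓ (fun d => φ (ℓ₀ d))) : τ = φ * τ₀ * φ⁻¹ := by
  obtain ⟨m₀', a1, a2⟩ := ht0
  obtain ⟨m', b1, b2⟩ := ht
  have c1 : Γ.GEq m' (fun d => φ (m₀' d)) := twists_gauge b1 (twists_map a1 φ.toMonoidHom) hφ
  have c2 : Γ.GEq (fun d => φ (m₀' d)) (fun d => φ (τ₀ (ℓ₀ d))) := GEq.map a2 φ.toMonoidHom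
  have c3 : Γ.GEq ℓ₀ (fun d => φ⁻¹ (ℓ d)) := by
    have := GEq.symm (GEq.map hφ (φ⁻¹ : MulAut (F g)).toMonoidHom)
    have e : ∀ x, (φ⁻¹ : MulAut (F g)).toMonoidHom (φ x) = x := fun x => MulAut.inv_apply_self _ _ _
    simp only [e] at this
    exact this
  have c4 : Γ.GEq (fun d => φ (τ₀ (ℓ₀ d))) (fun d => φ (τ₀ (φ⁻¹ (ℓ d)))) :=
    GEq.map c3 (φ * τ₀).toMonoidHom
  have c5 : Γ.GEq (fun d => τ (ℓ d)) (fun d => φ (τ₀ (φ⁻¹ (ℓ d)))) :=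
    GEq.trans (GEq.trans (GEq.trans (GEq.symm b2) c1) c2) c4
  obtain ⟨ρ, -, hρ⟩ := h.2 (F g) (fun d => τ (ℓ d)) (τ (zeta g)) (lab_map h.1 τ.toMonoidHom)
  have h1 := hρ τ.toMonoidHom (GEq.refl _)
  have h2 := hρ (φ * τ₀ * φ⁻¹).toMonoidHom c5
  have h3 : τ.toMonoidHom = (φ * τ₀ * φ⁻¹).toMonoidHom := h1.trans h2.symm
  ext x
  exact DFunLike.congr_fun h3 x

/-- the bound of the library for positive elements of the order -/
theorem bound_pos (g : ℕ) (k : ℤ) (B : Set (MulAut (F g))) (hB : B.Finite)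
    (hp : ∀ τ ∈ B, PosEl (lt (4 * g + 1) (pos0 g)) τ ∧ τ ≠ 1) :
    ∃ N : ℕ, ∀ φ ∈ M g, ∀ w : List (MulAut (F g)),
      (∀ τ ∈ w, ∃ σ ∈ B, τ = φ * σ * φ⁻¹) → w.prod = boundaryTwist g ^ k → w.length ≤ N := by
  obtain ⟨N, hN⟩ := uniform_bound (r := lt (4 * g + 1) (pos0 g))
    (fun _ _ _ => Pool.Agent.N513.PF.lt_trans)
    (fun _ _ => Pool.Agent.N513.PF.lt_asymm) (M g) (fun φ hφ => pres hφ) (boundaryTwist g ^ k)
    (fun φ hφ => by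
      have h1 : φ * boundaryTwist g * φ⁻¹ = boundaryTwist g := by
        ext u
        show φ ((zeta g)⁻¹ * (φ⁻¹ u) * ((zeta g)⁻¹)⁻¹) = (zeta g)⁻¹ * u * ((zeta g)⁻¹)⁻¹
        have h2 : φ (zeta g) = zeta g := hφ
        rw [map_mul, map_mul, map_inv, map_inv, map_inv, h2, MulAut.apply_inv_self]
      have h3 : φ * boundaryTwist g ^ k * φ⁻¹ = (φ * boundaryTwist g * φ⁻¹) ^ k := by
        rw [conj_zpow]
      rw [h3, h1])
    {B} (Set.finite_singleton B) (fun B' hB' => by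
      rw [Set.mem_singleton_iff] at hB'
      rw [hB']
      exact hB)
  refine ⟨N, fun φ hφ w hw hp' => ?_⟩
  refine hN {τ | ∃ σ ∈ B, τ = φ * σ * φ⁻¹} ?_ ⟨φ⁻¹, (M g).inv_mem hφ, B, rfl, ?_⟩ w hw hp'
  · rintro τ ⟨σ, hσ, rfl⟩
    obtain ⟨h3, h2⟩ := hp σ hσ
    refine ⟨⟨pres_mul (pres_mul (pres hφ) h3.1) (pres ((M g).inv_mem hφ)),
      up_conj (pres hφ) h3.2⟩, fun h4 => h2 ?_⟩
    have h5 : σ = φ⁻¹ * (φ * σ * φ⁻¹) * φ := by group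
    rw [h5, h4]
    group
  · rintro τ ⟨σ, hσ, rfl⟩
    have h5 : φ⁻¹ * (φ * σ * φ⁻¹) * φ⁻¹⁻¹ = σ := by group
    rw [h5]
    exact hσ

/-- the bound for one combinatorial type -/
theorem type_bound [Finite D] (g : ℕ) (k : ℤ) (P : MulAut (F g) → Prop)
    (hP : ∀ τ, P τ → PosEl (lt (4 * g + 1) (pos0 g)) τ ∧ τ ≠ 1) {K : ℕ} (c : Fin K → Γ.Curve) :
    ∃ N : ℕ, ∀ (ℓ : D → F g) (τ : Fin K → MulAut (F g)), Γ.IsMarking ℓ → (∀ j, P (τ j)) →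
      (∀ j, IsTwistOf ℓ (c j) (τ j)) → ∀ w : List (MulAut (F g)), (∀ t ∈ w, ∃ j, t = τ j) →
      w.prod = boundaryTwist g ^ k → w.length ≤ N := by
  by_cases hex : ∃ (ℓ : D → F g) (τ : Fin K → MulAut (F g)), Γ.IsMarking ℓ ∧ (∀ j, P (τ j)) ∧
      ∀ j, IsTwistOf ℓ (c j) (τ j)
  · obtain ⟨ℓ₀, τ₀, a1, a2, a3⟩ := hex
    obtain ⟨N, hN⟩ := bound_pos g k (Set.range τ₀) (Set.finite_range τ₀) (by
      rintro _ ⟨j, rfl⟩
      exact hP _ (a2 j))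
    refine ⟨N, fun ℓ τ h1 h2 h3 w hw hprod => ?_⟩
    obtain ⟨φ, hφ, hg⟩ := marking_iso a1 h1
    refine hN φ hφ w (fun t ht => ?_) hprod
    obtain ⟨j, rfl⟩ := hw t ht
    exact ⟨τ₀ j, ⟨j, rfl⟩, twist_conj h1 (a3 j) (h3 j) hg⟩
  · exact ⟨0, fun ℓ τ h1 h2 h3 => absurd ⟨ℓ, τ, h1, h2, h3⟩ hex⟩

end Pool.Agent.Helper23.MCG
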