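import Pool.Agent.Helper23.MCG.SepDef

/-!
# Words read from an incoming direction
-/

set_option autoImplicit false
set_option linter.unusedSectionVars false

namespace Pool.Agent.Helper23.MCG

open Pool.Agent.N513.PF

section general

variable {α : Type} [DecidableEq α] {n : ℕ} {p : α × Bool → ℕ}

/-- the incoming direction after the word -/
def inc (p : α × Bool → ℕ) : ℕ → List (α × Bool) → ℕ
  | q, [] => q
  | _, l :: s => inc p (p (iv l)) s

/-- reduced words, read from the incoming direction -/
def Red (p : α × Bool → ℕ) : ℕ → List (α × Bool) → Prop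
  | _, [] => True
  | q, l :: s => p l ≠ q ∧ Red p (p (iv l)) s

lemma inc_append (q : ℕ) (s t : List (α × Bool)) : inc p q (s ++ t) = inc p (inc p q s) t := by
  induction s generalizing q with
  | nil => rfl
  | cons l s ih => exact ih _

lemma red_append (q : ℕ) (s t : List (α × Bool)) :
    Red p q (s ++ t) ↔ Red p q s ∧ Red p (inc p q s) t := by
  induction s generalizing q with
  | nil => simp [Red, inc]
  | cons l s ih =>
    show (p l ≠ q ∧ Red p (p (iv l)) (s ++ t)) ↔ (p l ≠ q ∧ Red p (p (iv l)) s) ∧ _
    rw [ih, and_assoc]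
    rfl

lemma ltp_cons (q : ℕ) (l : α × Bool) (s t : List (α × Bool)) :
    ltp n p q (l :: s) (l :: t) ↔ ltp n p (p (iv l)) s t :=
  ltp_append q [] l s t

lemma ltp_app (q : ℕ) (s a b : List (α × Bool)) :
    ltp n p q (s ++ a) (s ++ b) ↔ ltp n p (inc p q s) a b := by
  induction s generalizing q with
  | nil => rfl
  | cons l s ih =>
    rw [List.cons_append, List.cons_append, ltp_cons, ih]
    rfl

lemma ltp_lt (h : Arr n p) {q : ℕ} (hq : q < n) {s t : List (α × Bool)}
    (hk : key n q (hd p s) < key n q (hd p t)) : ltp n p q s t :=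
  (ltp_iff h hq s t).2 (Or.inl hk)

lemma red_isReduced {q : ℕ} {s : List (α × Bool)} (hs : Red p q s) : FreeGroup.IsReduced s := by
  induction s generalizing q with
  | nil => exact FreeGroup.IsReduced.nil
  | cons a s ih =>
    cases s with
    | nil => exact FreeGroup.IsReduced.singleton
    | cons b s =>
      rw [FreeGroup.isReduced_cons_cons]
      refine ⟨fun h1 => ?_, ih hs.2⟩
      by_contra h2
      apply hs.2.1
      congr 1
      refine Prod.ext h1.symm ?_
      show b.2 = !a.2
      revert h2
      cases a.2 <;> cases b.2 <;> simp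

lemma isReduced_red (h : Arr n p) {l : α × Bool} {s : List (α × Bool)}
    (hs : FreeGroup.IsReduced (l :: s)) : Red p (p (iv l)) s := by
  induction s generalizing l with
  | nil => trivial
  | cons b s ih =>
    rw [FreeGroup.isReduced_cons_cons] at hs
    refine ⟨fun h1 => ?_, ih hs.2⟩
    have h2 := h.inj h1
    subst h2
    have h3 := hs.1 rfl
    have h4 : (iv l).2 = !l.2 := rfl
    rw [h4] at h3
    cases hl : l.2 <;> rw [hl] at h3 <;> simp at h3

lemma red_word (h : Arr n p) (x : FreeGroup α) : Red p 0 x.toWord := by
  have h1 : FreeGroup.IsReduced x.toWord := FreeGroup.isReduced_toWord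
  cases hx : x.toWord with
  | nil => trivial
  | cons l s =>
    rw [hx] at h1
    exact ⟨(h.lo l).ne', isReduced_red h h1⟩

lemma word_mk {q : ℕ} {s : List (α × Bool)} (hs : Red p q s) : (FreeGroup.mk s).toWord = s := by
  rw [FreeGroup.toWord_mk, (red_isReduced hs).reduce_eq]

/-- a path that keeps to the first direction -/
def Pth (p : α × Bool → ℕ) : ℕ → List (α × Bool) → Prop
  | _, [] => True
  | q, l :: s => p l = q + 1 ∧ Pth p (p (iv l)) s

/-- a path that keeps to the last direction -/
def Pth' (p : α × Bool → ℕ) : ℕ → List (α × Bool) → Prop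
  | _, [] => True
  | q, l :: s => p l + 1 = q ∧ Pth' p (p (iv l)) s

lemma Pth.red {q : ℕ} {s : List (α × Bool)} (hs : Pth p q s) : Red p q s := by
  induction s generalizing q with
  | nil => trivial
  | cons l s ih => exact ⟨by rw [hs.1]; omega, ih hs.2⟩

lemma Pth'.red {q : ℕ} {s : List (α × Bool)} (hs : Pth' p q s) : Red p q s := by
  induction s generalizing q with
  | nil => trivial
  | cons l s ih => exact ⟨by have := hs.1; omega, ih hs.2⟩

lemma Pth.append {q : ℕ} {s t : List (α × Bool)} (hs : Pth p q s) (ht : Pth p (inc p q s) t) :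
    Pth p q (s ++ t) := by
  induction s generalizing q with
  | nil => exact ht
  | cons l s ih => exact ⟨hs.1, ih hs.2 ht⟩

lemma Pth'.append {q : ℕ} {s t : List (α × Bool)} (hs : Pth' p q s) (ht : Pth' p (inc p q s) t) :
    Pth' p q (s ++ t) := by
  induction s generalizing q with
  | nil => exact ht
  | cons l s ih => exact ⟨hs.1, ih hs.2 ht⟩

/-- first paths are minimal -/
lemma Pth.min (h : Arr n p) {q : ℕ} (hq : q < n) (hq0 : 0 < q) {s w : List (α × Bool)}
    (hs : Pth p q s) (hw : Red p q w) (hne : ¬ s <+: w) (X : List (α × Bool)) :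
    ltp n p q (s ++ X) w := by
  induction s generalizing q w with
  | nil => exact absurd (List.nil_prefix) hne
  | cons l s ih =>
    obtain ⟨h1, h2⟩ := hs
    have h3 := h.hi l
    cases w with
    | nil =>
      refine ltp_lt h hq ?_
      simp only [List.cons_append, hd]
      rw [key_val hq h3, key_val hq h.n0]
      split_ifs <;> omega
    | cons m w =>
      by_cases hlm : l = m
      · subst hlm
        rw [List.cons_append, ltp_cons]
        exact ih (h.hi _) (h.lo _) h2 hw.2 (fun h5 => hne (List.cons_prefix_cons.2 ⟨rfl, h5⟩))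
      · refine ltp_lt h hq ?_
        have h4 := h.hi m
        have h5 : p l ≠ p m := fun h6 => hlm (h.inj h6)
        have h6 := hw.1
        simp only [List.cons_append, hd]
        rw [key_val hq h3, key_val hq h4]
        split_ifs <;> omega

/-- last paths are maximal -/
lemma Pth'.max (h : Arr n p) {q : ℕ} (hq : q < n) {s w : List (α × Bool)}
    (hs : Pth' p q s) (hw : Red p q w) (hne : ¬ s <+: w) (X : List (α × Bool)) :
    ltp n p q w (s ++ X) := by
  induction s generalizing q w with
  | nil => exact absurd (List.nil_prefix) hne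
  | cons l s ih =>
    obtain ⟨h1, h2⟩ := hs
    have h3 := h.hi l
    have h3' := h.lo l
    cases w with
    | nil =>
      refine ltp_lt h hq ?_
      simp only [List.cons_append, hd]
      rw [key_val hq h3, key_val hq h.n0]
      split_ifs <;> omega
    | cons m w =>
      by_cases hlm : l = m
      · subst hlm
        rw [List.cons_append, ltp_cons]
        exact ih (h.hi _) h2 hw.2 (fun h5 => hne (List.cons_prefix_cons.2 ⟨rfl, h5⟩))
      · refine ltp_lt h hq ?_
        have h4 := h.hi m
        have h5 : p l ≠ p m := fun h6 => hlm (h.inj h6)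
        have h6 := hw.1
        simp only [List.cons_append, hd]
        rw [key_val hq h3, key_val hq h4]
        split_ifs <;> omega

lemma prefix_of_append {P : α × Bool → Prop} {s A R : List (α × Bool)} (hs : ∀ l ∈ s, P l)
    (hR : R = [] ∨ ∃ b R', R = b :: R' ∧ ¬ P b) (h : s <+: A ++ R) : s <+: A := by
  induction A generalizing s with
  | nil =>
    cases s with
    | nil => exact List.nil_prefix
    | cons l s =>
      exfalso
      rcases hR with rfl | ⟨b, R', rfl, hb⟩
      · simp at h
      · rw [List.nil_append, List.cons_prefix_cons] at h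
        exact hb (h.1 ▸ hs l List.mem_cons_self)
  | cons a A ih =>
    cases s with
    | nil => exact List.nil_prefix
    | cons l s =>
      rw [List.cons_append, List.cons_prefix_cons] at h
      rw [List.cons_prefix_cons]
      exact ⟨h.1, ih (fun l hl => hs l (List.mem_cons_of_mem _ hl)) h.2⟩

/-- powers of a word -/
def rep (m : ℕ) (z : List (α × Bool)) : List (α × Bool) := (List.replicate m z).flatten

lemma rep_zero (z : List (α × Bool)) : rep 0 z = [] := rfl

lemma rep_succ (m : ℕ) (z : List (α × Bool)) : rep (m + 1) z = z ++ rep m z := by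
  unfold rep
  rw [List.replicate_succ, List.flatten_cons]

lemma mk_app' (s t : List (α × Bool)) :
    FreeGroup.mk (s ++ t) = (FreeGroup.mk s * FreeGroup.mk t : FreeGroup α) := by
  rw [FreeGroup.mul_mk]

lemma mk_rep (m : ℕ) (z : List (α × Bool)) :
    (FreeGroup.mk (rep m z) : FreeGroup α) = (FreeGroup.mk z) ^ m := by
  induction m with
  | zero => rfl
  | succ m ih => rw [rep_succ, mk_app', ih, pow_succ']

end general

end Pool.Agent.Helper23.MCG
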