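import Pool.Agent.Helper23.MCG.Final

/-!
# The definitions are not vacuous: genus one
-/

set_option autoImplicit false
set_option linter.unusedSectionVars false
set_option linter.style.haveILetI false

namespace Pool.Agent.Helper23.MCG

open Equiv Equiv.Perm Pool.Agent.N513.PF
open Pool.Agent.Results.MP_294da1_gt.HigmanBound

namespace Torus

/-- the darts are `x, x⁻¹, y, y⁻¹`, the edge `h` from their vertex to the base, and `h⁻¹` -/
def Γ₁ : SMap (Fin 6) where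
  rot := ⟨![3, 2, 4, 1, 0, 5], ![4, 3, 1, 0, 2, 5], by decide, by decide⟩
  inv := ⟨![1, 0, 3, 2, 5, 4], ![1, 0, 3, 2, 5, 4], by decide, by decide⟩
  inv_inv := by decide
  inv_ne := by decide
  base := 5

abbrev x : F 1 := FreeGroup.of (0, false)
abbrev y : F 1 := FreeGroup.of (0, true)

def ℓ₁ : Fin 6 → F 1 := ![x, x⁻¹, y, y⁻¹, 1, 1]

lemma zeta_one : zeta 1 = x * y * x⁻¹ * y⁻¹ := by
  unfold zeta
  rw [show List.finRange 1 = [0] from rfl, List.map_cons, List.map_nil, List.prod_cons,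
    List.prod_nil, mul_one]

lemma f5 : Γ₁.face 5 = 0 := by decide
lemma f0 : Γ₁.face 0 = 2 := by decide
lemma f2 : Γ₁.face 2 = 1 := by decide
lemma f1 : Γ₁.face 1 = 3 := by decide
lemma f3 : Γ₁.face 3 = 4 := by decide
lemma f4 : Γ₁.face 4 = 5 := by decide

lemma face_all (d : Fin 6) : Γ₁.face.SameCycle 5 d := by
  have h0 : Γ₁.face.SameCycle 5 0 := by rw [← f5]; exact sc_apply _
  have h2 : Γ₁.face.SameCycle 5 2 := by rw [← f0]; exact h0.trans (sc_apply _)
  have h1 : Γ₁.face.SameCycle 5 1 := by rw [← f2]; exact h2.trans (sc_apply _)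
  have h3 : Γ₁.face.SameCycle 5 3 := by rw [← f1]; exact h1.trans (sc_apply _)
  have h4 : Γ₁.face.SameCycle 5 4 := by rw [← f3]; exact h3.trans (sc_apply _)
  fin_cases d
  · exact h0
  · exact h1
  · exact h2
  · exact h3
  · exact h4
  · exact SameCycle.refl _ _

lemma rot_all (d : Fin 6) (hd : d ≠ 5) : Γ₁.rot.SameCycle 0 d := by
  have h3 : Γ₁.rot.SameCycle 0 3 := sc_apply (f := Γ₁.rot) 0
  have h1 : Γ₁.rot.SameCycle 0 1 := h3.trans (sc_apply (f := Γ₁.rot) 3)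
  have h2 : Γ₁.rot.SameCycle 0 2 := h1.trans (sc_apply (f := Γ₁.rot) 1)
  have h4 : Γ₁.rot.SameCycle 0 4 := h2.trans (sc_apply (f := Γ₁.rot) 2)
  fin_cases d
  · exact SameCycle.refl _ _
  · exact h1
  · exact h2
  · exact h3
  · exact h4
  · exact absurd rfl hd

lemma rot_five (d d' : Fin 6) (h : Γ₁.rot.SameCycle d d') : (d = 5) = (d' = 5) :=
  vfun_sc (f := Γ₁.rot) (g := fun d => d = 5) (by decide) h

lemma conn : Γ₁.Connected := by
  intro S hS hr hi
  have hf : ∀ d ∈ S, Γ₁.face d ∈ S := fun d hd => hr _ (hi _ hd)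
  have hsc : ∀ d d', Γ₁.face.SameCycle d d' → d ∈ S → d' ∈ S := by
    intro d d' h
    exact sc_of_rel (f := Γ₁.face) (R := fun d d' => d ∈ S → d' ∈ S) (fun _ h => h)
      (fun _ _ _ h1 h2 h3 => h2 (h1 h3)) hf h
  obtain ⟨d, hd⟩ := hS
  rw [Set.eq_univ_iff_forall]
  intro e
  exact hsc d e ((face_all d).symm.trans (face_all e)) hd

lemma genus : Γ₁.HasGenus 1 := by
  have h1 : nc Γ₁.face = 1 := by
    refine le_antisymm (nc_le_one 5 face_all) ?_
    unfold nc
    haveI : Nonempty (Quotient (SameCycle.setoid Γ₁.face)) := ⟨Quotient.mk _ 5⟩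
    haveI : Finite (Quotient (SameCycle.setoid Γ₁.face)) := Quotient.finite _
    exact Nat.card_pos
  have h2 : nc Γ₁.rot = 2 := by
    unfold nc
    let G : Quotient (SameCycle.setoid Γ₁.rot) → Bool := Quotient.lift (fun d => decide (d = 5))
      (fun a b h => by
        have := rot_five a b h
        simp [this])
    have hG : Function.Bijective G := by
      constructor
      · intro a b
        induction a using Quotient.inductionOn with | _ a
        induction b using Quotient.inductionOn with | _ b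
        intro h
        have h' : (decide (a = 5)) = (decide (b = 5)) := h
        rw [decide_eq_decide] at h'
        by_cases ha : a = 5
        · rw [ha, h'.1 ha]
        · have hb : b ≠ 5 := fun hb => ha (h'.2 hb)
          exact Quotient.sound ((rot_all a ha).symm.trans (rot_all b hb))
      · intro b
        cases b
        · exact ⟨Quotient.mk _ 0, rfl⟩
        · exact ⟨Quotient.mk _ 5, rfl⟩
    rw [Nat.card_eq_of_bijective G hG, Nat.card_eq_fintype_card, Fintype.card_bool]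
  unfold SMap.HasGenus
  rw [h1, h2, Nat.card_eq_fintype_card, Fintype.card_fin]

lemma lab : Γ₁.IsLab ℓ₁ (zeta 1) := by
  refine ⟨?_, ![1, x * y, x, x * y * x⁻¹, x * y * x⁻¹ * y⁻¹, 1], rfl, ?_, ?_⟩
  · intro d
    fin_cases d
    · rfl
    · exact (inv_inv x).symm
    · rfl
    · exact (inv_inv y).symm
    · exact inv_one.symm
    · exact inv_one.symm
  · intro d hd
    fin_cases d
    · show x = 1 * x
      rw [one_mul]
    · rfl
    · rfl
    · rfl
    · exact absurd rfl hd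
    · show (1 : F 1) = 1 * 1
      rw [one_mul]
  · intro d hd
    fin_cases d
    · exact absurd hd (by decide)
    · exact absurd hd (by decide)
    · exact absurd hd (by decide)
    · exact absurd hd (by decide)
    · show x * y * x⁻¹ * y⁻¹ * 1 = zeta 1
      rw [zeta_one, mul_one]
    · exact absurd hd (by decide)

lemma marking : Γ₁.IsMarking ℓ₁ := by
  refine ⟨lab, fun H _ m z hm => ?_⟩
  have hm1 : m 1 = (m 0)⁻¹ := hm.1 0
  have hm3 : m 3 = (m 2)⁻¹ := hm.1 2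
  have hm5 : m 5 = (m 4)⁻¹ := hm.1 4
  let θ : F 1 →* H := FreeGroup.lift fun a => if a.2 then (m 4)⁻¹ * m 2 * m 4 else (m 4)⁻¹ * m 0 * m 4
  have hx : θ x = (m 4)⁻¹ * m 0 * m 4 := by simp [θ, x]
  have hy : θ y = (m 4)⁻¹ * m 2 * m 4 := by simp [θ, y]
  refine ⟨θ, ⟨fun d => if d = 5 then 1 else (m 4)⁻¹, ?_, ?_, ?_⟩, ?_⟩
  · intro d
    fin_cases d <;> rfl
  · rfl
  · intro d
    fin_cases d
    · show θ x = (m 4)⁻¹ * m 0 * ((m 4)⁻¹)⁻¹
      rw [hx, inv_inv]
    · show θ (x⁻¹) = (m 4)⁻¹ * m 1 * ((m 4)⁻¹)⁻¹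
      rw [map_inv, hx, hm1]
      group
    · show θ y = (m 4)⁻¹ * m 2 * ((m 4)⁻¹)⁻¹
      rw [hy, inv_inv]
    · show θ (y⁻¹) = (m 4)⁻¹ * m 3 * ((m 4)⁻¹)⁻¹
      rw [map_inv, hy, hm3]
      group
    · show θ 1 = (m 4)⁻¹ * m 4 * (1 : H)⁻¹
      rw [map_one]
      group
    · show θ 1 = 1 * m 5 * ((m 4)⁻¹)⁻¹
      rw [map_one, hm5]
      group
  · rintro θ' ⟨f, g1, g2, g3⟩
    have g2' : f 5 = 1 := g2
    have g4 : f 4 = f 0 := (g1 4).symm
    have g0 : f 1 = f 0 := (g1 3).trans (g1 0)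
    have g22 : f 2 = f 0 := (g1 1).trans g0
    have g33 : f 3 = f 0 := g1 0
    have k4 : θ' 1 = f 4 * m 4 * (f 5)⁻¹ := g3 4
    rw [map_one, g2', g4, inv_one, mul_one] at k4
    have k5 : f 0 = (m 4)⁻¹ := eq_inv_of_mul_eq_one_left k4.symm
    refine FreeGroup.ext_hom _ _ fun a => ?_
    obtain ⟨i, b⟩ := a
    obtain rfl : i = 0 := Subsingleton.elim _ _
    cases b
    · have k0 : θ' x = f 0 * m 0 * (f 1)⁻¹ := g3 0
      show θ' x = θ x
      rw [k0, hx, g0, k5, inv_inv]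
    · have k0 : θ' y = f 2 * m 2 * (f 3)⁻¹ := g3 2
      show θ' y = θ y
      rw [k0, hy, g22, g33, k5, inv_inv]

/-- the curve `x` -/
def cx : Γ₁.Curve where
  n := 0
  dart := fun _ => 0
  chain := fun _ => (rot_all 1 (by decide)).symm
  simple := fun _ _ _ => Subsingleton.elim (α := Fin 1) _ _
  noback := fun _ _ => by decide
  base := fun _ h => absurd ((rot_five 5 0 h).mp rfl) (by decide)

/-- the curve `y` -/
def cy : Γ₁.Curve where
  n := 0
  dart := fun _ => 2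
  chain := fun _ => (rot_all 3 (by decide)).symm.trans (rot_all 2 (by decide))
  simple := fun _ _ _ => Subsingleton.elim (α := Fin 1) _ _
  noback := fun _ _ => by decide
  base := fun _ h => absurd ((rot_five 5 2 h).mp rfl) (by decide)

lemma pw (t : ℕ) (d : Fin 6) : (Γ₁.rot ^ (t + 1)) d = (Γ₁.rot ^ t) (Γ₁.rot d) := by
  rw [pow_succ, Perm.mul_apply]

lemma left_x (d : Fin 6) : cx.Left d ↔ d = 2 ∨ d = 4 := by
  constructor
  · rintro ⟨i, t, h1, h2⟩
    have h1' : d = (Γ₁.rot ^ (t + 1)) 1 := h1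
    have h2' : ∀ s ≤ t, (Γ₁.rot ^ (s + 1)) 1 ≠ 0 := h2
    match t, h1', h2' with
    | 0, h1', _ => left; rw [h1']; decide
    | 1, h1', _ => right; rw [h1']; decide
    | t + 2, _, h2' => exact absurd (by decide) (h2' 2 (by omega))
  · rintro (rfl | rfl)
    · exact ⟨0, 0, by decide, fun s hs => by
        obtain rfl : s = 0 := by omega
        decide⟩
    · exact ⟨0, 1, by decide, fun s hs => by
        have : s = 0 ∨ s = 1 := by omega
        rcases this with rfl | rfl <;> decide⟩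

lemma left_y (d : Fin 6) : cy.Left d ↔ d = 1 := by
  constructor
  · rintro ⟨i, t, h1, h2⟩
    have h1' : d = (Γ₁.rot ^ (t + 1)) 3 := h1
    have h2' : ∀ s ≤ t, (Γ₁.rot ^ (s + 1)) 3 ≠ 2 := h2
    match t, h1', h2' with
    | 0, h1', _ => rw [h1']; decide
    | t + 1, _, h2' => exact absurd (by decide) (h2' 1 (by omega))
  · rintro rfl
    exact ⟨0, 0, by decide, fun s hs => by
        obtain rfl : s = 0 := by omega
        decide⟩

lemma loop_x : cx.loop ℓ₁ 0 = x := by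
  unfold SMap.Curve.loop
  show ((List.range 1).map fun _ => x).prod = x
  simp

lemma loop_y : cy.loop ℓ₁ 0 = y := by
  unfold SMap.Curve.loop
  show ((List.range 1).map fun _ => y).prod = y
  simp

lemma loop_x' (i : ZMod (cx.n + 1)) : cx.loop ℓ₁ i = x := by
  have : i = 0 := Subsingleton.elim (α := Fin 1) _ _
  rw [this, loop_x]

lemma loop_y' (i : ZMod (cy.n + 1)) : cy.loop ℓ₁ i = y := by
  have : i = 0 := Subsingleton.elim (α := Fin 1) _ _
  rw [this, loop_y]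

/-! ### the twists -/

/-- the twist about `x` -/
abbrev Tx : MulAut (F 1) := twist 0

lemma Tx_x : Tx x = x := tHom_x (g := 1) 0 (FreeGroup.of (0, false))

lemma Tx_y : Tx y = y * x := by
  show tHom (g := 1) 0 (FreeGroup.of (0, false)) (FreeGroup.of (0, true)) = _
  unfold tHom
  rw [FreeGroup.lift_apply_of, if_pos rfl]

/-- the homomorphism `x ↦ x v` -/
def yHom (v : F 1) : F 1 →* F 1 := FreeGroup.lift fun a => if a.2 then y else x * v

lemma yHom_x (v : F 1) : yHom v x = x * v := by simp [yHom, x]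
lemma yHom_y (v : F 1) : yHom v y = y := by simp [yHom, y]

lemma hom_ext {θ θ' : F 1 →* F 1} (hx : θ x = θ' x) (hy : θ y = θ' y) : θ = θ' := by
  refine FreeGroup.ext_hom _ _ fun a => ?_
  obtain ⟨i, b⟩ := a
  obtain rfl : i = 0 := Subsingleton.elim _ _
  cases b
  · exact hx
  · exact hy

lemma aut_ext {θ θ' : MulAut (F 1)} (hx : θ x = θ' x) (hy : θ y = θ' y) : θ = θ' := by
  have := hom_ext (θ := θ.toMonoidHom) (θ' := θ'.toMonoidHom) hx hy
  ext u
  exact DFunLike.congr_fun this u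

/-- the twist about `y`: `x ↦ x y⁻¹` -/
def Ty : MulAut (F 1) := MonoidHom.toMulEquiv (yHom y⁻¹) (yHom y)
  (hom_ext (by
    rw [MonoidHom.comp_apply, yHom_x, map_mul, yHom_x, map_inv, yHom_y, mul_inv_cancel_right]; rfl)
    (by rw [MonoidHom.comp_apply, yHom_y, yHom_y]; rfl))
  (hom_ext (by
    rw [MonoidHom.comp_apply, yHom_x, map_mul, yHom_x, yHom_y, inv_mul_cancel_right]; rfl)
    (by rw [MonoidHom.comp_apply, yHom_y, yHom_y]; rfl))

lemma Ty_x : Ty x = x * y⁻¹ := yHom_x y⁻¹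
lemma Ty_y : Ty y = y := yHom_y y⁻¹

lemma Ty_mem : Ty ∈ M 1 := by
  show Ty (zeta 1) = zeta 1
  rw [zeta_one]
  simp only [map_mul, map_inv, Ty_x, Ty_y]
  group

lemma braid : Ty * Tx * Ty = Tx * Ty * Tx := by
  apply aut_ext
  · simp only [MulAut.mul_apply, map_mul, map_inv, Ty_x, Ty_y, Tx_x, Tx_y]
    group
  · simp only [MulAut.mul_apply, map_mul, map_inv, Ty_x, Ty_y, Tx_x, Tx_y]
    group

lemma isTwist_x : IsTwist Tx := ⟨1, (M 1).one_mem, 0, by group⟩

lemma isTwist_y : IsTwist Ty := by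
  refine ⟨Tx * Ty, (M 1).mul_mem (twist_mem 0) Ty_mem, 0, ?_⟩
  have h := braid
  rw [← h]
  group

/-- the chain relation -/
lemma chain_rel : (Tx * Ty) ^ 6 = boundaryTwist 1 := by
  have b : ∀ u, boundaryTwist 1 u = (zeta 1)⁻¹ * u * zeta 1 := fun u => by
    show (zeta 1)⁻¹ * u * ((zeta 1)⁻¹)⁻¹ = _
    rw [inv_inv]
  have h3 : (Tx * Ty) ^ 6 = ((Tx * Ty) ^ 3) * ((Tx * Ty) ^ 3) := by rw [← pow_add]
  have hx : ((Tx * Ty) ^ 3) x = y * x⁻¹ * y⁻¹ := by
    simp only [pow_succ, pow_zero, one_mul, MulAut.mul_apply, map_mul, map_inv, Ty_x, Ty_y, Tx_x, Tx_y]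
    group
  have hy : ((Tx * Ty) ^ 3) y = y * x * y⁻¹ * x⁻¹ * y⁻¹ := by
    simp only [pow_succ, pow_zero, one_mul, MulAut.mul_apply, map_mul, map_inv, Ty_x, Ty_y, Tx_x, Tx_y]
    group
  rw [h3]
  apply aut_ext
  · rw [MulAut.mul_apply, hx, b, zeta_one]
    simp only [map_mul, map_inv, hx, hy]
    group
  · rw [MulAut.mul_apply, hy, b, zeta_one]
    simp only [map_mul, map_inv, hx, hy]
    group

lemma twistOf_x : IsTwistOf ℓ₁ cx Tx := by
  classical
  refine ⟨_, ⟨fun d => if d = 5 then 1 else x, ?_, ?_, fun d => rfl⟩,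
    fun d => if d = 5 then 1 else x⁻¹, ?_, rfl, ?_⟩
  · intro d
    fin_cases d <;> rfl
  · intro i
    rw [loop_x']
    rfl
  · intro d
    fin_cases d <;> rfl
  · intro d
    simp only [left_x]
    fin_cases d
    · show Tx x = x⁻¹ * (1 * x * (1 : F 1)⁻¹) * (x⁻¹)⁻¹
      rw [Tx_x]
      group
    · show Tx (x⁻¹) = x⁻¹ * (1 * x⁻¹ * (1 : F 1)⁻¹) * (x⁻¹)⁻¹
      rw [map_inv, Tx_x]
      group
    · show Tx y = x⁻¹ * (x * y * (1 : F 1)⁻¹) * (x⁻¹)⁻¹
      rw [Tx_y]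
      group
    · show Tx (y⁻¹) = x⁻¹ * (1 * y⁻¹ * (x : F 1)⁻¹) * (x⁻¹)⁻¹
      rw [map_inv, Tx_y]
      group
    · show Tx 1 = x⁻¹ * (x * 1 * (1 : F 1)⁻¹) * (1 : F 1)⁻¹
      rw [map_one]
      group
    · show Tx 1 = 1 * (1 * 1 * (x : F 1)⁻¹) * (x⁻¹)⁻¹
      rw [map_one]
      group

lemma twistOf_y : IsTwistOf ℓ₁ cy Ty := by
  classical
  refine ⟨_, ⟨fun d => if d = 5 then 1 else y, ?_, ?_, fun d => rfl⟩,
    fun d => 1, fun _ => rfl, rfl, ?_⟩
  · intro d
    fin_cases d <;> rfl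
  · intro i
    rw [loop_y']
    rfl
  · intro d
    simp only [left_y]
    fin_cases d
    · show Ty x = 1 * (1 * x * (y : F 1)⁻¹) * (1 : F 1)⁻¹
      rw [Ty_x]
      group
    · show Ty (x⁻¹) = 1 * (y * x⁻¹ * (1 : F 1)⁻¹) * (1 : F 1)⁻¹
      rw [map_inv, Ty_x]
      group
    · show Ty y = 1 * (1 * y * (1 : F 1)⁻¹) * (1 : F 1)⁻¹
      rw [Ty_y]
      group
    · show Ty (y⁻¹) = 1 * (1 * y⁻¹ * (1 : F 1)⁻¹) * (1 : F 1)⁻¹
      rw [map_inv, Ty_y]
      group
    · show Ty 1 = 1 * (1 * 1 * (1 : F 1)⁻¹) * (1 : F 1)⁻¹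
      rw [map_one]
      group
    · show Ty 1 = 1 * (1 * 1 * (1 : F 1)⁻¹) * (1 : F 1)⁻¹
      rw [map_one]
      group

lemma on_x (d : Fin 6) : cx.On d ↔ d = 0 ∨ d = 1 :=
  ⟨fun ⟨_, h⟩ => h, fun h => ⟨0, h⟩⟩

lemma on_y (d : Fin 6) : cy.On d ↔ d = 2 ∨ d = 3 :=
  ⟨fun ⟨_, h⟩ => h, fun h => ⟨0, h⟩⟩

lemma meet_xy : cx.MeetOnce cy := by
  refine ⟨fun i j i' j' _ _ => ⟨Subsingleton.elim (α := Fin 1) _ _, Subsingleton.elim (α := Fin 1) _ _⟩,
    fun i j _ => ?_⟩
  show ¬ cx.On 2 ∧ ¬ cx.On 3 ∧ (cx.Left 2 ↔ ¬ cx.Left 3)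
  simp only [on_x, left_x]
  decide

lemma meet_yx : cy.MeetOnce cx := by
  refine ⟨fun i j i' j' _ _ => ⟨Subsingleton.elim (α := Fin 1) _ _, Subsingleton.elim (α := Fin 1) _ _⟩,
    fun i j _ => ?_⟩
  show ¬ cy.On 0 ∧ ¬ cy.On 1 ∧ (cy.Left 0 ↔ ¬ cy.Left 1)
  simp only [on_y, left_y]
  decide

/-- exponent sums -/
def ex (b : Bool) : F 1 →* Multiplicative ℤ :=
  FreeGroup.lift fun a => if a.2 = b then Multiplicative.ofAdd 1 else 1

lemma not_conj : ¬ IsConj x y ∧ ¬ IsConj x y⁻¹ ∧ ¬ IsConj y x ∧ ¬ IsConj y x⁻¹ ∧ x ≠ 1 ∧ y ≠ 1 := by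
  have e1 : ex false x = Multiplicative.ofAdd 1 := by simp [ex, x]
  have e2 : ex false y = 1 := by simp [ex, y]
  have e3 : ex true x = 1 := by simp [ex, x]
  have e4 : ex true y = Multiplicative.ofAdd 1 := by simp [ex, y]
  have hne : (Multiplicative.ofAdd 1 : Multiplicative ℤ) ≠ 1 := by
    intro h
    have : (1 : ℤ) = 0 := Multiplicative.ofAdd.injective h
    omega
  refine ⟨fun h => ?_, fun h => ?_, fun h => ?_, fun h => ?_, fun h => ?_, fun h => ?_⟩
  · have := isConj_iff_eq.1 (MonoidHom.map_isConj (ex false) h)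
    rw [e1, e2] at this
    exact hne this
  · have := isConj_iff_eq.1 (MonoidHom.map_isConj (ex false) h)
    rw [map_inv, e1, e2, inv_one] at this
    exact hne this
  · have := isConj_iff_eq.1 (MonoidHom.map_isConj (ex true) h)
    rw [e3, e4] at this
    exact hne this
  · have := isConj_iff_eq.1 (MonoidHom.map_isConj (ex true) h)
    rw [map_inv, e3, e4, inv_one] at this
    exact hne this
  · have := congrArg (ex false) h
    rw [e1, MonoidHom.map_one] at this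
    exact hne this
  · have := congrArg (ex true) h
    rw [e4, MonoidHom.map_one] at this
    exact hne this

/-- the restricted factorization of length 12 in genus one -/
theorem restricted (P : MulAut (F 1) → Prop) (hx : P Tx) (hy : P Ty) :
    ∃ w : List (MulAut (F 1)), RestrictedP 1 P w ∧ w.prod = boundaryTwist 1 ^ (1 : ℤ) ∧
      w.length = 12 := by
  obtain ⟨n1, n2, n3, n4, n5, n6⟩ := not_conj
  refine ⟨(List.replicate 6 [Tx, Ty]).flatten, ⟨6, Γ₁, ℓ₁, 2, ![cx, cy], ![Tx, Ty], conn, genus,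
    marking, ⟨?_, ?_, ?_⟩, ?_, ?_, ?_, ?_⟩, ?_, ?_⟩
  · intro d
    by_cases hd : d = 5
    · exact Or.inl (hd ▸ SameCycle.refl _ _)
    · exact Or.inr ⟨0, 0, rot_all d hd⟩
  · intro j
    fin_cases j
    · exact Or.inl rfl
    · exact Or.inl rfl
  · intro d _
    exact (face_all d).symm.trans (face_all _)
  · intro j
    fin_cases j
    · show cx.loop ℓ₁ 0 ≠ 1
      rw [loop_x]
      exact n5
    · show cy.loop ℓ₁ 0 ≠ 1
      rw [loop_y]
      exact n6
  · intro i j hij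
    fin_cases i <;> fin_cases j
    · exact absurd rfl hij
    · refine ⟨meet_xy, ?_⟩
      show ¬ IsConj (cx.loop ℓ₁ 0) (cy.loop ℓ₁ 0) ∧ ¬ IsConj (cx.loop ℓ₁ 0) (cy.loop ℓ₁ 0)⁻¹
      rw [loop_x, loop_y]
      exact ⟨n1, n2⟩
    · refine ⟨meet_yx, ?_⟩
      show ¬ IsConj (cy.loop ℓ₁ 0) (cx.loop ℓ₁ 0) ∧ ¬ IsConj (cy.loop ℓ₁ 0) (cx.loop ℓ₁ 0)⁻¹
      rw [loop_x, loop_y]
      exact ⟨n3, n4⟩
    · exact absurd rfl hij
  · intro j
    fin_cases j
    · exact ⟨hx, twistOf_x⟩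
    · exact ⟨hy, twistOf_y⟩
  · intro t ht
    obtain ⟨l, hl, htl⟩ := List.mem_flatten.1 ht
    rw [List.eq_of_mem_replicate hl] at htl
    simp only [List.mem_cons, List.not_mem_nil, or_false] at htl
    rcases htl with rfl | rfl
    · exact ⟨0, rfl⟩
    · exact ⟨1, rfl⟩
  · rw [zpow_one, ← chain_rel, List.prod_flatten, List.map_replicate, List.prod_replicate]
    simp
  · rfl

end Torus

end Pool.Agent.Helper23.MCG
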