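import Pool.Agent.Helper23.MCG.Path

/-!
# The separating twists are positive for the planar order
-/

set_option autoImplicit false
set_option linter.unusedSectionVars false

namespace Pool.Agent.Helper23.MCG

open Pool.Agent.N513.PF Pool.Agent.Results.MP_294da1_gt.HigmanBound

section spec

variable {g h : ℕ}

/-- the letters of the first handles -/
def inH (h : ℕ) (l : (Fin g × Bool) × Bool) : Prop := l.1.1.val < h

lemma inH_iff (l : (Fin g × Bool) × Bool) : inH h l ↔ pos0 g l ≤ 4 * h := by
  obtain ⟨⟨⟨i, hi⟩, b⟩, s⟩ := l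
  unfold inH pos0
  cases b <;> cases s <;> simp <;> omega

lemma inH_iv (l : (Fin g × Bool) × Bool) : inH h (iv l) ↔ inH h l := Iff.rfl

/-- the word of `ζ` -/
def Zh (g h : ℕ) : List ((Fin g × Bool) × Bool) := ((List.finRange g).take h).flatMap blk

/-- the inverse of a block -/
def blkI (i : Fin g) : List ((Fin g × Bool) × Bool) :=
  [((i, true), true), ((i, false), true), ((i, true), false), ((i, false), false)]

/-- the word of `ζ⁻¹` -/
def ZI (g h : ℕ) : List ((Fin g × Bool) × Bool) := ((List.finRange g).take h).reverse.flatMap blkI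

lemma mk_blk (i : Fin g) : FreeGroup.mk (blk i) = FreeGroup.of (i, false) * FreeGroup.of (i, true) *
    (FreeGroup.of (i, false))⁻¹ * (FreeGroup.of (i, true))⁻¹ := rfl

lemma mk_blkI (i : Fin g) : FreeGroup.mk (blkI i) = (FreeGroup.mk (blk i))⁻¹ := by
  rw [mk_blk]
  have : FreeGroup.mk (blkI i) = FreeGroup.of (i, true) * FreeGroup.of (i, false) *
    (FreeGroup.of (i, true))⁻¹ * (FreeGroup.of (i, false))⁻¹ := rfl
  rw [this]
  group

lemma mk_Zh (g h : ℕ) : FreeGroup.mk (Zh g h) = zetaH g h := by
  unfold Zh zetaH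
  generalize (List.finRange g).take h = is
  induction is with
  | nil => rfl
  | cons i is ih =>
    rw [List.flatMap_cons, mk_app', ih, List.map_cons, List.prod_cons, mk_blk]

lemma mk_ZI (g h : ℕ) : FreeGroup.mk (ZI g h) = (zetaH g h)⁻¹ := by
  rw [← mk_Zh]
  unfold Zh ZI
  generalize (List.finRange g).take h = is
  induction is with
  | nil => rfl
  | cons i is ih =>
    rw [List.flatMap_cons, List.reverse_cons, List.flatMap_append, mk_app', ih, mk_app', mul_inv_rev]
    congr 1

lemma pth_aux (is : List (Fin g)) : ∀ k : ℕ,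
    (∀ (j : ℕ) (hj : j < is.length), (is[j]).val = k + j) →
    Pth (pos0 g) (4 * k) (is.flatMap blk) ∧
      inc (pos0 g) (4 * k) (is.flatMap blk) = 4 * (k + is.length) := by
  induction is with
  | nil =>
    intro k _
    exact ⟨trivial, rfl⟩
  | cons i is ih =>
    intro k h1
    have hi : i.val = k := by
      have := h1 0 (by simp)
      simpa using this
    have h3 := ih (k + 1) (fun j hj => by
      have := h1 (j + 1) (by simp; omega)
      simp only [List.getElem_cons_succ] at this
      omega)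
    have e : pos0 g (iv ((i, true), false)) = 4 * (k + 1) := by
      simp only [pos0, iv, hi]
      simp
      ring
    rw [List.flatMap_cons]
    refine ⟨⟨?_, ?_, ?_, ?_, ?_⟩, ?_⟩
    · simp [pos0, hi]
    · simp [pos0, hi, iv]
    · simp [pos0, hi, iv]
    · simp [pos0, hi, iv]
    · rw [e]
      exact h3.1
    · show inc (pos0 g) (pos0 g (iv ((i, true), false))) (is.flatMap blk) = _
      rw [e, h3.2, List.length_cons]
      ring

lemma pth'_aux (is : List (Fin g)) : ∀ k : ℕ,
    (∀ (j : ℕ) (hj : j < is.length), (is[j]).val + j + 1 = k) → is.length ≤ k →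
    Pth' (pos0 g) (4 * k + 1) (is.flatMap blkI) ∧
      inc (pos0 g) (4 * k + 1) (is.flatMap blkI) = 4 * (k - is.length) + 1 := by
  induction is with
  | nil =>
    intro k _ _
    exact ⟨trivial, rfl⟩
  | cons i is ih =>
    intro k h1 h2
    have hi : i.val + 1 = k := by
      have := h1 0 (by simp)
      simpa using this
    rw [List.length_cons] at h2
    have h3 := ih (k - 1) (fun j hj => by
      have := h1 (j + 1) (by simp; omega)
      simp only [List.getElem_cons_succ] at this
      omega) (by omega)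
    have e : pos0 g (iv ((i, false), false)) = 4 * (k - 1) + 1 := by
      simp only [pos0, iv]
      simp
      omega
    rw [List.flatMap_cons]
    refine ⟨⟨?_, ?_, ?_, ?_, ?_⟩, ?_⟩
    · simp [pos0]
      omega
    · simp [pos0, iv]
    · simp [pos0, iv]
    · simp [pos0, iv]
    · rw [e]
      exact h3.1
    · show inc (pos0 g) (pos0 g (iv ((i, false), false))) (is.flatMap blkI) = _
      rw [e, h3.2, List.length_cons]
      congr 2
      omega

lemma Zh_pth (hg : h ≤ g) : Pth (pos0 g) 0 (Zh g h) ∧ inc (pos0 g) 0 (Zh g h) = 4 * h := by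
  have h1 := pth_aux ((List.finRange g).take h) 0 (fun j hj => by
    rw [List.getElem_take, List.getElem_finRange]
    simp)
  have h2 : ((List.finRange g).take h).length = h := by
    rw [List.length_take, List.length_finRange, min_eq_left hg]
  rw [h2] at h1
  unfold Zh
  simpa using h1

lemma ZI_pth (hg : h ≤ g) : Pth' (pos0 g) (4 * h + 1) (ZI g h) ∧
    inc (pos0 g) (4 * h + 1) (ZI g h) = 1 := by
  have h2 : ((List.finRange g).take h).reverse.length = h := by
    rw [List.length_reverse, List.length_take, List.length_finRange, min_eq_left hg]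
  have h1 := pth'_aux ((List.finRange g).take h).reverse h (fun j hj => by
    rw [h2] at hj
    rw [List.getElem_reverse, List.getElem_take, List.getElem_finRange]
    simp
    omega) h2.le
  rw [h2] at h1
  unfold ZI
  simpa using h1

lemma Zh_inH : ∀ l ∈ Zh g h, inH h l := by
  intro l hl
  unfold Zh at hl
  obtain ⟨i, hi, hl⟩ := List.mem_flatMap.1 hl
  have := take_lt g h i hi
  unfold blk at hl
  unfold inH
  simp only [List.mem_cons, List.not_mem_nil, or_false] at hl
  rcases hl with rfl | rfl | rfl | rfl <;> exact this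

lemma ZI_inH : ∀ l ∈ ZI g h, inH h l := by
  intro l hl
  unfold ZI at hl
  obtain ⟨i, hi, hl⟩ := List.mem_flatMap.1 hl
  have := take_lt g h i (List.mem_reverse.1 hi)
  unfold blkI at hl
  unfold inH
  simp only [List.mem_cons, List.not_mem_nil, or_false] at hl
  rcases hl with rfl | rfl | rfl | rfl <;> exact this

lemma Zh_cons (h1 : 1 ≤ h) (hg : h ≤ g) : ∃ l s, Zh g h = l :: s ∧ pos0 g l = 1 ∧
    Pth (pos0 g) (pos0 g (iv l)) s ∧ inc (pos0 g) (pos0 g (iv l)) s = 4 * h := by
  obtain ⟨h2, h3⟩ := Zh_pth (g := g) hg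
  cases hz : Zh g h with
  | nil =>
    exfalso
    rw [hz] at h3
    have : 0 = 4 * h := h3
    omega
  | cons l s =>
    rw [hz] at h2 h3
    exact ⟨l, s, rfl, h2.1, h2.2, h3⟩

lemma ZI_cons (h1 : 1 ≤ h) (hg : h ≤ g) : ∃ l s, ZI g h = l :: s ∧ pos0 g l = 4 * h ∧
    Pth' (pos0 g) (pos0 g (iv l)) s ∧ inc (pos0 g) (pos0 g (iv l)) s = 1 := by
  obtain ⟨h2, h3⟩ := ZI_pth (g := g) hg
  cases hz : ZI g h with
  | nil =>
    exfalso
    rw [hz] at h3
    have : 4 * h + 1 = 1 := h3
    omega
  | cons l s =>
    rw [hz] at h2 h3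
    exact ⟨l, s, rfl, by have := h2.1; omega, h2.2, h3⟩

/-- the word leaves the first handles -/
def Out (h : ℕ) (R : List ((Fin g × Bool) × Bool)) : Prop := R = [] ∨ ∃ b R', R = b :: R' ∧ ¬ inH h b

theorem lower (h1 : 1 ≤ h) (hg : h ≤ g) : ∀ (N : ℕ) (A R : List ((Fin g × Bool) × Bool)) (q : ℕ),
    A.length ≤ N → (q = 0 ∨ (4 * h ≤ q ∧ q ≤ 4 * g)) → (∀ l ∈ A, inH h l) → Out h R →
    Red (pos0 g) q (A ++ R) → (∀ i : ℤ, FreeGroup.mk A ≠ zetaH g h ^ i) →
    ∃ M0 : ℕ, ∀ m ≥ M0, ∀ X, ltp (4 * g + 1) (pos0 g) q (rep m (Zh g h) ++ X) (A ++ R) := by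
  have hA := pos0_arr g
  obtain ⟨l, s, hz, hl, hs, hinc⟩ := Zh_cons (g := g) h1 hg
  intro N
  induction N with
  | zero =>
    intro A R q hN hq hAin hR hred hne
    have : A = [] := List.length_eq_zero_iff.1 (by omega)
    subst this
    exact absurd rfl (hne 0)
  | succ N ih =>
    intro A R q hN hq hAin hR hred hne
    by_cases hpre : Zh g h <+: A
    · obtain ⟨A', rfl⟩ := hpre
      have e1 : inc (pos0 g) q (Zh g h) = 4 * h := by
        rw [hz]
        exact hinc
      rw [List.append_assoc, red_append, e1] at hred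
      have hlen : A'.length ≤ N := by
        have : (Zh g h).length = s.length + 1 := by rw [hz]; rfl
        rw [List.length_append] at hN
        omega
      obtain ⟨M0, hM0⟩ := ih A' R (4 * h) hlen (Or.inr ⟨le_rfl, by omega⟩)
        (fun l hl => hAin l (List.mem_append_right _ hl)) hR hred.2 (fun i hi => by
          apply hne (1 + i)
          rw [mk_app', mk_Zh, hi, zpow_add, zpow_one])
      refine ⟨M0 + 1, fun m hm X => ?_⟩
      obtain ⟨m', rfl⟩ : ∃ m', m = m' + 1 := ⟨m - 1, by omega⟩
      rw [rep_succ, List.append_assoc, List.append_assoc, ltp_app, e1]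
      exact hM0 m' (by omega) X
    · refine ⟨1, fun m hm X => ?_⟩
      obtain ⟨m', rfl⟩ : ∃ m', m = m' + 1 := ⟨m - 1, by omega⟩
      rw [rep_succ, List.append_assoc]
      generalize rep m' (Zh g h) ++ X = X'
      cases A with
      | nil => exact absurd rfl (hne 0)
      | cons f A =>
        have hfin := (inH_iff f).1 (hAin f List.mem_cons_self)
        have hf0 := hA.lo f
        have hf1 := hA.hi f
        have hfq := hred.1
        have hqn : q < 4 * g + 1 := by omega
        rw [hz, List.cons_append, List.cons_append]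
        by_cases hlf : l = f
        · subst hlf
          rw [ltp_cons]
          refine hs.min hA (hA.hi _) (hA.lo _) hred.2 (fun hp => hpre ?_) X'
          have h3 := prefix_of_append (P := inH h) (fun l' hl' => Zh_inH (g := g) l' (by
            rw [hz]
            exact List.mem_cons_of_mem _ hl')) hR hp
          rw [hz, List.cons_prefix_cons]
          exact ⟨rfl, h3⟩
        · have h5 : pos0 g l ≠ pos0 g f := fun h6 => hlf (hA.inj h6)
          refine ltp_lt hA hqn ?_
          simp only [hd]
          rw [key_val hqn (hA.hi l), key_val hqn hf1]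
          split_ifs <;> omega

theorem upper (h1 : 1 ≤ h) (hg : h ≤ g) : ∀ (N : ℕ) (A R : List ((Fin g × Bool) × Bool)) (q : ℕ),
    A.length ≤ N → (q = 0 ∨ (4 * h < q ∧ q ≤ 4 * g) ∨ q = 1) → (∀ l ∈ A, inH h l) → Out h R →
    Red (pos0 g) q (A ++ R) → (∀ i : ℤ, FreeGroup.mk A ≠ zetaH g h ^ i) →
    ∃ M0 : ℕ, ∀ m ≥ M0, ∀ X, ltp (4 * g + 1) (pos0 g) q (A ++ R) (rep m (ZI g h) ++ X) := by
  have hA := pos0_arr g
  obtain ⟨l, s, hz, hl, hs, hinc⟩ := ZI_cons (g := g) h1 hg
  intro N
  induction N with
  | zero =>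
    intro A R q hN hq hAin hR hred hne
    have : A = [] := List.length_eq_zero_iff.1 (by omega)
    subst this
    exact absurd rfl (hne 0)
  | succ N ih =>
    intro A R q hN hq hAin hR hred hne
    by_cases hpre : ZI g h <+: A
    · obtain ⟨A', rfl⟩ := hpre
      have e1 : inc (pos0 g) q (ZI g h) = 1 := by
        rw [hz]
        exact hinc
      rw [List.append_assoc, red_append, e1] at hred
      have hlen : A'.length ≤ N := by
        have : (ZI g h).length = s.length + 1 := by rw [hz]; rfl
        rw [List.length_append] at hN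
        omega
      obtain ⟨M0, hM0⟩ := ih A' R 1 hlen (Or.inr (Or.inr rfl))
        (fun l hl => hAin l (List.mem_append_right _ hl)) hR hred.2 (fun i hi => by
          apply hne (-1 + i)
          rw [mk_app', mk_ZI, hi, zpow_add, zpow_neg_one])
      refine ⟨M0 + 1, fun m hm X => ?_⟩
      obtain ⟨m', rfl⟩ : ∃ m', m = m' + 1 := ⟨m - 1, by omega⟩
      rw [rep_succ, List.append_assoc, List.append_assoc, ltp_app, e1]
      exact hM0 m' (by omega) X
    · refine ⟨1, fun m hm X => ?_⟩
      obtain ⟨m', rfl⟩ : ∃ m', m = m' + 1 := ⟨m - 1, by omega⟩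
      rw [rep_succ, List.append_assoc]
      generalize rep m' (ZI g h) ++ X = X'
      cases A with
      | nil => exact absurd rfl (hne 0)
      | cons f A =>
        have hfin := (inH_iff f).1 (hAin f List.mem_cons_self)
        have hf0 := hA.lo f
        have hf1 := hA.hi f
        have hfq := hred.1
        have hqn : q < 4 * g + 1 := by omega
        rw [hz, List.cons_append, List.cons_append]
        by_cases hlf : l = f
        · subst hlf
          rw [ltp_cons]
          refine hs.max hA (hA.hi _) hred.2 (fun hp => hpre ?_) X'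
          have h3 := prefix_of_append (P := inH h) (fun l' hl' => ZI_inH (g := g) l' (by
            rw [hz]
            exact List.mem_cons_of_mem _ hl')) hR hp
          rw [hz, List.cons_prefix_cons]
          exact ⟨rfl, h3⟩
        · have h5 : pos0 g l ≠ pos0 g f := fun h6 => hlf (hA.inj h6)
          refine ltp_lt hA hqn ?_
          simp only [hd]
          rw [key_val hqn (hA.hi l), key_val hqn hf1]
          split_ifs <;> omega

/-! ### the action -/

lemma sep_letter (l : (Fin g × Bool) × Bool) : sepTwist g h (FreeGroup.mk [l]) =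
    if l.1.1.val < h then (zetaH g h)⁻¹ * FreeGroup.mk [l] * zetaH g h else FreeGroup.mk [l] := by
  obtain ⟨a, s⟩ := l
  have e1 : sepTwist g h (FreeGroup.of a) =
      if a.1.val < h then (zetaH g h)⁻¹ * FreeGroup.of a * ((zetaH g h)⁻¹)⁻¹ else FreeGroup.of a :=
    sepHom_of g h _ a
  cases s with
  | true =>
    show sepTwist g h (FreeGroup.of a) = _
    rw [e1, inv_inv]
    rfl
  | false =>
    have e2 : (FreeGroup.mk [(a, false)] : F g) = (FreeGroup.of a)⁻¹ := rfl
    rw [e2, map_inv, e1]
    simp only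
    split_ifs
    · group
    · rfl

lemma sep_A (A : List ((Fin g × Bool) × Bool)) (hAin : ∀ l ∈ A, inH h l) :
    sepTwist g h (FreeGroup.mk A) = (zetaH g h)⁻¹ * FreeGroup.mk A * zetaH g h := by
  induction A with
  | nil =>
    have e : (FreeGroup.mk [] : F g) = 1 := rfl
    rw [e, map_one]
    group
  | cons l A ih =>
    have e : (FreeGroup.mk (l :: A) : F g) = FreeGroup.mk [l] * FreeGroup.mk A := by
      rw [← mk_app']
      rfl
    rw [e, map_mul, ih (fun l hl => hAin l (List.mem_cons_of_mem _ hl)), sep_letter,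
      if_pos (show l.1.1.val < h from hAin l List.mem_cons_self)]
    group

lemma sep_zeta : sepTwist g h (zetaH g h) = zetaH g h := by
  rw [← mk_Zh, sep_A _ Zh_inH, mk_Zh]
  group

/-- the decomposition of a word -/
theorem decomp : ∀ (N : ℕ) (L : List ((Fin g × Bool) × Bool)), L.length ≤ N →
    sepTwist g h (FreeGroup.mk L) = FreeGroup.mk L ∨
    ∃ W A R, L = W ++ (A ++ R) ∧ sepTwist g h (FreeGroup.mk W) = FreeGroup.mk W ∧
      (W = [] ∨ ∃ W0 b, W = W0 ++ [b] ∧ ¬ inH h b) ∧ (∀ l ∈ A, inH h l) ∧
      (∀ i : ℤ, FreeGroup.mk A ≠ zetaH g h ^ i) ∧ Out h R := by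
  classical
  intro N
  induction N with
  | zero =>
    intro L hL
    have : L = [] := List.length_eq_zero_iff.1 (by omega)
    subst this
    left
    exact map_one _
  | succ N ih =>
    intro L hL
    set A0 := L.takeWhile (fun l => decide (inH h l)) with hA0
    have hLA : L = A0 ++ L.dropWhile (fun l => decide (inH h l)) := (List.takeWhile_append_dropWhile).symm
    have hAin : ∀ l ∈ A0, inH h l := fun l hl => by
      have := List.mem_takeWhile_imp hl
      simpa using this
    have hR : Out h (L.dropWhile (fun l => decide (inH h l))) := by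
      cases hdrop : L.dropWhile (fun l => decide (inH h l)) with
      | nil => exact Or.inl rfl
      | cons b R' =>
        refine Or.inr ⟨b, R', rfl, ?_⟩
        have h3 := List.head_dropWhile_not (p := fun l => decide (inH h l)) (l := L)
          (by rw [hdrop]; exact List.cons_ne_nil _ _)
        simp only [hdrop, List.head_cons] at h3
        simpa using h3
    by_cases hpow : ∃ i : ℤ, FreeGroup.mk A0 = zetaH g h ^ i
    · obtain ⟨i, hi⟩ := hpow
      have hfix : sepTwist g h (FreeGroup.mk A0) = FreeGroup.mk A0 := by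
        rw [hi, map_zpow, sep_zeta]
      rcases hR with hR | ⟨b, R', hR, hb⟩
      · left
        rw [hLA, hR, List.append_nil]
        exact hfix
      · have hbfix : sepTwist g h (FreeGroup.mk [b]) = FreeGroup.mk [b] := by
          rw [sep_letter, if_neg (show ¬ b.1.1.val < h from hb)]
        have e : ∀ S, (FreeGroup.mk (A0 ++ (b :: S)) : F g) =
            FreeGroup.mk A0 * (FreeGroup.mk [b] * FreeGroup.mk S) := by
          intro S
          rw [← mk_app', ← mk_app']
          rfl
        have hlen : R'.length ≤ N := by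
          rw [hLA, hR, List.length_append, List.length_cons] at hL
          omega
        rw [hLA, hR]
        rcases ih R' hlen with h3 | ⟨W, A, R, h3, h4, h5, h6, h7, h8⟩
        · left
          rw [e, map_mul, map_mul, hfix, hbfix, h3]
        · right
          refine ⟨A0 ++ (b :: W), A, R, by rw [h3]; simp, ?_, ?_, h6, h7, h8⟩
          · rw [e, map_mul, map_mul, hfix, hbfix, h4]
          · right
            rcases h5 with rfl | ⟨W0, b', rfl, hb'⟩
            · exact ⟨A0, b, rfl, hb⟩
            · exact ⟨A0 ++ (b :: W0), b', by simp, hb'⟩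
    · push Not at hpow
      exact Or.inr ⟨[], A0, _, hLA, map_one _, Or.inl rfl, hAin, hpow, hR⟩

lemma inc_last (p : ((Fin g × Bool) × Bool) → ℕ) (q : ℕ) (W0 : List ((Fin g × Bool) × Bool))
    (b : (Fin g × Bool) × Bool) : inc p q (W0 ++ [b]) = p (iv b) := by
  rw [inc_append]
  rfl

lemma inc_rep {z : List ((Fin g × Bool) × Bool)} {r : ℕ} (hz : ∀ q, inc (pos0 g) q z = r) (m : ℕ)
    (q : ℕ) : inc (pos0 g) q (rep (m + 1) z) = r := by
  induction m generalizing q with
  | zero =>
    rw [rep_succ, rep_zero, List.append_nil]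
    exact hz q
  | succ m ih =>
    rw [rep_succ, inc_append]
    exact ih _

lemma red_rep {z : List ((Fin g × Bool) × Bool)} {r : ℕ} (hz : ∀ q, inc (pos0 g) q z = r)
    (hr : Red (pos0 g) r z) (m : ℕ) (q : ℕ) (hq : Red (pos0 g) q z) : Red (pos0 g) q (rep m z) := by
  induction m generalizing q with
  | zero => trivial
  | succ m ih =>
    rw [rep_succ, red_append]
    refine ⟨hq, ?_⟩
    rw [hz]
    exact ih _ hr

theorem pow_conj (N : ℕ) (W B : List ((Fin g × Bool) × Bool))
    (hW : sepTwist g h (FreeGroup.mk W) = FreeGroup.mk W) (hB : ∀ l ∈ B, inH h l) :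
    ((sepTwist g h) ^ N) (FreeGroup.mk W * FreeGroup.mk B) =
      FreeGroup.mk W * ((zetaH g h)⁻¹ ^ N * FreeGroup.mk B * (zetaH g h) ^ N) := by
  induction N with
  | zero => simp
  | succ N ih =>
    rw [pow_succ', MulAut.mul_apply, ih, map_mul, map_mul, map_mul, hW, map_pow, map_pow, map_inv,
      sep_zeta, sep_A B hB, pow_succ, pow_succ']
    group

/-- the sandwich -/
theorem sandwich (h1 : 1 ≤ h) (hg : h ≤ g) (v : F g)
    (hv : ∃ W A R, v.toWord = W ++ (A ++ R) ∧ sepTwist g h (FreeGroup.mk W) = FreeGroup.mk W ∧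
      (W = [] ∨ ∃ W0 b, W = W0 ++ [b] ∧ ¬ inH h b) ∧ (∀ l ∈ A, inH h l) ∧
      (∀ i : ℤ, FreeGroup.mk A ≠ zetaH g h ^ i) ∧ Out h R) :
    lt (4 * g + 1) (pos0 g) v (sepTwist g h v) := by
  have hA := pos0_arr g
  obtain ⟨W, A, R, hvw, hWfix, hW, hAin, hne, hR⟩ := hv
  set q := inc (pos0 g) 0 W with hq
  have hqq : q = 0 ∨ (4 * h < q ∧ q ≤ 4 * g) := by
    rcases hW with rfl | ⟨W0, b, rfl, hb⟩
    · exact Or.inl rfl
    · right
      rw [hq, inc_last]
      have h3 := hA.hi (iv b)
      have h4 : ¬ pos0 g (iv b) ≤ 4 * h := fun h5 => hb ((inH_iv b).1 ((inH_iff _).2 h5))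
      omega
  have hred := red_word hA v
  rw [hvw, red_append] at hred
  obtain ⟨M1, hM1⟩ := lower h1 hg _ A R q le_rfl (by omega) hAin hR hred.2 hne
  obtain ⟨M2, hM2⟩ := upper h1 hg _ A R q le_rfl (by omega) hAin hR hred.2 hne
  -- the letter `y_0⁻¹`
  have hg0 : 0 < g := by omega
  set e : (Fin g × Bool) × Bool := ((⟨0, hg0⟩, true), false) with he
  have hein : inH h e := by
    show 0 < h
    omega
  have hep : pos0 g e = 2 := by simp [pos0, he]
  have hei : pos0 g (iv e) = 4 := by simp [pos0, he, iv]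
  obtain ⟨l, s, hz, hl, hs, hinc⟩ := Zh_cons (g := g) h1 hg
  obtain ⟨l', s', hz', hl', hs', hinc'⟩ := ZI_cons (g := g) h1 hg
  have incZ : ∀ q, inc (pos0 g) q (Zh g h) = 4 * h := fun q => by rw [hz]; exact hinc
  have incZI : ∀ q, inc (pos0 g) q (ZI g h) = 1 := fun q => by rw [hz']; exact hinc'
  have redZ : ∀ q, q ≠ 1 → Red (pos0 g) q (Zh g h) := fun q hq1 => by
    rw [hz]
    exact ⟨by omega, hs.red⟩
  have redZI : ∀ q, q ≠ 4 * h → Red (pos0 g) q (ZI g h) := fun q hq1 => by
    rw [hz']
    exact ⟨by omega, hs'.red⟩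
  -- the exponents
  obtain ⟨m, hm1, hm⟩ : ∃ m : ℕ, M1 ≤ m + 1 ∧ True := ⟨M1, by omega, trivial⟩
  set k := M2 with hk
  -- the two words
  have ru : Red (pos0 g) 0 (W ++ (rep (m + 1) (Zh g h) ++ [e])) := by
    rw [red_append]
    refine ⟨hred.1, ?_⟩
    rw [red_append]
    refine ⟨red_rep incZ (redZ _ (by omega)) _ _ (redZ _ (by omega)), ?_⟩
    rw [inc_rep incZ]
    exact ⟨by rw [hep]; omega, trivial⟩
  have ru2 : Red (pos0 g) 0 (W ++ (rep (k + 1) (ZI g h) ++ (e :: rep (m + 1 + (k + 1)) (Zh g h)))) := by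
    rw [red_append]
    refine ⟨hred.1, ?_⟩
    rw [red_append]
    refine ⟨red_rep incZI (redZI _ (by omega)) _ _ (redZI _ (by omega)), ?_⟩
    rw [inc_rep incZI]
    refine ⟨by rw [hep]; omega, ?_⟩
    rw [hei]
    exact red_rep incZ (redZ _ (by omega)) _ _ (redZ _ (by omega))
  set u : F g := FreeGroup.mk (W ++ (rep (m + 1) (Zh g h) ++ [e])) with hu
  set T := sepTwist g h with hT
  have hTu : (T ^ (m + 1 + (k + 1))) u =
      FreeGroup.mk (W ++ (rep (k + 1) (ZI g h) ++ (e :: rep (m + 1 + (k + 1)) (Zh g h)))) := by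
    rw [hu, mk_app', hT, pow_conj _ _ _ hWfix]
    · rw [mk_app', mk_app', mk_app']
      have e2 : ∀ S, (FreeGroup.mk (e :: S) : F g) = FreeGroup.mk [e] * FreeGroup.mk S := by
        intro S
        rw [← mk_app']
        rfl
      rw [e2 (rep _ _), mk_rep, mk_rep, mk_rep, mk_Zh, mk_ZI]
      congr 1
      have e3 : ∀ (a b : F g) (x y : ℕ), a⁻¹ ^ (x + y) * (a ^ x * b) * a ^ (x + y) =
          a⁻¹ ^ y * (b * a ^ (x + y)) := by
        intro a b x y
        rw [pow_add a⁻¹, inv_pow, inv_pow, ← mul_assoc, mul_assoc _ _ (a ^ x)]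
        have e4 : (a ^ x)⁻¹ * (a ^ y)⁻¹ * a ^ x = (a ^ y)⁻¹ := by
          rw [← mul_inv_rev, ← pow_add, add_comm, pow_add, mul_inv_rev]
          group
        rw [show (a ^ x)⁻¹ * ((a ^ y)⁻¹ * a ^ x) = (a ^ y)⁻¹ from by rw [← mul_assoc, e4], mul_assoc]
      exact e3 _ _ _ _
    · intro x hx
      rw [List.mem_append] at hx
      rcases hx with hx | hx
      · unfold rep at hx
        obtain ⟨z, hz1, hz2⟩ := List.mem_flatten.1 hx
        rw [List.eq_of_mem_replicate hz1] at hz2
        exact Zh_inH x hz2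
      · rw [List.mem_singleton] at hx
        rw [hx]
        exact hein
  have luv : lt (4 * g + 1) (pos0 g) u v := by
    unfold lt
    rw [hu, word_mk ru, hvw, ltp_app]
    exact hM1 _ hm1 _
  have lvu : lt (4 * g + 1) (pos0 g) v ((T ^ (m + 1 + (k + 1))) u) := by
    rw [hTu]
    unfold lt
    rw [word_mk ru2, hvw, ltp_app]
    exact hM2 _ (by omega) _
  -- the order argument
  have hpres : Pres (lt (4 * g + 1) (pos0 g)) T := pres (sepTwist_mem g h)
  have hpresN : ∀ N : ℕ, ∀ x y, lt (4 * g + 1) (pos0 g) x y →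
      lt (4 * g + 1) (pos0 g) ((T ^ N) x) ((T ^ N) y) := by
    intro N
    induction N with
    | zero => intro x y hxy; simpa using hxy
    | succ N ih =>
      intro x y hxy
      rw [pow_succ', MulAut.mul_apply, MulAut.mul_apply]
      exact hpres _ _ (ih x y hxy)
  by_contra hcon
  have hle : ∀ N : ℕ, (T ^ N) v = v ∨ lt (4 * g + 1) (pos0 g) ((T ^ N) v) v := by
    intro N
    induction N with
    | zero => left; simp
    | succ N ih =>
      have h5 : T v = v ∨ lt (4 * g + 1) (pos0 g) (T v) v := by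
        rcases lt_tri hA v (T v) with h6 | h6 | h6
        · exact absurd h6 hcon
        · exact Or.inl h6.symm
        · exact Or.inr h6
      have h6 : (T ^ (N + 1)) v = (T ^ N) (T v) := by rw [pow_succ, MulAut.mul_apply]
      rw [h6]
      rcases h5 with h5 | h5
      · rw [h5]
        exact ih
      · have h7 := hpresN N _ _ h5
        rcases ih with h8 | h8
        · rw [h8] at h7
          exact Or.inr h7
        · exact Or.inr (Pool.Agent.N513.PF.lt_trans h7 h8)
  have h9 := hpresN (m + 1 + (k + 1)) _ _ luv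
  have h10 := Pool.Agent.N513.PF.lt_trans lvu h9
  rcases hle (m + 1 + (k + 1)) with h11 | h11
  · rw [h11] at h10
    exact Pool.Agent.N513.PF.lt_irrefl _ h10
  · exact Pool.Agent.N513.PF.lt_asymm h10 h11

theorem sep_up (g h : ℕ) (h1 : 1 ≤ h) (hg : h ≤ g) :
    Up (lt (4 * g + 1) (pos0 g)) (sepTwist g h) := by
  intro v
  rcases decomp (g := g) (h := h) _ v.toWord le_rfl with h2 | h2
  · left
    rw [FreeGroup.mk_toWord] at h2
    exact h2.symm
  · exact Or.inr (sandwich h1 hg v h2)

theorem sep_ne_one (g h : ℕ) (h1 : 1 ≤ h) (hg : h ≤ g) : sepTwist g h ≠ 1 := by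
  intro h2
  have hg0 : 0 < g := by omega
  have hA := pos0_arr g
  set e : (Fin g × Bool) × Bool := ((⟨0, hg0⟩, false), true) with he
  have hw : (FreeGroup.mk [e] : F g).toWord = [e] := by
    rw [FreeGroup.toWord_mk]
    exact FreeGroup.IsReduced.singleton.reduce_eq
  have h3 := sandwich h1 hg (FreeGroup.mk [e]) ⟨[], [e], [], by rw [hw]; rfl, map_one _, Or.inl rfl,
    fun l hl => by
      rw [List.mem_singleton] at hl
      rw [hl]
      show 0 < h
      omega, fun i hi => by
      -- the exponent sum of `x_0`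
      let θ : F g →* Multiplicative ℤ := FreeGroup.lift fun a =>
        if a = (⟨0, hg0⟩, false) then Multiplicative.ofAdd 1 else 1
      have h4 : θ (zetaH g h) = 1 := by
        unfold zetaH
        rw [map_list_prod, List.map_map]
        apply List.prod_eq_one
        intro x hx
        obtain ⟨j, -, rfl⟩ := List.mem_map.1 hx
        simp only [Function.comp_apply, map_mul, map_inv]
        rw [mul_comm (θ (FreeGroup.of (j, false))), mul_inv_cancel_right, mul_inv_cancel]
      have h5 := congrArg θ hi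
      rw [map_zpow, h4, one_zpow] at h5
      have h6 : θ (FreeGroup.mk [e]) = Multiplicative.ofAdd 1 := by
        show θ (FreeGroup.of (⟨0, hg0⟩, false)) = _
        simp [θ]
      rw [h6] at h5
      have h7 : (1 : ℤ) = 0 := Multiplicative.ofAdd.injective h5
      omega, Or.inl rfl⟩
  rw [h2] at h3
  exact Pool.Agent.N513.PF.lt_irrefl _ h3

end spec

end Pool.Agent.Helper23.MCG
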